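import Pool.Agent.H827.RN.Defs3

/-!
# Finitely generated torsion-free commutative groups (project RN, task ab)
-/

set_option autoImplicit false

universe u

namespace Pool.Agent.H827.RN

namespace Ab

/-- The additive form. -/
theorem add_form (M : Type u) [AddCommGroup M] [AddGroup.FG M]
    (h : ∀ (x : M) (m : ℕ), 0 < m → m • x = 0 → x = 0) : ∃ k : ℕ, Nonempty (M ≃+ (Fin k → ℤ)) := by
  have : Module.Finite ℤ M := Module.Finite.iff_addGroup_fg.2 ‹_›
  have : Module.IsTorsionFree ℤ M := by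
    refine ⟨fun r hr => ?_⟩
    have hr0 : r ≠ 0 := isRegular_iff_ne_zero.1 hr
    intro x y hxy
    have h1 : r • (x - y) = 0 := by
      rw [smul_sub]
      exact sub_eq_zero.2 hxy
    have h2 : (r.natAbs : ℕ) • (x - y) = 0 := by
      rcases Int.natAbs_eq r with h3 | h3
      · rw [h3, natCast_zsmul] at h1
        exact h1
      · rw [h3, neg_smul, natCast_zsmul, neg_eq_zero] at h1
        exact h1
    exact sub_eq_zero.1 (h _ _ (Int.natAbs_pos.2 hr0) h2)
  obtain ⟨k, b⟩ := Module.basisOfFiniteTypeTorsionFree' (R := ℤ) (M := M)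
  exact ⟨k, ⟨b.equivFun.toAddEquiv⟩⟩

/-- The commutative form. -/
theorem comm_form (Λ : Type u) [CommGroup Λ] [Group.FG Λ] (h : TF Λ) :
    ∃ k : ℕ, Nonempty (Λ ≃* Multiplicative (Fin k → ℤ)) := by
  obtain ⟨k, ⟨e⟩⟩ := add_form (Additive Λ) (fun x m hm hx => by
    have h1 : (x.toMul) ^ m = 1 := by
      rw [← toMul_nsmul, hx, toMul_zero]
    have h2 := h _ m hm h1
    exact h2)
  exact ⟨k, ⟨AddEquiv.toMultiplicativeRight e⟩⟩

end Ab

theorem t_ab : S_ab.{u} := by
  intro Λ hG hFG hc htf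
  let _ : CommGroup Λ := { hG with mul_comm := hc }
  exact Ab.comm_form Λ htf

end Pool.Agent.H827.RN
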