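import Pool.Agent.H827.RN.Fin

/-!
# Torsion-free abelian subgroups of finite index
-/

set_option autoImplicit false

open Subgroup

universe u v

namespace Pool.Agent.H827.RN

/-- a finitely generated commutative group has a torsion-free subgroup of finite index -/
theorem exists_tf_comm (A : Type u) [CommGroup A] [Group.FG A] :
    ∃ D : Subgroup A, D.FiniteIndex ∧ TF D := by
  have hns := Pool.Agent.Helper111.EN.NSc.NS_of_comm A
  have hfgT : (CommGroup.torsion A).FG := hns _ le_top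
  have hfinT : Finite (CommGroup.torsion A) := by
    have h1 : Group.FG (CommGroup.torsion A) := (Group.fg_iff_subgroup_fg _).2 hfgT
    exact CommGroup.finite_of_fg_torsion _ (fun x => by
      have h2 : IsOfFinOrder (x : A) := x.2
      rw [isOfFinOrder_iff_pow_eq_one] at h2 ⊢
      obtain ⟨n, hn, h3⟩ := h2
      exact ⟨n, hn, Subtype.ext h3⟩)
  set m := Nat.card (CommGroup.torsion A) with hm
  have hm0 : 0 < m := Nat.card_pos
  have hpow : ∀ x : A, x ∈ CommGroup.torsion A → x ^ m = 1 := by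
    intro x hx
    have h1 : (⟨x, hx⟩ : CommGroup.torsion A) ^ m = 1 := pow_card_eq_one'
    exact congrArg Subtype.val h1
  let D : Subgroup A := (powMonoidHom m : A →* A).range
  refine ⟨D, ?_, ?_⟩
  · have h1 : Finite (A ⧸ D) := by
      refine CommGroup.finite_of_fg_torsion _ (fun q => ?_)
      obtain ⟨x, rfl⟩ := QuotientGroup.mk'_surjective D q
      rw [isOfFinOrder_iff_pow_eq_one]
      refine ⟨m, hm0, ?_⟩
      rw [← map_pow, ← MonoidHom.mem_ker, QuotientGroup.ker_mk']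
      exact ⟨x, rfl⟩
    exact Subgroup.finiteIndex_of_finite_quotient
  · rintro ⟨y, ⟨x, rfl⟩⟩ k hk h
    have h1 : (x ^ m) ^ k = 1 := congrArg Subtype.val h
    have h2 : x ∈ CommGroup.torsion A := by
      show IsOfFinOrder x
      rw [isOfFinOrder_iff_pow_eq_one]
      exact ⟨m * k, Nat.mul_pos hm0 hk, by rw [pow_mul]; exact h1⟩
    exact Subtype.ext (hpow x h2)

/-- the group theoretic part -/
theorem exists_abelian' {Γ : Type u} [Group Γ] [Group.FG Γ] (hvn : Group.IsVirtuallyNilpotent Γ)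
    (Γ₁ : Subgroup Γ) (hf : Γ₁.FiniteIndex)
    (hab : ∀ H : Subgroup Γ₁, Group.IsNilpotent H → ∀ x ∈ H, ∀ y ∈ H, x * y = y * x) :
    ∃ Λ : Subgroup Γ, Λ.FiniteIndex ∧ Λ.Characteristic ∧ (∀ x y : Λ, x * y = y * x) ∧ TF Λ := by
  obtain ⟨N, hN, hNf⟩ := hvn
  -- a commutative subgroup of finite index
  set Δ : Subgroup Γ := Γ₁ ⊓ N with hΔ
  have hle1 : Δ ≤ Γ₁ := inf_le_left
  have hleN : Δ ≤ N := inf_le_right
  have hΔf : Δ.FiniteIndex := inferInstance
  have hnil : Group.IsNilpotent Δ := by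
    have : Group.IsNilpotent (Δ.subgroupOf N) := inferInstance
    exact (Group.isNilpotent_congr (Subgroup.subgroupOfEquivOfLe hleN)).1 this
  have hnil1 : Group.IsNilpotent (Δ.subgroupOf Γ₁) :=
    (Group.isNilpotent_congr (Subgroup.subgroupOfEquivOfLe hle1)).2 hnil
  have hcomm : ∀ x y : Δ, x * y = y * x := fun x y => by
    have h1 := hab (Δ.subgroupOf Γ₁) hnil1 ⟨x, hle1 x.2⟩ (Subgroup.mem_subgroupOf.2 x.2)
      ⟨y, hle1 y.2⟩ (Subgroup.mem_subgroupOf.2 y.2)
    exact Subtype.ext (congrArg (fun z : Γ₁ => (z : Γ)) h1)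
  letI : CommGroup Δ := { (inferInstance : Group Δ) with mul_comm := hcomm }
  have hfgΔ : Group.FG Δ := inferInstance
  obtain ⟨D, hD, hDtf⟩ := exists_tf_comm Δ
  have hDf : (D.map Δ.subtype).FiniteIndex := by
    refine ⟨?_⟩
    rw [Subgroup.index_map_subtype]
    exact mul_ne_zero hD.index_ne_zero hΔf.index_ne_zero
  obtain ⟨Λ, hΛ, hle, hchar⟩ := t_fi Γ (D.map Δ.subtype) hDf
  refine ⟨Λ, hΛ, hchar, fun x y => ?_, fun x m hm hx => ?_⟩
  · obtain ⟨a, -, ha⟩ := hle x.2
    obtain ⟨b, -, hb⟩ := hle y.2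
    apply Subtype.ext
    show (x : Γ) * y = y * x
    rw [← ha, ← hb]
    exact congrArg (fun z : Δ => (z : Γ)) (hcomm a b)
  · obtain ⟨a, haD, ha⟩ := hle x.2
    have h1 : (⟨a, haD⟩ : D) ^ m = 1 := by
      apply Subtype.ext
      apply Subtype.ext
      show ((a ^ m : Δ) : Γ) = 1
      have h2 : ((a : Γ)) = x := ha
      rw [Subgroup.coe_pow, h2]
      exact congrArg (fun z : Λ => (z : Γ)) hx
    have h3 := hDtf ⟨a, haD⟩ m hm h1
    have h4 : a = 1 := congrArg Subtype.val h3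
    apply Subtype.ext
    show (x : Γ) = 1
    rw [← ha, h4]
    rfl

end Pool.Agent.H827.RN
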