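import Pool.Agent.H827.RN.Defs4

/-!
# The full group acts by affine maps (project RN; helper344 for helper827)
-/

set_option autoImplicit false

open Set Filter Topology

universe u

namespace Pool.Agent.H827.RN

namespace Aff

lemma vec_mulVec {k : ℕ} (M : Matrix (Fin k) (Fin k) ℤ) (z : Fin k → ℤ) :
    vec (M.mulVec z) = (M.map (Int.cast : ℤ → ℝ)).mulVec (vec z) := by
  funext i
  simp [vec, Matrix.mulVec, dotProduct]

lemma cast_mul {k : ℕ} (M N : Matrix (Fin k) (Fin k) ℤ) :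
    (M * N).map (Int.cast : ℤ → ℝ) = M.map (Int.cast : ℤ → ℝ) * N.map (Int.cast : ℤ → ℝ) := by
  have h := Matrix.map_mul (L := M) (M := N) (f := Int.castRingHom ℝ)
  exact h

section

variable {Γ : Type u} [Group Γ] {Λ : Subgroup Γ} {k : ℕ} (e : Λ ≃* Multiplicative (Fin k → ℤ))

lemma uniq {M N : Matrix (Fin k) (Fin k) ℤ}
    (h : ∀ l : Λ, M.mulVec (e l).toAdd = N.mulVec (e l).toAdd) : M = N := by
  apply Matrix.mulVec_injective
  funext z
  have h1 := h (e.symm (Multiplicative.ofAdd z))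
  rw [e.apply_symm_apply] at h1
  exact h1

include e in
lemma comm_L (a b : Λ) : a * b = b * a := by
  apply e.injective
  rw [map_mul, map_mul, mul_comm]

end

end Aff

open Aff

theorem t_aff (hmat : S_mat.{u}) : S_aff.{u} := by
  intro Γ X _ _ _ _ _ Λ k e φ F A G H x0 hN hfi hφ hF hA hAe hG hpt hHc hHe hHF hco γ₀
  have hN' : Λ.Normal := hN
  have hfi' : Λ.FiniteIndex := hfi
  -- the matrices
  have hch : ∀ γ : Γ, ∃ R : Matrix (Fin k) (Fin k) ℤ, IsUnit R.det ∧
      ∀ l : Λ, (e (MulAut.conjNormal γ l)).toAdd = R.mulVec (e l).toAdd := fun γ =>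
    hmat Λ k e (MulAut.conjNormal γ)
  choose R hRdet hR using hch
  have hR1 : ∀ l : Λ, R (l : Γ) = 1 := by
    intro l
    apply uniq e
    intro a
    rw [← hR, Matrix.one_mulVec]
    congr 2
    ext
    rw [MulAut.conjNormal_apply]
    have h := congrArg Subtype.val (comm_L e l a)
    simp only [Subgroup.coe_mul] at h
    rw [h]
    group
  have hRmul : ∀ γ γ' : Γ, R (γ * γ') = R γ * R γ' := by
    intro γ γ'
    apply uniq e
    intro a
    rw [← hR, ← Matrix.mulVec_mulVec, ← hR, ← hR, map_mul]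
    rfl
  have hRone : R 1 = 1 := by
    have := hR1 1
    simpa using this
  have hRpow : ∀ (γ : Γ) (m : ℕ), R (γ ^ m) = R γ ^ m := by
    intro γ m
    induction m with
    | zero => rw [pow_zero, pow_zero, hRone]
    | succ m ih => rw [pow_succ, hRmul, ih, pow_succ]
  have hRφ : ∀ γ : Γ, R (φ γ) * A = A * R γ := by
    intro γ
    apply uniq e
    intro l
    have hl : φ (l : Γ) ∈ Λ := (hφ l).1 l.2
    have hl2 : φ ((MulAut.conjNormal γ l : Λ) : Γ) ∈ Λ := (hφ _).1 (MulAut.conjNormal γ l).2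
    rw [← Matrix.mulVec_mulVec, ← hAe l hl, ← hR, ← Matrix.mulVec_mulVec, ← hR γ l,
      ← hAe (MulAut.conjNormal γ l) hl2]
    congr 2
    ext
    rw [MulAut.conjNormal_apply]
    change φ γ * φ (l : Γ) * (φ γ)⁻¹ = φ ((MulAut.conjNormal γ l : Λ) : Γ)
    rw [MulAut.conjNormal_apply]
    simp
  -- the defect
  obtain ⟨D, hD⟩ : ∃ D : Γ → X → Fin k → ℝ, ∀ γ x, D γ x =
      H (γ • x) - ((R γ).map (Int.cast : ℤ → ℝ)).mulVec (H x) := ⟨_, fun _ _ => rfl⟩
  have hsm : ∀ (γ : Γ) (l : Λ) (x : X), H (γ • (l • x)) =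
      H (γ • x) + ((R γ).map (Int.cast : ℤ → ℝ)).mulVec (vec (e l).toAdd) := by
    intro γ l x
    have h1 : γ • (l • x) = (MulAut.conjNormal γ l : Λ) • (γ • x) := by
      rw [Subgroup.smul_def, Subgroup.smul_def, MulAut.conjNormal_apply, smul_smul, smul_smul]
      congr 1
      group
    rw [h1, hHe, hR, vec_mulVec]
  have hDl : ∀ (γ : Γ) (l : Λ) (x : X), D γ (l • x) = D γ x := by
    intro γ l x
    rw [hD, hD, hsm, hHe, Matrix.mulVec_add]
    abel
  have hDmul : ∀ (γ : Γ) (l : Λ) (x : X), D (γ * (l : Γ)) x =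
      D γ x + ((R γ).map (Int.cast : ℤ → ℝ)).mulVec (vec (e l).toAdd) := by
    intro γ l x
    have h2 : R (γ * (l : Γ)) = R γ := by rw [hRmul, hR1, mul_one]
    rw [hD, hD, h2, mul_smul]
    have h3 := hsm γ l x
    rw [Subgroup.smul_def] at h3
    rw [h3]
    abel
  have hDdiff : ∀ (γ : Γ) (l : Λ) (x y : X), D (γ * (l : Γ)) x - D (γ * (l : Γ)) y =
      D γ x - D γ y := by
    intro γ l x y
    rw [hDmul, hDmul]
    abel
  have hDc : ∀ γ : Γ, Continuous (D γ) := by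
    intro γ
    have h1 : D γ = fun x => H (γ • x) - ((R γ).map (Int.cast : ℤ → ℝ)).mulVec (H x) := by
      funext x
      exact hD γ x
    rw [h1]
    have h2 : Continuous fun x : X => γ • x := (isometry_smul X γ).continuous
    exact (hHc.comp h2).sub (Continuous.matrix_mulVec continuous_const hHc)
  obtain ⟨a, ha⟩ := hco
  have hDb : ∀ γ : Γ, ∃ C : ℝ, ∀ x, ‖D γ x‖ ≤ C := by
    intro γ
    obtain ⟨C, hC⟩ := (isCompact_closedBall x0 a).exists_bound_of_continuousOn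
      (hDc γ).continuousOn
    refine ⟨C, fun x => ?_⟩
    obtain ⟨l, hl⟩ := ha x
    have h1 : D γ x = D γ (l⁻¹ • x) := (hDl γ l⁻¹ x).symm
    rw [h1]
    apply hC
    rw [Metric.mem_closedBall]
    have h2 : dist (l⁻¹ • x) x0 = dist x (l • x0) := by
      have h3 : dist ((l : Γ) • (l⁻¹ • x)) ((l : Γ) • x0) = dist (l⁻¹ • x) x0 :=
        dist_smul (l : Γ) _ _
      have h4 : (l : Γ) • (l⁻¹ • x) = x := smul_inv_smul l x
      rw [h4] at h3
      exact h3.symm
    rw [h2]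
    exact hl
  have hunif : ∃ B : ℝ, ∀ (γ : Γ) (x y : X), ‖D γ x - D γ y‖ ≤ B := by
    choose C hC using hDb
    have hfin : Finite (Γ ⧸ Λ) := inferInstance
    obtain ⟨B, hB⟩ := (Set.finite_range fun q : Γ ⧸ Λ => C q.out + C q.out).bddAbove
    refine ⟨B, fun γ x y => ?_⟩
    obtain ⟨l, hl⟩ : ∃ l : Λ, γ = (QuotientGroup.mk γ : Γ ⧸ Λ).out * (l : Γ) := by
      obtain ⟨l, hl⟩ := QuotientGroup.mk_out_eq_mul Λ γ
      refine ⟨l⁻¹, ?_⟩
      rw [hl]
      simp
    rw [hl, hDdiff]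
    have h1 := hB (Set.mem_range_self (QuotientGroup.mk γ : Γ ⧸ Λ))
    have h2 := hC (QuotientGroup.mk γ : Γ ⧸ Λ).out x
    have h3 := hC (QuotientGroup.mk γ : Γ ⧸ Λ).out y
    calc ‖D (QuotientGroup.mk γ : Γ ⧸ Λ).out x - D (QuotientGroup.mk γ : Γ ⧸ Λ).out y‖
        ≤ ‖D (QuotientGroup.mk γ : Γ ⧸ Λ).out x‖ + ‖D (QuotientGroup.mk γ : Γ ⧸ Λ).out y‖ :=
          norm_sub_le _ _
      _ ≤ C (QuotientGroup.mk γ : Γ ⧸ Λ).out + C (QuotientGroup.mk γ : Γ ⧸ Λ).out :=
          add_le_add h2 h3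
      _ ≤ B := h1
  obtain ⟨B, hB⟩ := hunif
  have hDF : ∀ (γ : Γ) (x : X), D (φ γ) (F x) = G (D γ x) := by
    intro γ x
    rw [hD, hD, ← hF, hHF, hHF, hG, hG, hG, Matrix.mulVec_sub, Matrix.mulVec_mulVec,
      Matrix.mulVec_mulVec, ← cast_mul, ← cast_mul, hRφ]
  have hGsub : ∀ u v : Fin k → ℝ, G (u - v) = G u - G v := by
    intro u v
    rw [hG, hG, hG, Matrix.mulVec_sub]
  have hGssub : ∀ u v : Fin k → ℝ, G.symm (u - v) = G.symm u - G.symm v := by
    intro u v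
    apply G.injective
    rw [hGsub, G.apply_symm_apply, G.apply_symm_apply, G.apply_symm_apply]
  have hDFs : ∀ (γ : Γ) (x : X), D (φ.symm γ) (F.symm x) = G.symm (D γ x) := by
    intro γ x
    apply G.injective
    rw [← hDF, G.apply_symm_apply, φ.apply_symm_apply, F.apply_symm_apply]
  have hforw : ∀ (n : ℕ) (γ : Γ) (x y : X), ‖G^[n] (D γ x - D γ y)‖ ≤ B := by
    intro n
    induction n with
    | zero =>
      intro γ x y
      exact hB γ x y
    | succ n ih =>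
      intro γ x y
      rw [Function.iterate_succ_apply, hGsub, ← hDF, ← hDF]
      exact ih _ _ _
  have hback : ∀ (n : ℕ) (γ : Γ) (x y : X), ‖G.symm^[n] (D γ x - D γ y)‖ ≤ B := by
    intro n
    induction n with
    | zero =>
      intro γ x y
      exact hB γ x y
    | succ n ih =>
      intro γ x y
      rw [Function.iterate_succ_apply, hGssub, ← hDFs, ← hDFs]
      exact ih _ _ _
  have hconst : ∀ (γ : Γ) (x y : X), D γ x = D γ y := by
    intro γ x y
    exact sub_eq_zero.1 (hpt _ B (fun n => hforw n γ x y) fun n => hback n γ x y)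
  refine ⟨R γ₀, D γ₀ x0, hRdet γ₀, ?_, fun x => ?_⟩
  · obtain ⟨m, hm, -, hmem⟩ := Subgroup.exists_pow_mem_of_index_ne_zero hfi'.index_ne_zero γ₀
    refine ⟨m, hm, ?_⟩
    rw [← hRpow]
    exact hR1 ⟨γ₀ ^ m, hmem⟩
  · rw [hconst γ₀ x0 x, hD]
    abel

end Pool.Agent.H827.RN
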