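import Pool.Agent.H827.RN.Defs5

/-!
# Elements centralised by a subgroup of finite index (helper747)
-/

set_option autoImplicit false

open Subgroup

universe u v

namespace Pool.Agent.H827.RN

namespace Cen

/-- A homomorphism of a commutative group as a linear map. -/
def lin {A : Type v} [CommGroup A] (f : A →* A) : Additive A →ₗ[ℤ] Additive A :=
  (MonoidHom.toAdditive f).toIntLinearMap

theorem lin_apply {A : Type v} [CommGroup A] (f : A →* A) (x : Additive A) :
    lin f x = Additive.ofMul (f (Additive.toMul x)) := rfl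

/-- Abstract form: a finitely generated torsion-free commutative group `A ≠ 1` with an action of `G`
and an automorphism compatible with `φ`. -/
theorem abs (hw : S_w.{u}) {G : Type u} [Group G] [Group.FG G] (φ : G ≃* G) (B : Subgroup G)
    [B.Normal] (hnil : Group.IsNilpotent (G ⧸ B)) (htame : Tame φ) {A : Type v} [CommGroup A]
    (hfg : Group.FG A) (hTF : ∀ (x : A) (m : ℕ), 0 < m → x ^ m = 1 → x = 1) (hne : ∃ a : A, a ≠ 1)
    (α : G → (A →* A)) (α1 : ∀ x, α 1 x = x) (αm : ∀ g h x, α (g * h) x = α g (α h x))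
    (f f' : A →* A) (hff : ∀ x, f (f' x) = x) (hα : ∀ h x, α (φ h) (f x) = f (α h x))
    (hB : ∀ k ∈ B, ∀ x, α k x = x) :
    ∃ (H' : Subgroup G) (a : A), H'.FiniteIndex ∧ a ≠ 1 ∧ ∀ h ∈ H', α h a = a := by
  have hfin : Module.Finite ℤ (Additive A) := by
    rw [Module.Finite.iff_addGroup_fg]
    rw [AddGroup.fg_iff_addMonoid_fg, ← Monoid.fg_iff_add_fg, ← Group.fg_iff_monoid_fg]
    exact hfg
  have htf : Module.IsTorsionFree ℤ (Additive A) := by
    apply Module.IsTorsionFree.of_smul_eq_zero
    intro r m hrm
    by_cases hr : r = 0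
    · exact Or.inl hr
    · right
      have h1 : (r.natAbs : ℤ) • m = 0 := by
        rcases Int.natAbs_eq r with h | h
        · rw [← h]
          exact hrm
        · have h2 : (r.natAbs : ℤ) = -r := by omega
          rw [h2, neg_smul, hrm, neg_zero]
      have h3 : (r.natAbs : ℕ) • m = 0 := by
        rw [← natCast_zsmul]
        exact h1
      have h4 : (Additive.toMul m) ^ r.natAbs = 1 := by
        rw [← toMul_nsmul, h3, toMul_zero]
      have h5 := hTF (Additive.toMul m) r.natAbs (Int.natAbs_pos.mpr hr) h4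
      exact h5
  have hfree : Module.Free ℤ (Additive A) := Module.free_of_finite_type_torsion_free'
  obtain ⟨r, hr⟩ : ∃ r : ℕ, r = Module.finrank ℤ (Additive A) := ⟨_, rfl⟩
  obtain ⟨bs⟩ : Nonempty (Module.Basis (Fin r) ℤ (Additive A)) := by
    rw [hr]
    exact ⟨Module.finBasis ℤ (Additive A)⟩
  have hr1 : 1 ≤ r := by
    by_contra h
    have h0 : r = 0 := by omega
    obtain ⟨a, ha⟩ := hne
    apply ha
    subst h0
    have h1 : bs.repr (Additive.ofMul a) = bs.repr 0 := by
      ext i
      exact i.elim0
    exact bs.repr.injective h1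
  have hmul : ∀ g h : A →* A, ∀ k : A →* A, (∀ x, k x = g (h x)) →
      LinearMap.toMatrix bs bs (lin k) =
        LinearMap.toMatrix bs bs (lin g) * LinearMap.toMatrix bs bs (lin h) := by
    intro g h k hk
    rw [← LinearMap.toMatrix_mul]
    congr 1
    apply LinearMap.ext
    intro x
    rw [lin_apply, hk]
    rfl
  have hone : ∀ k : A →* A, (∀ x, k x = x) → LinearMap.toMatrix bs bs (lin k) = 1 := by
    intro k hk
    rw [← LinearMap.toMatrix_one bs]
    congr 1
    apply LinearMap.ext
    intro x
    rw [lin_apply, hk]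
    rfl
  let ρ : G →* Matrix (Fin r) (Fin r) ℤ :=
    { toFun := fun h => LinearMap.toMatrix bs bs (lin (α h))
      map_one' := hone _ α1
      map_mul' := fun g h => hmul _ _ _ (αm g h) }
  obtain ⟨H', z, hH', hz, hfix⟩ := hw G B r ρ φ (LinearMap.toMatrix bs bs (lin f))
    (LinearMap.toMatrix bs bs (lin f')) hr1 hnil (fun k hk => hone _ (hB k hk))
    (by
      rw [← hmul f f' (MonoidHom.id A) (fun x => (hff x).symm)]
      exact hone _ fun x => rfl)
    (by
      intro h
      show LinearMap.toMatrix bs bs (lin (α (φ h))) * LinearMap.toMatrix bs bs (lin f) =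
        LinearMap.toMatrix bs bs (lin f) * LinearMap.toMatrix bs bs (lin (α h))
      rw [← hmul (α (φ h)) f ((α (φ h)).comp f) (fun x => rfl),
        ← hmul f (α h) ((α (φ h)).comp f) (fun x => hα h x)])
    htame
  obtain ⟨x, hx⟩ : ∃ x : Additive A, ⇑(bs.repr x) = z := by
    refine ⟨bs.equivFun.symm z, ?_⟩
    have h1 := bs.equivFun.apply_symm_apply z
    exact h1
  refine ⟨H', Additive.toMul x, hH', ?_, ?_⟩
  · intro h0
    apply hz
    have h1 : x = 0 := h0
    rw [← hx, h1, map_zero]
    rfl
  · intro h hh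
    have h1 : (LinearMap.toMatrix bs bs (lin (α h))).mulVec z = z := hfix h hh
    rw [← hx, LinearMap.toMatrix_mulVec_repr] at h1
    have h2 : bs.repr (lin (α h) x) = bs.repr x := DFunLike.coe_injective h1
    exact bs.repr.injective h2

/-- The restriction of an endomorphism to the subgroup of `m`-th powers. -/
def rs {A : Type v} [CommGroup A] (m : ℕ) (f : A →* A) :
    (powMonoidHom m : A →* A).range →* (powMonoidHom m : A →* A).range :=
  (f.comp (powMonoidHom m : A →* A).range.subtype).codRestrict _ (by
    rintro ⟨_, b, rfl⟩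
    exact ⟨f b, (map_pow f b m).symm⟩)

theorem rs_coe {A : Type v} [CommGroup A] (m : ℕ) (f : A →* A)
    (a : (powMonoidHom m : A →* A).range) : ((rs m f a : (powMonoidHom m : A →* A).range) : A) =
      f a := rfl

end Cen

theorem t_cen (hw : S_w.{u}) : S_cen.{u} := by
  intro G _ φ B _ hall hcomm hφB hnil htame hinf
  have hGfg : Group.FG G := Group.fg_def.mpr (hall ⊤)
  let iB : CommGroup B := { B.toGroup with mul_comm := fun x y => Subtype.ext (hcomm x x.2 y y.2) }
  have hfgsub : ∀ (S : Subgroup B), Group.FG S := by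
    intro S
    have h1 : Group.FG (S.map B.subtype) := (Group.fg_iff_subgroup_fg _).mpr (hall _)
    exact Group.fg_of_surjective (f := (S.equivMapOfInjective B.subtype
      B.subtype_injective).symm.toMonoidHom) (MulEquiv.surjective _)
  have hBfg : Group.FG B := (Group.fg_iff_subgroup_fg _).mpr (hall B)
  -- the torsion subgroup of `B` is finite
  have hTfg : Group.FG (CommGroup.torsion B) := hfgsub _
  have hTfin : Finite (CommGroup.torsion B) :=
    CommGroup.finite_of_fg_isMulTorsion _ (fun t => by
      obtain ⟨k, hk, h1⟩ := isOfFinOrder_iff_pow_eq_one.mp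
        (show IsOfFinOrder (t : B) from t.2)
      exact isOfFinOrder_iff_pow_eq_one.mpr ⟨k, hk, Subtype.ext h1⟩)
  obtain ⟨m, hm⟩ : ∃ m : ℕ, m = Nat.card (CommGroup.torsion B) := ⟨_, rfl⟩
  have hm0 : 0 < m := by
    rw [hm]
    exact Nat.card_pos
  have htor : ∀ (b : B) (k : ℕ), 0 < k → b ^ k = 1 → b ^ m = 1 := by
    intro b k hk hbk
    have h1 : b ∈ CommGroup.torsion B := isOfFinOrder_iff_pow_eq_one.mpr ⟨k, hk, hbk⟩
    have h2 : (⟨b, h1⟩ : CommGroup.torsion B) ^ Nat.card (CommGroup.torsion B) = 1 :=
      pow_card_eq_one'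
    rw [← hm] at h2
    exact congrArg Subtype.val h2
  have hTF : ∀ (x : (powMonoidHom m : B →* B).range) (k : ℕ), 0 < k → x ^ k = 1 → x = 1 := by
    rintro ⟨_, b, rfl⟩ k hk hx
    have h1 : (b ^ m) ^ k = 1 := congrArg Subtype.val hx
    apply Subtype.ext
    show b ^ m = 1
    rw [← pow_mul] at h1
    exact htor b (m * k) (Nat.mul_pos hm0 hk) h1
  have hne : ∃ a : (powMonoidHom m : B →* B).range, a ≠ 1 := by
    by_contra hcon
    push Not at hcon
    have h1 : ∀ b : B, b ^ m = 1 := fun b =>
      congrArg Subtype.val (hcon ⟨b ^ m, b, rfl⟩)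
    have h2 : Finite B := CommGroup.finite_of_fg_isMulTorsion B
      (fun b => isOfFinOrder_iff_pow_eq_one.mpr ⟨m, hm0, h1 b⟩)
    exact not_finite B
  let φB : B →* B := (φ.toMonoidHom.comp B.subtype).codRestrict B fun x => (hφB x).mp x.2
  let φB' : B →* B := (φ.symm.toMonoidHom.comp B.subtype).codRestrict B fun x =>
    (hφB _).mpr (by
      show φ (φ.symm (x : G)) ∈ B
      rw [φ.apply_symm_apply]
      exact x.2)
  obtain ⟨H', a, hH', ha, hfix⟩ := Cen.abs hw φ B hnil htame (hfgsub _) hTF hne
    (fun g => Cen.rs m (MulAut.conjNormal g : MulAut B).toMonoidHom)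
    (by
      intro x
      apply Subtype.ext
      apply Subtype.ext
      rw [Cen.rs_coe]
      show ((MulAut.conjNormal (1 : G) (x : B) : B) : G) = _
      rw [MulAut.conjNormal_apply, one_mul, inv_one, mul_one])
    (by
      intro g h x
      apply Subtype.ext
      apply Subtype.ext
      show ((MulAut.conjNormal (g * h) (x : B) : B) : G) =
        ((MulAut.conjNormal g (MulAut.conjNormal h (x : B)) : B) : G)
      rw [MulAut.conjNormal_apply, MulAut.conjNormal_apply, MulAut.conjNormal_apply]
      group)
    (Cen.rs m φB) (Cen.rs m φB')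
    (by
      intro x
      apply Subtype.ext
      apply Subtype.ext
      show φ (φ.symm (((x : B) : G))) = _
      rw [φ.apply_symm_apply])
    (by
      intro h x
      apply Subtype.ext
      apply Subtype.ext
      show ((MulAut.conjNormal (φ h) (φB (x : B)) : B) : G) =
        φ ((MulAut.conjNormal h (x : B) : B) : G)
      rw [MulAut.conjNormal_apply, MulAut.conjNormal_apply, map_mul, map_mul, map_inv]
      rfl)
    (by
      intro k hk x
      apply Subtype.ext
      apply Subtype.ext
      show ((MulAut.conjNormal k (x : B) : B) : G) = _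
      rw [MulAut.conjNormal_apply, hcomm k hk _ (x : B).2, mul_inv_cancel_right])
  refine ⟨H', ((a : B) : G), hH', (a : B).2, ?_, ?_⟩
  · intro k hk h1
    apply ha
    apply hTF a k hk
    apply Subtype.ext
    apply Subtype.ext
    exact h1
  · intro h hh
    have h1 := hfix h hh
    have h2 : ((MulAut.conjNormal h (a : B) : B) : G) = ((a : B) : G) :=
      congrArg (fun t : (powMonoidHom m : B →* B).range => ((t : B) : G)) h1
    rw [MulAut.conjNormal_apply] at h2
    exact h2

end Pool.Agent.H827.RN
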