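import Pool.Agent.H827.RN.Defs

/-!
# The isolated lower central series (helper297 for project RN)
-/

set_option autoImplicit false

open Subgroup
open scoped commutatorElement

universe u

namespace Pool.Agent.H827.RN

namespace Chain

variable {G : Type u} [Group G]

theorem I_normal (k : ℕ) : (I G k).Normal := by
  refine ⟨fun x hx g => ?_⟩
  rw [I, Subgroup.mem_sInf] at hx ⊢
  intro N hN
  exact hN.1.conj_mem x (hx N hN) g

theorem I_isol (k : ℕ) : Isol (I G k) := by
  intro x m hm hx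
  rw [I, Subgroup.mem_sInf] at hx ⊢
  exact fun N hN => hN.2.1 x m hm (hx N hN)

theorem L_le_I (k : ℕ) : L G k ≤ I G k := le_sInf fun _ hN => hN.2.2

theorem I_le {k : ℕ} {N : Subgroup G} (h1 : N.Normal) (h2 : Isol N) (h3 : L G k ≤ N) :
    I G k ≤ N := sInf_le ⟨h1, h2, h3⟩

theorem L_normal (k : ℕ) : (L G k).Normal := by
  unfold L
  infer_instance

theorem map_L {H : Type u} [Group H] (f : G →* H) (k : ℕ) : (L G k).map f ≤ L H k := by
  unfold L
  rw [Subgroup.map_lowerCentralSeries]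
  exact Subgroup.lowerCentralSeries_mono k le_top

theorem L_quot (N : Subgroup G) [N.Normal] (k : ℕ) (h : L G k ≤ N) : L (G ⧸ N) k = ⊥ := by
  have h1 : (L G k).map (QuotientGroup.mk' N) = L (G ⧸ N) k := by
    unfold L
    rw [Subgroup.map_lowerCentralSeries, Subgroup.map_top_of_surjective _
      (QuotientGroup.mk'_surjective N)]
  rw [← h1, eq_bot_iff]
  rintro _ ⟨x, hx, rfl⟩
  rw [Subgroup.mem_bot, QuotientGroup.mk'_apply, QuotientGroup.eq_one_iff]
  exact h hx

theorem le_of_quot (N : Subgroup G) [N.Normal] (k : ℕ) (h : L (G ⧸ N) k = ⊥) : L G k ≤ N := by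
  intro x hx
  have h1 := map_L (QuotientGroup.mk' N) k ⟨x, hx, rfl⟩
  rw [h, Subgroup.mem_bot, QuotientGroup.mk'_apply, QuotientGroup.eq_one_iff] at h1
  exact h1

theorem TF_quot (N : Subgroup G) [N.Normal] (h : Isol N) : TF (G ⧸ N) := by
  intro y m hm hy
  obtain ⟨x, rfl⟩ := QuotientGroup.mk'_surjective N y
  rw [← map_pow, QuotientGroup.mk'_apply, QuotientGroup.eq_one_iff] at hy
  rw [QuotientGroup.mk'_apply, QuotientGroup.eq_one_iff]
  exact h x m hm hy

theorem Isol_of_TF (N : Subgroup G) [N.Normal] (h : TF (G ⧸ N)) : Isol N := by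
  intro x m hm hx
  have h1 := h (QuotientGroup.mk' N x) m hm (by
    rw [← map_pow, QuotientGroup.mk'_apply, QuotientGroup.eq_one_iff]
    exact hx)
  rwa [QuotientGroup.mk'_apply, QuotientGroup.eq_one_iff] at h1

/-- elements with a power in `L k ⊔ I (k+1)` are central modulo `I (k+1)` -/
theorem central (k : ℕ) (x : G) (m : ℕ) (hm : 0 < m) (hx : x ^ m ∈ L G k ⊔ I G (k + 1))
    (g : G) : g * x * g⁻¹ * x⁻¹ ∈ I G (k + 1) := by
  have := I_normal (G := G) (k + 1)
  have hnil : Group.IsNilpotent (G ⧸ I G (k + 1)) :=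
    Subgroup.nilpotent_iff_lowerCentralSeries.2 ⟨k + 1, L_quot _ (k + 1) (L_le_I (k + 1))⟩
  have htf := TF_quot (I G (k + 1)) (I_isol (k + 1))
  have hle : L G k ⊔ I G (k + 1) ≤
      (Subgroup.center (G ⧸ I G (k + 1))).comap (QuotientGroup.mk' (I G (k + 1))) := by
    refine sup_le ?_ ?_
    · intro a ha
      rw [Subgroup.mem_comap, Subgroup.mem_center_iff]
      intro y
      obtain ⟨b, rfl⟩ := QuotientGroup.mk'_surjective _ y
      have h1 : ⁅a, b⁆ ∈ I G (k + 1) :=
        L_le_I (k + 1) (Subgroup.commutator_mem_commutator ha (Subgroup.mem_top b))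
      have h2 : QuotientGroup.mk' (I G (k + 1)) ⁅a, b⁆ = 1 := by
        rw [QuotientGroup.mk'_apply, QuotientGroup.eq_one_iff]
        exact h1
      rw [map_commutatorElement, commutatorElement_eq_one_iff_mul_comm] at h2
      exact h2.symm
    · intro a ha
      have h2 : QuotientGroup.mk' (I G (k + 1)) a = 1 := by
        rw [QuotientGroup.mk'_apply, QuotientGroup.eq_one_iff]
        exact ha
      rw [Subgroup.mem_comap, h2]
      exact Subgroup.one_mem _
  have h3 : (QuotientGroup.mk' (I G (k + 1)) x) ^ m ∈ Subgroup.center (G ⧸ I G (k + 1)) := by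
    rw [← map_pow]
    exact hle hx
  have h4 := Pool.Agent.Helper111.EN.center_root m (fun y hy => htf y m hm hy) _ h3
  have h5 := Subgroup.mem_center_iff.1 h4 (QuotientGroup.mk' (I G (k + 1)) g)
  have h6 : QuotientGroup.mk' (I G (k + 1)) (g * x * g⁻¹ * x⁻¹) = 1 := by
    rw [map_mul, map_mul, map_mul, map_inv, map_inv, h5, mul_inv_cancel_right, mul_inv_cancel]
  rwa [QuotientGroup.mk'_apply, QuotientGroup.eq_one_iff] at h6

/-- the elements with a power in `L k ⊔ I (k+1)` -/
def NN (G : Type u) [Group G] (k : ℕ) : Subgroup G where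
  carrier := {x | ∃ m : ℕ, 0 < m ∧ x ^ m ∈ L G k ⊔ I G (k + 1)}
  one_mem' := ⟨1, one_pos, by rw [one_pow]; exact Subgroup.one_mem _⟩
  mul_mem' := by
    rintro x y ⟨m, hm, hx⟩ ⟨n, hn, hy⟩
    refine ⟨m * n, Nat.mul_pos hm hn, ?_⟩
    have := I_normal (G := G) (k + 1)
    have hc : Commute (QuotientGroup.mk' (I G (k + 1)) x) (QuotientGroup.mk' (I G (k + 1)) y) := by
      have h1 : QuotientGroup.mk' (I G (k + 1)) (y * x * y⁻¹ * x⁻¹) = 1 := by
        rw [QuotientGroup.mk'_apply, QuotientGroup.eq_one_iff]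
        exact central k x m hm hx y
      rw [map_mul, map_mul, map_mul, map_inv, map_inv, mul_inv_eq_one, mul_inv_eq_iff_eq_mul] at h1
      exact h1.symm
    have h2 : QuotientGroup.mk' (I G (k + 1)) ((x ^ (m * n) * y ^ (m * n))⁻¹ *
        (x * y) ^ (m * n)) = 1 := by
      rw [map_mul, map_inv, map_mul, map_pow, map_pow, map_pow, map_mul, hc.mul_pow,
        inv_mul_cancel]
    rw [QuotientGroup.mk'_apply, QuotientGroup.eq_one_iff] at h2
    have h3 : x ^ (m * n) ∈ L G k ⊔ I G (k + 1) := by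
      rw [pow_mul]
      exact Subgroup.pow_mem _ hx n
    have h4 : y ^ (m * n) ∈ L G k ⊔ I G (k + 1) := by
      rw [mul_comm, pow_mul]
      exact Subgroup.pow_mem _ hy m
    have h5 := Subgroup.mul_mem _ (Subgroup.mul_mem _ h3 h4)
      ((le_sup_right : I G (k + 1) ≤ L G k ⊔ I G (k + 1)) h2)
    rwa [mul_inv_cancel_left] at h5
  inv_mem' := by
    rintro x ⟨m, hm, hx⟩
    refine ⟨m, hm, ?_⟩
    rw [inv_pow]
    exact Subgroup.inv_mem _ hx

theorem NN_normal (k : ℕ) : (NN G k).Normal := by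
  refine ⟨?_⟩
  rintro x ⟨m, hm, hx⟩ g
  refine ⟨m, hm, ?_⟩
  rw [conj_pow]
  have := I_normal (G := G) (k + 1)
  have := L_normal (G := G) k
  exact (inferInstance : (L G k ⊔ I G (k + 1)).Normal).conj_mem _ hx g

theorem NN_isol (k : ℕ) : Isol (NN G k) := by
  rintro x j hj ⟨m, hm, hx⟩
  refine ⟨j * m, Nat.mul_pos hj hm, ?_⟩
  rw [pow_mul]
  exact hx

theorem L_le_NN (k : ℕ) : L G k ≤ NN G k := fun x hx =>
  ⟨1, one_pos, by rw [pow_one]; exact (le_sup_left : L G k ≤ L G k ⊔ I G (k + 1)) hx⟩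

end Chain

open Chain in
/-- TASK chain. -/
theorem t_chain : S_chain.{u} := by
  intro G _
  refine ⟨?_, fun k => ⟨I_normal k, I_isol k, L_le_I k⟩, ?_, ?_, ?_, ?_⟩
  · rw [eq_top_iff]
    exact L_le_I (G := G) 0
  · intro k
    exact I_le (I_normal k) (I_isol k)
      ((Subgroup.lowerCentralSeries_antitone (⊤ : Subgroup G) (Nat.le_succ k)).trans (L_le_I k))
  · intro θ k x hx
    have h1 : I G k ≤ (I G k).comap θ := by
      refine I_le ((I_normal k).comap θ) ?_ (Subgroup.map_le_iff_le_comap.1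
        ((map_L θ k).trans (L_le_I k)))
      intro y m hm hy
      rw [Subgroup.mem_comap] at hy ⊢
      rw [map_pow] at hy
      exact I_isol k _ m hm hy
    exact h1 hx
  · intro k x hx
    obtain ⟨m, hm, hxm⟩ := I_le (NN_normal k) (NN_isol k) (L_le_NN k) hx
    exact ⟨central k x m hm hxm, m, hm, hxm⟩
  · intro hR g hg
    by_contra hne
    obtain ⟨N, hN, hnil, htf, hgN⟩ := hR g hne
    obtain ⟨k, hk⟩ := Subgroup.nilpotent_iff_lowerCentralSeries.1 hnil
    exact hgN (I_le hN (Isol_of_TF N htf) (le_of_quot N k hk) (hg k))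

end Pool.Agent.H827.RN
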