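import Pool.Agent.H827.RN.Defs

/-!
# Assembly: finitely many twisted classes and residually torsion-free nilpotent groups
-/

set_option autoImplicit false

open Subgroup

universe u v

namespace Pool.Agent.H827.RN

/-- the endomorphism induced on `G ⧸ I G k` -/
def qm {G : Type u} [Group G] (θ : G →* G) (N : Subgroup G) [N.Normal] (h : N ≤ N.comap θ) :
    G ⧸ N →* G ⧸ N := QuotientGroup.map N N θ h

theorem qm_mk {G : Type u} [Group G] (θ : G →* G) (N : Subgroup G) [N.Normal]
    (h : N ≤ N.comap θ) (x : G) :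
    qm θ N h (QuotientGroup.mk' N x) = QuotientGroup.mk' N (θ x) := rfl

theorem tf_quot {G : Type u} [Group G] (N : Subgroup G) [N.Normal] (h : Isol N) : TF (G ⧸ N) := by
  intro x m hm hx
  obtain ⟨g, rfl⟩ := QuotientGroup.mk'_surjective N x
  rw [← map_pow, ← MonoidHom.mem_ker, QuotientGroup.ker_mk'] at hx
  rw [← MonoidHom.mem_ker, QuotientGroup.ker_mk']
  exact h g m hm hx

theorem L_map {G : Type u} {H : Type u} [Group G] [Group H] (π : G →* H)
    (hπ : Function.Surjective π) (k : ℕ) : (L G k).map π = L H k := by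
  rw [L, Subgroup.map_lowerCentralSeries, Subgroup.map_top_of_surjective _ hπ, L]

theorem PC_map {G : Type u} {H : Type u} [Group G] [Group H] (π : G →* H) (p : ℕ) :
    (PC G p).map π ≤ PC H p := by
  rw [PC, PC, Subgroup.map_sup]
  refine sup_le_sup ?_ ?_
  · rw [MonoidHom.map_closure]
    refine Subgroup.closure_mono ?_
    rintro _ ⟨_, ⟨w, rfl⟩, rfl⟩
    exact ⟨π w, (map_pow π w p).symm⟩
  · rw [commutator_def, commutator_def, Subgroup.map_commutator]
    exact Subgroup.commutator_mono le_top le_top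

/-- classes of a quotient -/
theorem cls_quot {G : Type u} {H : Type u} [Group G] [Group H] (π : G →* H)
    (hπ : Function.Surjective π) (θ : G →* G) (θ' : H →* H) (hc : ∀ x, π (θ x) = θ' (π x))
    [hf : Finite (Quot (Tw θ))] :
    Finite (Quot (Tw θ')) ∧ Nat.card (Quot (Tw θ')) ≤ Nat.card (Quot (Tw θ)) := by
  let F : Quot (Tw θ) → Quot (Tw θ') := Quot.lift (fun x => Quot.mk _ (π x)) (by
    rintro x y ⟨g, rfl⟩
    exact Quot.sound ⟨π g, by rw [map_mul, map_mul, map_inv, hc]⟩)
  have hF : Function.Surjective F := by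
    intro q
    obtain ⟨y, rfl⟩ := Quot.exists_rep q
    obtain ⟨x, rfl⟩ := hπ y
    exact ⟨Quot.mk _ x, rfl⟩
  exact ⟨Finite.of_surjective F hF, Nat.card_le_card_of_surjective F hF⟩

theorem core (hcount : S_count.{u}) (hstab : S_stab.{u}) (hnon : S_nonsurj.{u})
    (hlcs : S_lcs.{u}) (hchain : S_chain.{u})
    (G : Type u) [Group G] [Group.FG G] (θ : G →* G) (p : ℕ) (hp : 2 ≤ p)
    (hθ : ∀ x : G, x⁻¹ * θ x ∈ PC G p) [hfin : Finite (Quot (Tw θ))] :
    ∃ c : ℕ, (∀ k, c ≤ k → I G k = I G c) ∧ 2 ^ c ≤ Nat.card (Quot (Tw θ)) := by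
  obtain ⟨hI0, hI, hIanti, hIθ, hIc, hIR⟩ := hchain G
  have hN : ∀ k, (I G k).Normal := fun k => (hI k).1
  have hcomap : ∀ k, I G k ≤ (I G k).comap θ := fun k x hx => hIθ θ k x hx
  -- the quotients
  have hfg : ∀ k, Group.FG (G ⧸ I G k) := fun k => inferInstance
  have hTF : ∀ k, TF (G ⧸ I G k) := fun k => tf_quot _ (hI k).2.1
  have hL : ∀ k, L (G ⧸ I G k) k = ⊥ := by
    intro k
    rw [← L_map (QuotientGroup.mk' (I G k)) (QuotientGroup.mk'_surjective _), eq_bot_iff]
    rintro _ ⟨x, hx, rfl⟩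
    rw [Subgroup.mem_bot, ← MonoidHom.mem_ker, QuotientGroup.ker_mk']
    exact (hI k).2.2 hx
  have hnil : ∀ k, Group.IsNilpotent (G ⧸ I G k) := fun k =>
    Subgroup.nilpotent_iff_lowerCentralSeries.2 ⟨k, hL k⟩
  -- the projections
  have hle : ∀ k, I G (k + 1) ≤ (I G k).comap (MonoidHom.id G) := fun k => hIanti k
  set π : ∀ k, G ⧸ I G (k + 1) →* G ⧸ I G k := fun k =>
    QuotientGroup.map (I G (k + 1)) (I G k) (MonoidHom.id G) (hle k) with hπdef
  have hπmk : ∀ k (x : G), π k (QuotientGroup.mk' (I G (k + 1)) x) =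
      QuotientGroup.mk' (I G k) x := fun k x => rfl
  have hπs : ∀ k, Function.Surjective (π k) := by
    intro k q
    obtain ⟨x, rfl⟩ := QuotientGroup.mk'_surjective (I G k) q
    exact ⟨QuotientGroup.mk' _ x, rfl⟩
  have hπker : ∀ k (x : G), π k (QuotientGroup.mk' (I G (k + 1)) x) = 1 ↔ x ∈ I G k := by
    intro k x
    rw [hπmk, ← MonoidHom.mem_ker, QuotientGroup.ker_mk']
  have hπc : ∀ k (q : G ⧸ I G (k + 1)), π k q = 1 → q ∈ Subgroup.center (G ⧸ I G (k + 1)) := by
    intro k q hq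
    obtain ⟨x, rfl⟩ := QuotientGroup.mk'_surjective (I G (k + 1)) q
    rw [hπker] at hq
    rw [Subgroup.mem_center_iff]
    intro r
    obtain ⟨g, rfl⟩ := QuotientGroup.mk'_surjective (I G (k + 1)) r
    have h1 := (hIc k x hq).1 g
    rw [← QuotientGroup.ker_mk' (I G (k + 1)), MonoidHom.mem_ker] at h1
    simp only [map_mul, map_inv] at h1
    rw [mul_inv_eq_one, mul_inv_eq_iff_eq_mul] at h1
    exact h1
  -- the induced maps
  set θk : ∀ k, G ⧸ I G k →* G ⧸ I G k := fun k => qm θ (I G k) (hcomap k) with hθk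
  have hθmk : ∀ k (x : G), θk k (QuotientGroup.mk' (I G k) x) = QuotientGroup.mk' (I G k) (θ x) :=
    fun k x => rfl
  have hcomm : ∀ k q, π k (θk (k + 1) q) = θk k (π k q) := by
    intro k q
    obtain ⟨x, rfl⟩ := QuotientGroup.mk'_surjective (I G (k + 1)) q
    rfl
  have hPCk : ∀ k (q : G ⧸ I G k), q⁻¹ * θk k q ∈ PC (G ⧸ I G k) p := by
    intro k q
    obtain ⟨x, rfl⟩ := QuotientGroup.mk'_surjective (I G k) q
    rw [hθmk, ← map_inv, ← map_mul]
    exact PC_map (QuotientGroup.mk' (I G k)) p ⟨_, hθ x, rfl⟩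
  have hfink : ∀ k, Finite (Quot (Tw (θk k))) ∧
      Nat.card (Quot (Tw (θk k))) ≤ Nat.card (Quot (Tw θ)) := fun k =>
    cls_quot (QuotientGroup.mk' (I G k)) (QuotientGroup.mk'_surjective _) θ (θk k) (fun x => rfl)
  have hNS : ∀ k (H : Subgroup (G ⧸ I G k)), H.FG := by
    intro k H
    have h := Pool.Agent.Helper111.EN.NSc.NS_of_nilpotent_fg (⊤ : Subgroup (G ⧸ I G k))
      (Group.isNilpotent_top.2 (hnil k)) (hfg k).out
    exact h H le_top
  -- trivial stabilisers
  have hns : ∀ k, NoStab (θk k) := by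
    intro k
    induction k with
    | zero =>
      intro x g _
      obtain ⟨a, rfl⟩ := QuotientGroup.mk'_surjective (I G 0) g
      rw [← MonoidHom.mem_ker, QuotientGroup.ker_mk', hI0]
      exact Subgroup.mem_top a
    | succ k ih =>
      have hf := (hfink (k + 1)).1
      have h1 := hcount _ _ (π k) (θk (k + 1)) (θk k) (hπs k) (hcomm k) (hπc k) ih hf
      exact hstab _ _ (π k) (θk (k + 1)) (θk k) (hcomm k) (hπc k) ih (hNS _ _) (hTF _)
        h1.2.2.2
  have hmono : ∀ k, Nat.card (Quot (Tw (θk k))) ≤ Nat.card (Quot (Tw (θk (k + 1)))) := by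
    intro k
    have hf := (hfink (k + 1)).1
    exact (hcount _ _ (π k) (θk (k + 1)) (θk k) (hπs k) (hcomm k) (hπc k) (hns k) hf).2.1
  have hstrict : ∀ k, I G (k + 1) ≠ I G k →
      2 * Nat.card (Quot (Tw (θk k))) ≤ Nat.card (Quot (Tw (θk (k + 1)))) := by
    intro k hk
    have hf := (hfink (k + 1)).1
    refine (hcount _ _ (π k) (θk (k + 1)) (θk k) (hπs k) (hcomm k) (hπc k) (hns k) hf).2.2.1 ?_
    -- an element of `I k` not in `I (k+1)`
    obtain ⟨x, hx, hx'⟩ : ∃ x, x ∈ I G k ∧ x ∉ I G (k + 1) := by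
      by_contra hcon
      push Not at hcon
      exact hk (le_antisymm (hIanti k) (fun x hx => hcon x hx))
    obtain ⟨m, hm, hxm⟩ := (hIc k x hx).2
    have hB : L (G ⧸ I G (k + 1)) k ≠ ⊥ := by
      intro hbot
      have h1 : QuotientGroup.mk' (I G (k + 1)) (x ^ m) ∈
          (L G k ⊔ I G (k + 1)).map (QuotientGroup.mk' (I G (k + 1))) := ⟨_, hxm, rfl⟩
      rw [Subgroup.map_sup, QuotientGroup.map_mk'_self, sup_bot_eq,
        L_map (QuotientGroup.mk' (I G (k + 1))) (QuotientGroup.mk'_surjective _), hbot,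
        Subgroup.mem_bot, ← MonoidHom.mem_ker, QuotientGroup.ker_mk'] at h1
      exact hx' ((hI (k + 1)).2.1 x m hm h1)
    have hBK : L (G ⧸ I G (k + 1)) k ≤ (π k).ker := by
      rw [← L_map (QuotientGroup.mk' (I G (k + 1))) (QuotientGroup.mk'_surjective _)]
      rintro _ ⟨y, hy, rfl⟩
      rw [MonoidHom.mem_ker, hπker]
      exact (hI k).2.2 hy
    obtain ⟨k₀, hk₀, hk₀'⟩ := hnon (G ⧸ I G (k + 1)) (θk (k + 1)) (π k).ker
      (L (G ⧸ I G (k + 1)) k) p hp (fun q hq => hπc k q hq) (hNS _ _) (hTF _) hBK hB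
      (hlcs (G ⧸ I G (k + 1)) (θk (k + 1)) p (hPCk (k + 1)) k (hL (k + 1)))
      (fun q hq => by
        rw [MonoidHom.mem_ker] at hq ⊢
        rw [hcomm, hq, map_one])
    exact ⟨k₀, hk₀, fun g hg => hk₀' g hg⟩
  -- a repetition in the series is the end of the series
  have hrep : ∀ k, I G (k + 1) = I G k → I G (k + 2) = I G (k + 1) := by
    intro k hk
    refine le_antisymm (hIanti (k + 1)) ?_
    refine sInf_le ⟨hN (k + 2), (hI (k + 2)).2.1, ?_⟩
    have h1 : L G (k + 1) = ⁅L G k, (⊤ : Subgroup G)⁆ := by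
      rw [L, L, Subgroup.lowerCentralSeries_succ]
    rw [h1, Subgroup.commutator_le]
    intro x hx g _
    have h2 : x ∈ I G (k + 1) := hk ▸ (hI k).2.2 hx
    have h3 := (hIc (k + 1) x h2).1 g
    rw [commutatorElement_def]
    have h4 := (I G (k + 1 + 1)).inv_mem h3
    have h5 : (g * x * g⁻¹ * x⁻¹)⁻¹ = x * g * x⁻¹ * g⁻¹ := by group
    rw [h5] at h4
    exact h4
  have hstop : ∀ c, I G (c + 1) = I G c → ∀ k, c ≤ k → I G k = I G c := by
    intro c hc k hk
    have h1 : ∀ j, c ≤ j → I G (j + 1) = I G j := by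
      intro j hj
      induction j, hj using Nat.le_induction with
      | base => exact hc
      | succ j hj ih => exact hrep j ih
    induction k, hk using Nat.le_induction with
    | base => rfl
    | succ k hk ih => rw [h1 k hk, ih]
  have hpow : ∀ c, (∀ k, k < c → I G (k + 1) ≠ I G k) → 2 ^ c ≤ Nat.card (Quot (Tw (θk c))) := by
    intro c
    induction c with
    | zero =>
      intro _
      have := (hfink 0).1
      have : Nonempty (Quot (Tw (θk 0))) := ⟨Quot.mk _ 1⟩
      exact Nat.card_pos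
    | succ c ih =>
      intro hc
      calc 2 ^ (c + 1) = 2 * 2 ^ c := by rw [pow_succ, mul_comm]
        _ ≤ 2 * Nat.card (Quot (Tw (θk c))) :=
            Nat.mul_le_mul_left 2 (ih fun k hk => hc k (by omega))
        _ ≤ Nat.card (Quot (Tw (θk (c + 1)))) := hstrict c (hc c (by omega))
  have hex : ∃ c, I G (c + 1) = I G c := by
    by_contra hcon
    push Not at hcon
    have h1 := hpow (Nat.card (Quot (Tw θ))) (fun k _ => hcon k)
    have h2 := (hfink (Nat.card (Quot (Tw θ)))).2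
    have h3 := Nat.lt_two_pow_self (n := Nat.card (Quot (Tw θ)))
    omega
  classical
  refine ⟨Nat.find hex, hstop _ (Nat.find_spec hex), ?_⟩
  exact (hpow _ (fun k hk => Nat.find_min hex hk)).trans (hfink _).2


theorem I_map (hchain : S_chain.{u}) {G H : Type u} [Group G] [Group H] (π : G →* H)
    (hπ : Function.Surjective π) (k : ℕ) {x : G} (hx : x ∈ I G k) : π x ∈ I H k := by
  obtain ⟨-, hI, -⟩ := hchain H
  have := (hI k).1
  have h1 : I G k ≤ (I H k).comap π := by
    refine sInf_le ⟨inferInstance, ?_, ?_⟩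
    · intro y m hm hy
      rw [Subgroup.mem_comap] at hy ⊢
      rw [map_pow] at hy
      exact (hI k).2.1 _ m hm hy
    · rw [← Subgroup.map_le_iff_le_comap, L_map π hπ]
      exact (hI k).2.2
  exact h1 hx

/-- quotients that are residually torsion-free nilpotent -/
theorem quot_nilpotent (hchain : S_chain.{u}) {G : Type u} {H : Type u} [Group G] [Group H]
    (π : G →* H) (hπ : Function.Surjective π) {c : ℕ} (hc : ∀ k, c ≤ k → I G k = I G c)
    (hR : RTFN H) : L H c = ⊥ := by
  obtain ⟨-, hI, hIanti, -⟩ := hchain G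
  obtain ⟨-, -, hIanti', -, -, hIR⟩ := hchain H
  rw [← L_map π hπ, eq_bot_iff]
  rintro _ ⟨x, hx, rfl⟩
  rw [Subgroup.mem_bot]
  refine hIR hR _ fun k => I_map hchain π hπ k ?_
  rcases le_total k c with h | h
  · exact antitone_nat_of_succ_le hIanti h ((hI c).2.2 hx)
  · rw [hc k h]; exact (hI c).2.2 hx

theorem nilpotent_of_L {G : Type u} [Group G] {c : ℕ} (h : L G c = ⊥) : Group.IsNilpotent G :=
  Subgroup.nilpotent_iff_lowerCentralSeries.2 ⟨c, h⟩

theorem class_le_of_L {G : Type u} [Group G] {c : ℕ} (h : L G c = ⊥) :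
    Group.nilpotencyClass G ≤ c := by
  have := nilpotent_of_L h
  exact Subgroup.lowerCentralSeries_eq_bot_iff_nilpotencyClass_le.1 h

/-- residual torsion-free nilpotence passes to groups mapping injectively -/
theorem RTFN_of_injective {G : Type u} {H : Type v} [Group G] [Group H] (f : G →* H)
    (hf : Function.Injective f) (hR : RTFN H) : RTFN G := by
  intro g hg
  obtain ⟨N, hN, hnil, htf, hgN⟩ := hR (f g) (fun h => hg (hf (by rw [h, map_one])))
  let F : G ⧸ N.comap f →* H ⧸ N := QuotientGroup.map (N.comap f) N f le_rfl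
  have hF : Function.Injective F := by
    rw [injective_iff_map_eq_one]
    intro q hq
    obtain ⟨x, rfl⟩ := QuotientGroup.mk'_surjective (N.comap f) q
    have h1 : QuotientGroup.mk' N (f x) = 1 := hq
    rw [← MonoidHom.mem_ker, QuotientGroup.ker_mk'] at h1 ⊢
    exact h1
  refine ⟨N.comap f, inferInstance, ?_, ?_, hgN⟩
  · have := hnil
    exact Subgroup.isNilpotent_of_ker_le_center F
      (by rw [(MonoidHom.ker_eq_bot_iff F).2 hF]; exact bot_le)
  · intro x m hm hx
    exact hF (by rw [map_one]; exact htf (F x) m hm (by rw [← map_pow, hx, map_one]))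


end Pool.Agent.H827.RN
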