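import Pool.Agent.H827.RN.Defs

/-!
Counting twisted conjugacy classes in a central extension.
-/

set_option autoImplicit false

open Subgroup

universe u v

namespace Pool.Agent.H827.RN

namespace Count

variable {G H : Type u} [Group G] [Group H]

theorem tw_equiv (θ : G →* G) : Equivalence (Tw θ) := by
  refine ⟨fun x => ⟨1, by simp⟩, ?_, ?_⟩
  · rintro x y ⟨g, rfl⟩
    refine ⟨g⁻¹, ?_⟩
    rw [map_inv]
    group
  · rintro x y z ⟨g, rfl⟩ ⟨h, rfl⟩
    refine ⟨h * g, ?_⟩
    rw [map_mul]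
    group

theorem tw_iff (θ : G →* G) (x y : G) : Quot.mk (Tw θ) x = Quot.mk (Tw θ) y ↔ Tw θ x y := by
  rw [Quot.eq, (tw_equiv θ).eqvGen_iff]

theorem key {π : G →* H} {θ : G →* G} {θ' : H →* H} (hc : ∀ x, π (θ x) = θ' (π x))
    (hz : ∀ k : G, π k = 1 → k ∈ Subgroup.center G) (hn : NoStab θ') {x k k' : G}
    (hk : π k = 1) (hk' : π k' = 1) (h : Tw θ (x * k) (x * k')) :
    ∃ g : G, π g = 1 ∧ k' = k * (θ g * g⁻¹) := by
  obtain ⟨g, hg⟩ := h
  have h1 : π g = 1 := by
    apply hn (π x) (π g)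
    have h2 := congrArg π hg
    rw [map_mul, map_mul, map_mul, map_mul, map_inv, hc, hk, hk', mul_one] at h2
    exact h2.symm
  refine ⟨g, h1, ?_⟩
  have h2 : π (θ g) = 1 := by rw [hc, h1, map_one]
  have h3 : θ g * (x * k) = (x * k) * θ g := (Subgroup.mem_center_iff.1 (hz _ h2) (x * k)).symm
  rw [h3, mul_assoc, mul_assoc] at hg
  exact mul_left_cancel hg

theorem rep {π : G →* H} (hπ : Function.Surjective π) (θ' : H →* H) (c : Quot (Tw θ')) :
    ∃ x : G, Quot.mk (Tw θ') (π x) = c := by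
  induction c using Quot.ind with
  | mk h =>
    obtain ⟨x, rfl⟩ := hπ h
    exact ⟨x, rfl⟩

/-- the induced map on the classes -/
def ind {π : G →* H} {θ : G →* G} {θ' : H →* H} (hc : ∀ x, π (θ x) = θ' (π x)) :
    Quot (Tw θ) → Quot (Tw θ') :=
  Quot.map π (by
    rintro x y ⟨g, rfl⟩
    refine ⟨π g, ?_⟩
    rw [map_mul, map_mul, map_inv, hc])

end Count

open Pool.Agent.H827.RN.Count in
theorem t_count : S_count.{u} := by
  intro G H _ _ π θ θ' hπ hc hz hn hfin
  classical
  have hsurj : Function.Surjective (ind hc) := by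
    intro c
    obtain ⟨x, hx⟩ := rep hπ θ' c
    exact ⟨Quot.mk _ x, hx⟩
  have hfin' : Finite (Quot (Tw θ')) := Finite.of_surjective _ hsurj
  refine ⟨hfin', Nat.card_le_card_of_surjective _ hsurj, ?_, ?_⟩
  · rintro ⟨k₀, hk₀, hno⟩
    choose s hs using rep hπ θ'
    let kk : Bool → G := fun b => if b then k₀ else 1
    have hkk : ∀ b, π (kk b) = 1 := by
      intro b
      cases b
      · simp [kk]
      · simpa [kk] using hk₀
    have hinj : Function.Injective (fun q : Quot (Tw θ') × Bool => Quot.mk (Tw θ) (s q.1 * kk q.2)) := by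
      rintro ⟨c, b⟩ ⟨c', b'⟩ h
      simp only at h
      have h1 : c = c' := by
        have h2 := congrArg (ind hc) h
        have h3 : ∀ (c : Quot (Tw θ')) (b : Bool),
            ind hc (Quot.mk (Tw θ) (s c * kk b)) = c := by
          intro c b
          show Quot.mk (Tw θ') (π (s c * kk b)) = c
          rw [map_mul, hkk, mul_one, hs]
        rwa [h3, h3] at h2
      subst h1
      rw [tw_iff] at h
      obtain ⟨g, hg, hg'⟩ := key hc hz hn (hkk b) (hkk b') h
      cases b <;> cases b'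
      · rfl
      · exfalso
        simp only [kk, if_true, Bool.false_eq_true, if_false, one_mul] at hg'
        exact hno g hg hg'.symm
      · exfalso
        simp only [kk, if_true, Bool.false_eq_true, if_false] at hg'
        apply hno g⁻¹ (by rw [map_inv, hg, inv_one])
        have h5 : k₀ = (θ g * g⁻¹)⁻¹ := eq_inv_of_mul_eq_one_left hg'.symm
        have h6 : g * (θ g)⁻¹ = (θ g)⁻¹ * g := (Subgroup.mem_center_iff.1 (hz g hg) _).symm
        rw [h5, mul_inv_rev, inv_inv, map_inv, h6]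
      · rfl
    have h7 := Nat.card_le_card_of_injective _ hinj
    rw [Nat.card_prod, Nat.card_eq_fintype_card (α := Bool), Fintype.card_bool] at h7
    rw [mul_comm]
    exact h7
  · have : Fintype (Quot (Tw θ)) := Fintype.ofFinite _
    let r : Quot (Tw θ) → G := fun c =>
      if h : ∃ k, π k = 1 ∧ Quot.mk (Tw θ) k = c then Classical.choose h else 1
    refine ⟨Finset.univ.image r, ?_⟩
    intro k hk
    have hex : ∃ k', π k' = 1 ∧ Quot.mk (Tw θ) k' = Quot.mk (Tw θ) k := ⟨k, hk, rfl⟩
    have hr : r (Quot.mk (Tw θ) k) = Classical.choose hex := by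
      simp only [r]
      rw [dif_pos hex]
    obtain ⟨h1, h2⟩ := Classical.choose_spec hex
    rw [← hr] at h1 h2
    refine ⟨r (Quot.mk (Tw θ) k), Finset.mem_image_of_mem r (Finset.mem_univ _), ?_⟩
    rw [tw_iff] at h2
    have h3 : Tw θ (1 * r (Quot.mk (Tw θ) k)) (1 * k) := by
      rw [one_mul, one_mul]
      exact h2
    obtain ⟨g, hg, hg'⟩ := key hc hz hn h1 hk h3
    exact ⟨g, h1, hg, hg'⟩

end Pool.Agent.H827.RN
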