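import Pool.Agent.H827.RN.Defs3

/-!
# Comparison of `X` and `ℝᵏ` (task cp)
-/

set_option autoImplicit false

open Set Filter Topology

universe u

namespace Pool.Agent.H827.RN

namespace Cp

theorem vec_finite (k : ℕ) (a : ℝ) : {z : Fin k → ℤ | ‖vec z‖ ≤ a}.Finite := by
  refine (Set.finite_Icc (fun _ : Fin k => -⌈a⌉) (fun _ : Fin k => ⌈a⌉)).subset ?_
  intro z hz
  have hz' : ‖vec z‖ ≤ a := hz
  have h : ∀ i, |(z i : ℝ)| ≤ a := by
    intro i
    have h1 : ‖vec z i‖ ≤ ‖vec z‖ := norm_le_pi_norm (vec z) i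
    have h2 : ‖vec z i‖ = |(z i : ℝ)| := Real.norm_eq_abs _
    rw [h2] at h1
    exact h1.trans hz'
  rw [Set.mem_Icc]
  constructor
  · intro i
    have h1 := (abs_le.1 (h i)).1
    have h2 : (-(⌈a⌉ : ℤ) : ℝ) ≤ (z i : ℝ) := by
      have := Int.le_ceil a
      linarith
    exact_mod_cast h2
  · intro i
    have h1 := (abs_le.1 (h i)).2
    have h2 : (z i : ℝ) ≤ ((⌈a⌉ : ℤ) : ℝ) := h1.trans (Int.le_ceil a)
    exact_mod_cast h2

end Cp

theorem t_cp : S_cp.{u} := by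
  intro Λ X _ _ _ k e x0 hfin
  refine ⟨⟨1, ?_⟩, ?_, ?_⟩
  · intro y
    refine ⟨e.symm (Multiplicative.ofAdd (fun i => round (y i))), ?_⟩
    rw [MulEquiv.apply_symm_apply, toAdd_ofAdd]
    rw [dist_pi_le_iff zero_le_one]
    intro i
    rw [Real.dist_eq]
    have h1 : |y i - (round (y i) : ℝ)| ≤ 1 / 2 := abs_sub_round (y i)
    exact h1.trans (by norm_num)
  · intro a
    obtain ⟨b, hb⟩ := ((hfin a).image (fun γ => ‖vec (e γ).toAdd‖)).bddAbove
    exact ⟨b, fun γ hγ => hb ⟨γ, hγ, rfl⟩⟩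
  · intro a
    have h1 : {γ : Λ | ‖vec (e γ).toAdd‖ ≤ a}.Finite := by
      have h2 : Set.InjOn (fun γ : Λ => (e γ).toAdd)
          ((fun γ : Λ => (e γ).toAdd) ⁻¹' {z : Fin k → ℤ | ‖vec z‖ ≤ a}) := by
        intro γ _ γ' _ h
        exact e.injective (Multiplicative.toAdd.injective h)
      exact (Cp.vec_finite k a).preimage h2
    obtain ⟨b, hb⟩ := (h1.image (fun γ => dist (γ • x0) x0)).bddAbove
    exact ⟨b, fun γ hγ => hb ⟨γ, hγ, rfl⟩⟩

end Pool.Agent.H827.RN
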