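import Mathlib
import Pool.Graph.R_seed8.Helper111.EN.Basic
import Pool.Graph.R_seed8.Helper111.EN.NS

/-!
# Twisted conjugacy and residually torsion-free nilpotent groups (project RN, helper827)

Goal: if `φ` is an automorphism of a finitely generated group `Γ` such that all powers of `φ` have
finitely many twisted conjugacy classes, and `Γ` has a subgroup of finite index that is residually
torsion-free nilpotent, then `Γ` is virtually nilpotent.
-/

set_option autoImplicit false

open Subgroup

universe u v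

namespace Pool.Agent.H827.RN

/-- `θ`-twisted conjugacy: `y = θ(g) x g⁻¹` for some `g`. -/
def Tw {G : Type*} [Group G] (θ : G →* G) (x y : G) : Prop := ∃ g : G, y = θ g * x * g⁻¹

/-- All stabilisers of the twisted conjugation action are trivial. -/
def NoStab {G : Type*} [Group G] (θ : G →* G) : Prop := ∀ x g : G, θ g * x * g⁻¹ = x → g = 1

/-- Torsion-free. -/
def TF (G : Type*) [Group G] : Prop := ∀ (x : G) (m : ℕ), 0 < m → x ^ m = 1 → x = 1

/-- Isolated (root closed) subgroups. -/
def Isol {G : Type*} [Group G] (N : Subgroup G) : Prop :=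
  ∀ (x : G) (m : ℕ), 0 < m → x ^ m ∈ N → x ∈ N

/-- The lower central series, `L 0 = ⊤`. -/
def L (G : Type*) [Group G] (k : ℕ) : Subgroup G := (⊤ : Subgroup G).lowerCentralSeries k

/-- The smallest isolated normal subgroup containing `L k`. -/
def I (G : Type*) [Group G] (k : ℕ) : Subgroup G :=
  sInf {N : Subgroup G | N.Normal ∧ Isol N ∧ L G k ≤ N}

/-- Residually torsion-free nilpotent groups. -/
def RTFN (G : Type*) [Group G] : Prop :=
  ∀ g : G, g ≠ 1 → ∃ (N : Subgroup G) (_ : N.Normal), Group.IsNilpotent (G ⧸ N) ∧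
    TF (G ⧸ N) ∧ g ∉ N

/-- Products of `p`-th powers and commutators. -/
def PC (G : Type*) [Group G] (p : ℕ) : Subgroup G :=
  Subgroup.closure (Set.range (fun w : G => w ^ p)) ⊔ commutator G

/-- TASK count. Twisted classes in a central extension `1 → ker π → G → H → 1` if the twisted
stabilisers in `H` are trivial: `(class of π x, coset of x)` injects.
Proof: for the inequality choose representatives `s c : G` with `[π (s c)] = c` for the classes `c`
of `H`. If `[s c * k] = [s c' * k']`, `k, k' ∈ ker π` (central), then `c = c'` and for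
`s c * k' = θ g * (s c * k) * g⁻¹` projecting gives `π g = 1` by `NoStab θ'`, so `g` is central and
`k' = k * (θ g * g⁻¹)`. With the two values `k = 1` and the given `k₀` not of the form `θ g * g⁻¹`
one gets `2 * card ≤ card`. For the last part: the classes of the elements of `ker π` are finitely
many; choose representatives in `ker π`; again `k' = θ g * k * g⁻¹` with `k, k' ∈ ker π` gives
`θ' (π g) * 1 * (π g)⁻¹ = 1`, hence `π g = 1`. -/
def S_count : Prop := ∀ (G H : Type u) [Group G] [Group H] (π : G →* H) (θ : G →* G) (θ' : H →* H),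
  Function.Surjective π → (∀ x, π (θ x) = θ' (π x)) → (∀ k : G, π k = 1 → k ∈ Subgroup.center G) →
  NoStab θ' → Finite (Quot (Tw θ)) →
    Finite (Quot (Tw θ')) ∧ Nat.card (Quot (Tw θ')) ≤ Nat.card (Quot (Tw θ)) ∧
    ((∃ k : G, π k = 1 ∧ ∀ g : G, π g = 1 → θ g * g⁻¹ ≠ k) →
      2 * Nat.card (Quot (Tw θ')) ≤ Nat.card (Quot (Tw θ))) ∧
    ∃ s : Finset G, ∀ k : G, π k = 1 → ∃ a ∈ s, ∃ g : G, π a = 1 ∧ π g = 1 ∧ k = a * (θ g * g⁻¹)

/-- TASK stab. Stabilisers stay trivial if the kernel is finitely generated, torsion-free and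
`g ↦ θ g * g⁻¹` has finite cokernel on it.
Proof: `A = ker π` is a finitely generated torsion-free commutative group (it is central), so
`Additive A` is a finitely generated free `ℤ`-module; the endomorphism `D g = θ g * g⁻¹` of `A`
(`θ` maps `ker π` into itself) has a range of finite index, so it is injective (rank). If
`θ g * x * g⁻¹ = x` then `π g = 1` by `NoStab θ'`, so `g` is central, `θ g * g⁻¹ = 1`, `g = 1`. -/
def S_stab : Prop := ∀ (G H : Type u) [Group G] [Group H] (π : G →* H) (θ : G →* G) (θ' : H →* H),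
  (∀ x, π (θ x) = θ' (π x)) → (∀ k : G, π k = 1 → k ∈ Subgroup.center G) →
  NoStab θ' → π.ker.FG → TF G →
  (∃ s : Finset G, ∀ k : G, π k = 1 → ∃ a ∈ s, ∃ g : G, π a = 1 ∧ π g = 1 ∧ k = a * (θ g * g⁻¹)) →
    NoStab θ

/-- TASK nonsurj. Proof: suppose `D k = θ k * k⁻¹` maps `K` onto `K`. `D` maps `B` into `B`, and the
endomorphism induced by `D` on `K ⧸ B` is surjective, hence injective (a surjective endomorphism of
a finitely generated `ℤ`-module is injective). So `D k ∈ B` implies `k ∈ B`, and `D` maps `B` onto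
`B`. As `D B ⊆ B ^ p`, every element of `B` is a `p`-th power of an element of `B`; as `B` is
finitely generated (a subgroup of a finitely generated commutative group) and torsion-free, `B = 1`
(Nakayama for `p • B = B`: some `n ≡ 1 mod p`, so `n ≠ 0`, kills `B`). -/
def S_nonsurj : Prop := ∀ (G : Type u) [Group G] (θ : G →* G) (K B : Subgroup G) (p : ℕ), 2 ≤ p →
  K ≤ Subgroup.center G → K.FG → TF G → B ≤ K → B ≠ ⊥ →
  (∀ b ∈ B, ∃ c ∈ B, θ b * b⁻¹ = c ^ p) → (∀ k ∈ K, θ k ∈ K) →
    ∃ k ∈ K, ∀ g ∈ K, θ g * g⁻¹ ≠ k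

/-- TASK lcs. If `θ` acts trivially on `G` modulo `p`-th powers and commutators, and
`L (k+1) = 1`, then `θ b * b⁻¹` is a `p`-th power of an element of `L k` for `b ∈ L k`.
Proof: prove by induction on `k`, for all groups `G` (without assuming `L (k+1) = 1`), that
`b⁻¹ * θ b ∈ Pw k := closure {y ^ p | y ∈ L k} ⊔ L (k+1)` for `b ∈ L k`. `L (k+1)` is generated by
the commutators `[a, g]`, `a ∈ L k`, `g ∈ G`, and modulo `L (k+2)` the commutator is bimultiplicative
`L k × G → L (k+1)`, trivial if `a ∈ L (k+1)` or `g ∈ L 1`; so for `q ∈ Pw k`, `q' ∈ Pw 0 = PC G p`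
the commutators `[a, q']`, `[q, g]`, `[q, q']` are in `Pw (k+1)`, and
`θ [a, g] = [a q, g q'] ≡ [a, g]` modulo `Pw (k+1)`. If `L (k+1) = 1`, then `L k` is central, so the
`p`-th powers of its elements form a subgroup. (Here `L G k` is central: `⁅L G k, ⊤⁆ = L G (k+1)`.) -/
def S_lcs : Prop := ∀ (G : Type u) [Group G] (θ : G →* G) (p : ℕ),
  (∀ x : G, x⁻¹ * θ x ∈ PC G p) → ∀ k : ℕ, L G (k + 1) = ⊥ →
    ∀ b ∈ L G k, ∃ c ∈ L G k, θ b * b⁻¹ = c ^ p

/-- TASK chain. Properties of the isolated series.
Proof of the fifth part: `Q = G ⧸ I (k+1)` is nilpotent (`L Q (k+1) = 1`) and torsion-free, so by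
`Pool.Agent.Helper111.EN.center_root` (or the name of the namespace of
`Pool/Graph/R_seed8/Helper111/EN/Basic.lean`), applied to the prime factors of `m`, an element of `Q`
with a power in `L Q k ≤ center Q` is central. So `N = {x | ∃ m > 0, x ^ m ∈ L G k ⊔ I G (k+1)}` is
central modulo `I (k+1)`, a normal subgroup, isolated and contains `L G k`; hence `I G k ≤ N`. -/
def S_chain : Prop := ∀ (G : Type u) [Group G],
  I G 0 = ⊤ ∧ (∀ k, (I G k).Normal ∧ Isol (I G k) ∧ L G k ≤ I G k) ∧
  (∀ k, I G (k + 1) ≤ I G k) ∧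
  (∀ (θ : G →* G) (k : ℕ), ∀ x ∈ I G k, θ x ∈ I G k) ∧
  (∀ k, ∀ x ∈ I G k, (∀ g : G, g * x * g⁻¹ * x⁻¹ ∈ I G (k + 1)) ∧
    ∃ m : ℕ, 0 < m ∧ x ^ m ∈ L G k ⊔ I G (k + 1)) ∧
  (RTFN G → ∀ g : G, (∀ k, g ∈ I G k) → g = 1)

/-- TASK pow. Proof: `G ⧸ PC G p` is a finitely generated commutative group of exponent dividing
`p ≥ 1`, so finite; `φ` induces an automorphism of it, which has finite order. -/
def S_pow : Prop := ∀ (G : Type u) [Group G] [Group.FG G] (φ : G ≃* G) (p : ℕ), 0 < p →
  ∃ n : ℕ, 1 ≤ n ∧ ∀ x : G, x⁻¹ * φ^[n] x ∈ PC G p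

/-- TASK fi. Finitely generated groups have finitely many subgroups of index at most `d` (search
Mathlib and the library first; the set of homomorphisms to a finite symmetric group is finite); take
`Γ₁` = the intersection of all subgroups of index equal to that of `Γ₀` (it is characteristic). -/
def S_fi : Prop := ∀ (Γ : Type u) [Group Γ] [Group.FG Γ] (Γ₀ : Subgroup Γ), Γ₀.FiniteIndex →
  ∃ Γ₁ : Subgroup Γ, Γ₁.FiniteIndex ∧ Γ₁ ≤ Γ₀ ∧ Γ₁.Characteristic

/-- TASK twfi. Twisted classes in a normal subgroup of finite index. Proof: if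
`y = θ g * x * g⁻¹`, `y' = θ g' * x * g'⁻¹` with `x, y, y' ∈ N` and `g' = h * g`, `h ∈ N`, then
`y' = θ h * y * h⁻¹`; so the class of `x` splits into at most `[Γ : N]` classes. -/
def S_twfi : Prop := ∀ (Γ : Type u) [Group Γ] (N : Subgroup Γ) (θ : Γ →* Γ) (θ' : N →* N),
  N.Normal → N.FiniteIndex → (∀ x : N, ((θ' x : N) : Γ) = θ x) → Finite (Quot (Tw θ)) →
    Finite (Quot (Tw θ'))

/-- TASK fg. A deck group of a compact space acting isometrically is finitely generated.
Proof: `X` is a proper connected metric space, `Γ` acts by isometries and freely; the fibres of the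
covering `P` are the orbits, so they are closed and discrete, and `{γ | dist (γ • x) x ≤ R}` is
finite for all `x`, `R`. `M` is compact, so there are `x₀`, `R > 0` such that the translates of the
ball `U = ball x₀ R` cover `X`: the open sets `P '' ball x₀ n` (a covering map is open) cover `M`.
Let `H` be the subgroup generated by the finite set `{γ | (γ • U) ∩ U ≠ ∅} ⊆ {γ | dist (γ • x₀) x₀ ≤
2 R}`; `H • U` and `(Γ \ H) • U` are open, disjoint and cover `X`, so `H = ⊤`. -/
def S_fg : Prop := ∀ (M : Type u) [TopologicalSpace M] [T2Space M] [CompactSpace M]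
  (X : Type v) [MetricSpace X] [ProperSpace X] [ConnectedSpace X]
  (Γ : Type v) [Group Γ] [MulAction Γ X] [IsIsometricSMul Γ X]
  (P : X → M), IsCoveringMap P → Function.Surjective P →
  (∀ x y : X, P x = P y ↔ ∃ γ : Γ, γ • x = y) → (∀ (γ : Γ) (x : X), γ • x = x → γ = 1) →
    Group.FG Γ

end Pool.Agent.H827.RN
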