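import Pool.Agent.H827.RN.Defs

/-!
# Free groups are residually torsion-free nilpotent (project RN, helper827)
-/

set_option autoImplicit false

open Subgroup

universe u v

namespace Pool.Agent.H827.RN

/-- TASK free. Free groups are residually torsion-free nilpotent; free groups on at least two
generators are not nilpotent (Magnus).
Proof (elementary): let `g ≠ 1` be a reduced word with syllables `x_{i 1} ^ e 1 ⋯ x_{i r} ^ e r`,
`r ≥ 1`, `e j ≠ 0` and `i j ≠ i (j + 1)` (for instance from `FreeGroup.toWord`, or by writing `g` as
a normal form `Monoid.CoprodI`/`FreeGroup.lift`, or by an induction). Let `N_i = ∑_{j : i j = i}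
E_{j, j+1}`, a strictly upper triangular integer `(r+1) × (r+1)` matrix with `N_i ^ 2 = 0`; map `x_i`
to the unitriangular matrix `1 + N_i` (inverse `1 - N_i`), so `x_i ^ e ↦ 1 + e • N_i`. The entry
`(1, r+1)` of the image of `g` is `e 1 ⋯ e r ≠ 0`, so `g` is not in the kernel, and the group of
unitriangular integer matrices (and each of its subgroups) is nilpotent and torsion-free. An
alternative is to use letters instead of syllables and the Magnus embedding into noncommutative
power series. For the second part: a free group on two generators `a ≠ b` maps onto the symmetric
group on three letters (`FreeGroup.lift`), which is not nilpotent. -/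
def S_free : Prop := ∀ (α : Type u), RTFN (FreeGroup α) ∧
  (Nontrivial α → ¬ Group.IsNilpotent (FreeGroup α))

end Pool.Agent.H827.RN
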