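import Pool.Agent.H827.RN.Defs2

/-!
# From abelian deck groups to hyperbolic toral automorphisms (project RN, helper827)

`F` is a lift of an Anosov diffeomorphism to `X`; a group `Λ ≅ ℤᵏ` acts on `X` and on `ℝᵏ`
(by translations), and `A` is the matrix of the automorphism of `Λ` induced by `F`.
-/

set_option autoImplicit false

open Set Filter Topology

universe u v

namespace Pool.Agent.H827.RN

/-- Large-scale hyperbolicity (the library's `CoarselyHyperbolic`). -/
def CH {X : Type*} [MetricSpace X] (F : X ≃ₜ X) : Prop :=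
  ∃ N : ℕ, 1 ≤ N ∧ ∃ R : ℝ, ∀ x y : X, R ≤ dist x y →
    2 * dist x y ≤ max (dist (F^[N] x) (F^[N] y)) (dist (F.symm^[N] x) (F.symm^[N] y))

/-- Forward asymptotic points (the library's `As`). -/
def Asy {X : Type*} [MetricSpace X] (g : X → X) (x y : X) : Prop :=
  Tendsto (fun n : ℕ => dist (g^[n] x) (g^[n] y)) atTop (𝓝 0)

/-- Hyperbolic integer matrices (the library's `HypMat`). -/
def HM {m : ℕ} (A : Matrix (Fin m) (Fin m) ℤ) : Prop :=
  ∀ μ : ℂ, ‖μ‖ = 1 → ¬ (A.map (Int.castRingHom ℂ)).charpoly.IsRoot μ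

/-- integer vectors as real vectors -/
def vec {k : ℕ} (z : Fin k → ℤ) : Fin k → ℝ := fun i => (z i : ℝ)

/-- TASK mat. Automorphisms of `ℤᵏ` are given by invertible integer matrices. -/
def S_mat : Prop := ∀ (Λ : Type u) [Group Λ] (k : ℕ) (e : Λ ≃* Multiplicative (Fin k → ℤ))
  (φ : Λ ≃* Λ), ∃ A : Matrix (Fin k) (Fin k) ℤ, IsUnit A.det ∧
    ∀ γ : Λ, (e (φ γ)).toAdd = A.mulVec (e γ).toAdd

/-- TASK ab. A finitely generated, torsion-free commutative group is isomorphic to some `ℤᵏ`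
(`Additive Λ` is a finite torsion-free `ℤ`-module, so free with a finite basis). -/
def S_ab : Prop := ∀ (Λ : Type u) [Group Λ] [Group.FG Λ], (∀ x y : Λ, x * y = y * x) → TF Λ →
  ∃ k : ℕ, Nonempty (Λ ≃* Multiplicative (Fin k → ℤ))

/-- TASK pt. Coarse hyperbolicity of `F` gives: no bounded full orbits of the matrix `A`.
Proof: let `w` have a bounded full orbit under `G` (`G y = A y`), `w ≠ 0`. For `t : ℝ` the full orbit
of `t • w` is bounded too. For each `n : ℤ` choose `γ n : Λ` with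
`‖vec (e (γ n)).toAdd - (G ^ n) (t • w)‖ ≤ 1` (round the coordinates). Then
`e (φ (γ n)) = A (e (γ n))` is at a distance at most `C = ‖A‖ + 1` from `e (γ (n + 1))`, with `C`
independent of `t` and `n`. By `hfin'` the element `(γ (n+1))⁻¹ * φ (γ n)` is in a finite set
independent of `t`, `n`, so `dist (F (γ n • x0)) (γ (n+1) • x0) ≤ C'`; iterating, with the coarse
boundedness of `F` and `F⁻¹` (a continuous equivariant map of a proper cocompact space maps points
at a distance at most `a` to points at a distance at most `b(a)`: translate into a compact ball), one has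
`dist (Fᴺ (γ n • x0)) (γ (n+N) • x0) ≤ C''`, `dist (F⁻ᴺ (γ n • x0)) (γ (n-N) • x0) ≤ C''`, and the
same for `x0` in the place of `γ n • x0` and of `γ (n±N) • x0`. Let `a n = dist (γ n • x0) x0`, a
bounded sequence (`e (γ n)` is bounded, so `γ n` takes finitely many values). By coarse hyperbolicity,
if `a n ≥ R` then `max (a (n+N)) (a (n-N)) ≥ 2 * a n - 2 * C''`; taking `n` with `a n` almost equal to
the supremum one gets `a n ≤ max R (2 * C'')` for all `n`, a bound independent of `t`. So `γ 0` is in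
a finite set independent of `t` (`hfin`), so `‖t • w‖` is bounded independently of `t`:
contradiction. -/
def S_pt : Prop := ∀ (Λ X : Type u) [Group Λ] [MetricSpace X] [ProperSpace X] [MulAction Λ X]
  [IsIsometricSMul Λ X] (k : ℕ) (e : Λ ≃* Multiplicative (Fin k → ℤ)) (φ : Λ ≃* Λ) (F : X ≃ₜ X)
  (A : Matrix (Fin k) (Fin k) ℤ) (G : (Fin k → ℝ) ≃ₜ (Fin k → ℝ)) (x0 : X),
  (∀ (γ : Λ) (x : X), F (γ • x) = φ γ • F x) →
  (∀ γ : Λ, (e (φ γ)).toAdd = A.mulVec (e γ).toAdd) →
  (∀ y, G y = (A.map (Int.cast : ℤ → ℝ)).mulVec y) →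
  (∃ a : ℝ, ∀ x : X, ∃ γ : Λ, dist x (γ • x0) ≤ a) →
  (∀ a : ℝ, {γ : Λ | dist (γ • x0) x0 ≤ a}.Finite) →
  CH F →
  ∀ (w : Fin k → ℝ) (B : ℝ), (∀ n : ℕ, ‖G^[n] w‖ ≤ B) → (∀ n : ℕ, ‖G.symm^[n] w‖ ≤ B) → w = 0

/-- TASK lin. Linear algebra of hyperbolic matrices. Proof: if the complex matrix `A` has an
eigenvalue `μ` of modulus one, with eigenvector `v`, then the real or the imaginary part `w ≠ 0` of
`v` has a bounded full orbit. For the splitting see for instance `bdd_contr` in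
`Pool/Graph/R_seed8/W740/TC/Conv.lean` (or Jordan/generalised eigenspaces): `ℝᵏ = Es ⊕ Eu` with
exponential contraction of `A` on `Es` and of `A⁻¹` on `Eu`; the second part follows with
`x - y = s + u`: `‖Aᴺ (x - y)‖ ≥ ‖Aᴺ u‖ - ‖Aᴺ s‖`, and the third with `w = x + s` for
`y - x = s + u`. -/
def S_lin : Prop := ∀ (k : ℕ) (A : Matrix (Fin k) (Fin k) ℤ) (G : (Fin k → ℝ) ≃ₜ (Fin k → ℝ)),
  IsUnit A.det → (∀ y, G y = (A.map (Int.cast : ℤ → ℝ)).mulVec y) →
  (∀ (w : Fin k → ℝ) (B : ℝ), (∀ n : ℕ, ‖G^[n] w‖ ≤ B) → (∀ n : ℕ, ‖G.symm^[n] w‖ ≤ B) → w = 0) →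
    HM A ∧
    (∃ N : ℕ, 1 ≤ N ∧ ∀ x y, 2 * dist x y ≤
      max (dist (G^[N] x) (G^[N] y)) (dist (G.symm^[N] x) (G.symm^[N] y))) ∧
    ∀ x y, ∃ w, Asy G x w ∧ Asy G.symm y w

/-- TASK cp. The comparison of `X` and `ℝᵏ`. Proof: round the coordinates; `cmp`: from the finiteness;
`cmp'`: `{γ | ‖vec (e γ).toAdd‖ ≤ a}` is finite (integer points of a ball, `e` is injective). -/
def S_cp : Prop := ∀ (Λ X : Type u) [Group Λ] [MetricSpace X] [MulAction Λ X] (k : ℕ)
  (e : Λ ≃* Multiplicative (Fin k → ℤ)) (x0 : X),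
  (∀ a : ℝ, {γ : Λ | dist (γ • x0) x0 ≤ a}.Finite) →
    (∃ a : ℝ, ∀ y : Fin k → ℝ, ∃ γ : Λ, dist y (vec (e γ).toAdd) ≤ a) ∧
    (∀ a : ℝ, ∃ b : ℝ, ∀ γ : Λ, dist (γ • x0) x0 ≤ a → ‖vec (e γ).toAdd‖ ≤ b) ∧
    (∀ a : ℝ, ∃ b : ℝ, ∀ γ : Λ, ‖vec (e γ).toAdd‖ ≤ a → dist (γ • x0) x0 ≤ b)

/-- Residually free groups. -/
def ResFree (G : Type*) [Group G] : Prop :=
  ∀ g : G, g ≠ 1 → ∃ π : G →* FreeGroup (Fin 2), π g ≠ 1

/-- TASK rf. Residually free groups are residually torsion-free nilpotent, and their nilpotent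
subgroups are commutative. Proof: `h` (another task) and `comap`; for the second part, the image of a
nilpotent subgroup in `FreeGroup (Fin 2)` is nilpotent and free (Nielsen-Schreier,
`subgroupIsFreeOfIsFree`), so by `h` it is free on a subsingleton, so commutative. See
`helper827_rn_FreeVN.lean` in the store (`t_freevn`), which contains the same step. -/
def S_rf : Prop := ∀ (G : Type u) [Group G], ResFree G →
  RTFN G ∧ ∀ H : Subgroup G, Group.IsNilpotent H → ∀ x ∈ H, ∀ y ∈ H, x * y = y * x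

end Pool.Agent.H827.RN
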