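import Pool.Agent.H827.RN.Defs3

/-!
# The full group acts by affine maps (project RN, helper827)
-/

set_option autoImplicit false

open Set Filter Topology

universe u v

namespace Pool.Agent.H827.RN

/-- TASK aff. `Λ ≅ ℤᵏ` is a normal subgroup of finite index in `Γ`, `H : X → ℝᵏ` is equivariant for
`Λ` and `H ∘ F = A ∘ H`. Then each `γ` in `Γ` acts on `X` as an affine map in the coordinates `H`.
Proof: conjugation by `γ` is an automorphism of `Λ` (`MulAut.conjNormal`), given by an invertible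
integer matrix `R γ` (`t_mat`, another task, `helper827_rn_Mat.lean`; or take it as a hypothesis
`(hmat : S_mat.{u})` of your theorem). `D γ x = H (γ • x) - R γ (H x)` is continuous and
`Λ`-invariant: `D γ (l • x) = H ((γ l γ⁻¹) • γ • x) - R γ (H x + e l) = D γ x`. So it is bounded on
`X` (`Λ` is cocompact, `X` proper). For `l ∈ Λ` one has `R (γ l) = R γ` (`Λ` is commutative) and
`D (γ * l) x = D γ x + e (γ l γ⁻¹)`, so `D γ x - D γ y` is bounded uniformly in `γ`, `x`, `y` (finitely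
many cosets `γ Λ`). `R (φ γ) * A = A * R γ` (both sides agree on all integer vectors `e l`), so
`D (φ γ) (F x) = A (D γ x)`. Hence `w = D γ x - D γ y` has a bounded full orbit under `G` (for the
backward orbit use `D (φ⁻¹ γ) (F⁻¹ x) = A⁻¹ (D γ x)`), so `w = 0`, `D γ` is a constant `t`.
Finally `γ ^ m ∈ Λ` for some `m ≥ 1` and `R γ ^ m = R (γ ^ m) = 1`. -/
def S_aff : Prop := ∀ (Γ X : Type u) [Group Γ] [MetricSpace X] [ProperSpace X] [MulAction Γ X]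
  [IsIsometricSMul Γ X] (Λ : Subgroup Γ) (k : ℕ) (e : Λ ≃* Multiplicative (Fin k → ℤ))
  (φ : Γ ≃* Γ) (F : X ≃ₜ X) (A : Matrix (Fin k) (Fin k) ℤ) (G : (Fin k → ℝ) ≃ₜ (Fin k → ℝ))
  (H : X → Fin k → ℝ) (x0 : X),
  Λ.Normal → Λ.FiniteIndex → (∀ γ : Γ, γ ∈ Λ ↔ φ γ ∈ Λ) →
  (∀ (γ : Γ) (x : X), F (γ • x) = φ γ • F x) → IsUnit A.det →
  (∀ (l : Λ) (h : φ l ∈ Λ), (e ⟨φ l, h⟩).toAdd = A.mulVec (e l).toAdd) →
  (∀ y, G y = (A.map (Int.cast : ℤ → ℝ)).mulVec y) →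
  (∀ (w : Fin k → ℝ) (B : ℝ), (∀ n : ℕ, ‖G^[n] w‖ ≤ B) → (∀ n : ℕ, ‖G.symm^[n] w‖ ≤ B) → w = 0) →
  Continuous H → (∀ (l : Λ) (x : X), H (l • x) = H x + vec (e l).toAdd) →
  (∀ x, H (F x) = G (H x)) →
  (∃ a : ℝ, ∀ x : X, ∃ l : Λ, dist x (l • x0) ≤ a) →
    ∀ γ : Γ, ∃ (R : Matrix (Fin k) (Fin k) ℤ) (t : Fin k → ℝ), IsUnit R.det ∧
      (∃ m : ℕ, 1 ≤ m ∧ R ^ m = 1) ∧
      ∀ x, H (γ • x) = (R.map (Int.cast : ℤ → ℝ)).mulVec (H x) + t

end Pool.Agent.H827.RN
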