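import Pool.Agent.H827.RN.Defs

/-!
# Polycyclic groups with tame automorphisms are virtually nilpotent (project RN, helper827)
-/

set_option autoImplicit false

open Subgroup

universe u v

namespace Pool.Agent.H827.RN

/-- All powers of `φ` have finitely many twisted conjugacy classes. -/
def Tame {G : Type u} [Group G] (φ : G ≃* G) : Prop :=
  ∀ n : ℕ, 1 ≤ n → ∀ θ : G →* G, (∀ x, θ x = φ^[n] x) → Finite (Quot (Tw θ))

/-- TASK eig. A nilpotent group of complex matrices has a subgroup of finite index with a common
eigenvector. Proof: choose a subgroup `H₁` of finite index and a subspace `W ≠ 0` of `ℂʳ` invariant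
under `ρ H₁` with `dim W` as small as possible (over all pairs `(H₁, W)`); then `W` has no
proper nonzero subspace that is invariant under a subgroup of finite index of `H₁`. Claim: each
`h ∈ H₁` acts on `W` by a scalar (then any `0 ≠ v ∈ W` is a common eigenvector). Show by induction on
`i` that the elements of `H₁` whose class in `H₁ ⧸ (K ⊓ H₁)` (a nilpotent group) is in the `i`-th
term of the upper central series act by scalars: if `h` is in the `(i+1)`-st term, then for
`g ∈ H₁` the commutator `h * g * h⁻¹ * g⁻¹` acts on `W` by a scalar `c g`, `c` is a homomorphism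
`H₁ → ℂˣ` and `(c g) ^ dim W = 1` (determinant), so `c` has a kernel `H₂` of finite index (its image is
in the finite group of `dim W`-th roots of unity). The elements of `H₂` commute with `h` on `W`, so
an eigenspace of `h` on `W` is `H₂`-invariant, hence all of `W`: `h` is a scalar. -/
def S_eig : Prop := ∀ (H : Type u) [Group H] (K : Subgroup H) [K.Normal] (r : ℕ)
  (ρ : H →* Matrix (Fin r) (Fin r) ℂ), 1 ≤ r → Group.IsNilpotent (H ⧸ K) →
  (∀ k ∈ K, ρ k = 1) → ∃ (H₁ : Subgroup H) (v : Fin r → ℂ), H₁.FiniteIndex ∧ v ≠ 0 ∧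
    ∀ h ∈ H₁, ∃ c : ℂ, (ρ h).mulVec v = c • v

/-- TASK w. Fixed vectors of a subgroup of finite index.
Proof: `heig` for the complexification of `ρ` gives `H₁`, `v`; by `S_fi` replace `H₁` by a
characteristic subgroup `H₂ ≤ H₁` of finite index. Let `X` be the set of the functions
`χ : H₂ → ℂ` for which there is `v ≠ 0` with `ρ h v = χ h • v` for all `h ∈ H₂`. `X` is nonempty, and
finite (eigenvectors for different `χ` are linearly independent: at most `r` of them); each
`χ ∈ X` is a homomorphism to `ℂˣ`. If `χ ∈ X` with vector `v` then `χ ∘ φ⁻¹ ∈ X` with vector `Φ v`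
(`Φ v ≠ 0` as `Φ' * Φ = 1`, which follows from `Φ * Φ' = 1`). `χ ↦ χ ∘ φ⁻¹` is an injective map
of the finite set `X`, so some `χ ∈ X` and `n ≥ 1` satisfy `χ ∘ φⁿ = χ` on `H₂`. Let `A = H₂ ⧸ ker χ`
(a commutative group, `χ` as a homomorphism to `ℂˣ`): `φⁿ` acts trivially on it, so the elements of
`H₂` that are twisted conjugate for `φⁿ` (restricted to `H₂`) have the same value of `χ`; by `Tame`
and `S_twfi` there are finitely many twisted classes, so `χ` has a finite range, `H₃ = ker χ` has
finite index in `H₂`, hence in `H`, and fixes `v`. `H₃` is finitely generated (Schreier), so the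
vectors of `ℂʳ` fixed by `H₃` are the solutions of finitely many linear equations with integer
coefficients (or: of the kernel of a rational matrix; a nonzero complex solution gives a nonzero
rational one, multiply by the denominators). Take `H' = H₃`. -/
def S_w : Prop := ∀ (H : Type u) [Group H] [Group.FG H] (K : Subgroup H) [K.Normal] (r : ℕ)
  (ρ : H →* Matrix (Fin r) (Fin r) ℤ) (φ : H ≃* H) (Φ Φ' : Matrix (Fin r) (Fin r) ℤ), 1 ≤ r →
  Group.IsNilpotent (H ⧸ K) → (∀ k ∈ K, ρ k = 1) → Φ * Φ' = 1 →
  (∀ h, ρ (φ h) * Φ = Φ * ρ h) → Tame φ →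
    ∃ (H' : Subgroup H) (z : Fin r → ℤ), H'.FiniteIndex ∧ z ≠ 0 ∧ ∀ h ∈ H', (ρ h).mulVec z = z

/-- TASK cen. Elements of `B` centralised by a subgroup of finite index. Proof: `B` is a finitely
generated commutative group, not finite, so `B` modulo its torsion subgroup `T` is isomorphic to
`ℤʳ`, `r ≥ 1`; `G` acts on it by conjugation and `φ` by an automorphism `Φ` (the matrices of these
maps; `Additive B`, `Module.Free`, `LinearMap.toMatrix`), `B` acts trivially, so `S_w` with `K = B`
gives `H'` of finite index and `b ∈ B`, `b ∉ T`, with `h b h⁻¹ ∈ b T` for `h ∈ H'`. `T` is finite, so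
`b ^ m`, `m = |T|`, satisfies `h b ^ m h⁻¹ = b ^ m` (commutative `B`); it has infinite order. -/
def S_cen : Prop := ∀ (G : Type u) [Group G] (φ : G ≃* G) (B : Subgroup G) [B.Normal],
  (∀ S : Subgroup G, S.FG) → (∀ x ∈ B, ∀ y ∈ B, x * y = y * x) → (∀ x, x ∈ B ↔ φ x ∈ B) →
  Group.IsNilpotent (G ⧸ B) → Tame φ → Infinite B →
    ∃ (H' : Subgroup G) (b : G), H'.FiniteIndex ∧ b ∈ B ∧ (∀ m : ℕ, 0 < m → b ^ m ≠ 1) ∧
      ∀ h ∈ H', h * b * h⁻¹ = b

/-- TASK p1. Groups with a commutative normal subgroup with nilpotent quotient. Proof: Noetherian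
induction: `G` satisfies the maximal condition on subgroups (all subgroups are finitely generated);
the claim for a quotient `G ⧸ C`, with `C ≤ B` nontrivial, normal in `G` and `φ C = C`, may be
assumed (for instance: prove by well-founded induction on `C` for `>` among the subgroups of a fixed
group `G`, which is Noetherian, that the claim holds for `G ⧸ C` and `B ⧸ C`, for all `φ`-invariant
normal `C ≤ B`; `Tame` passes to quotients: surjection on classes; or use the rank of `B` as the
induction parameter). If `B` is finite, the centraliser `Z` of `B` in `G` has finite index,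
`Z ⊓ B` is central in `Z` and `Z ⧸ (Z ⊓ B)` embeds into `G ⧸ B`, so `Z` is nilpotent. If `B` is
infinite, take `H'`, `b` from `S_cen`, a characteristic subgroup `H ≤ H'` of finite index (`S_fi`),
and `C = B ⊓ centralizer H`: it is normal (as `H` and `B` are), `φ`-invariant (`H` is characteristic),
nontrivial (`b ∈ C`). By the claim for `G ⧸ C` there is a subgroup `L ≥ C` of finite index with
`L ⧸ C` nilpotent. `H ⊓ L ⊓ C` is central in `H ⊓ L` and `(H ⊓ L) ⧸ (H ⊓ L ⊓ C)` embeds into `L ⧸ C`,
so `H ⊓ L` is nilpotent, of finite index. -/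
def S_p1 : Prop := ∀ (G : Type u) [Group G] (φ : G ≃* G) (B : Subgroup G) [B.Normal],
  (∀ S : Subgroup G, S.FG) → (∀ x ∈ B, ∀ y ∈ B, x * y = y * x) → (∀ x, x ∈ B ↔ φ x ∈ B) →
  Group.IsNilpotent (G ⧸ B) → Tame φ → Group.IsVirtuallyNilpotent G

/-- TASK pol. Proof (uses `hp1 : S_p1`, `hfi : S_fi`, `htw : S_twfi`): induction on the derived length
`d` of `G`. `A = G^(d-1)` is commutative and characteristic; `G ⧸ A` is virtually nilpotent by
induction (`Tame` for the induced automorphism: surjection on classes). Let `L ≥ A` be of finite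
index with `L ⧸ A` nilpotent, and `G₂ ≤ L` a characteristic subgroup of `G` of finite index;
`B = G₂ ⊓ A` is normal, commutative, `φ`-invariant and `G₂ ⧸ B` embeds into `L ⧸ A`. By `S_twfi` the
restriction of `φ` to `G₂` is tame. `S_p1` for `G₂`, `B` gives that `G₂` is virtually nilpotent. -/
def S_pol : Prop := ∀ (G : Type u) [Group G] (φ : G ≃* G), (∀ S : Subgroup G, S.FG) →
  Group.IsSolvable G → Tame φ → Group.IsVirtuallyNilpotent G

end Pool.Agent.H827.RN
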