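import Pool.Agent.H827.RN.Defs5

/-!
# Common eigenvectors for nilpotent groups of complex matrices, up to finite index
-/

set_option autoImplicit false

open Subgroup Module
open scoped commutatorElement

universe u v

namespace Pool.Agent.H827.RN

namespace Eig

variable {H : Type u} [Group H] {r : ℕ}

/-- `W` is invariant under the subgroup. -/
def Inv (ρ : H →* Matrix (Fin r) (Fin r) ℂ) (H₁ : Subgroup H) (W : Submodule ℂ (Fin r → ℂ)) :
    Prop := ∀ h ∈ H₁, ∀ w ∈ W, (ρ h).mulVec w ∈ W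

/-- `h` acts on `W` by a scalar. -/
def Sc (ρ : H →* Matrix (Fin r) (Fin r) ℂ) (W : Submodule ℂ (Fin r → ℂ)) (h : H) : Prop :=
  ∃ c : ℂ, ∀ w ∈ W, (ρ h).mulVec w = c • w

theorem ne_zero_of (ρ : H →* Matrix (Fin r) (Fin r) ℂ) (g : H) {w : Fin r → ℂ} (hw : w ≠ 0) :
    (ρ g).mulVec w ≠ 0 := by
  intro h
  apply hw
  have h1 : (ρ g⁻¹).mulVec ((ρ g).mulVec w) = w := by
    rw [Matrix.mulVec_mulVec, ← map_mul, inv_mul_cancel, map_one, Matrix.one_mulVec]
  rw [← h1, h, Matrix.mulVec_zero]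

theorem scalar_step (ρ : H →* Matrix (Fin r) (Fin r) ℂ) (H₁ : Subgroup H) (hfi : H₁.FiniteIndex)
    (W : Submodule ℂ (Fin r → ℂ)) (hW0 : W ≠ ⊥) (hW : Inv ρ H₁ W)
    (hmin : ∀ (H₂ : Subgroup H) (W' : Submodule ℂ (Fin r → ℂ)), H₂.FiniteIndex → W' ≠ ⊥ →
      Inv ρ H₂ W' → W' ≤ W → W' = W)
    (h : H) (hh : h ∈ H₁) (hc : ∀ g ∈ H₁, Sc ρ W ⁅h, g⁆) : Sc ρ W h := by
  obtain ⟨w0, hw0, hw00⟩ := Submodule.exists_mem_ne_zero_of_ne_bot hW0
  choose cc hcc using fun g : H₁ => hc g g.2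
  have rel : ∀ g : H₁, ∀ w ∈ W, (ρ h).mulVec ((ρ g).mulVec w) =
      cc g • (ρ g).mulVec ((ρ h).mulVec w) := by
    intro g w hw
    have h1 : h * (g : H) = ⁅h, (g : H)⁆ * ((g : H) * h) := by
      rw [commutatorElement_def]
      group
    rw [Matrix.mulVec_mulVec, ← map_mul, h1, map_mul, ← Matrix.mulVec_mulVec,
      hcc g _ (hW _ (H₁.mul_mem g.2 hh) w hw), map_mul, ← Matrix.mulVec_mulVec]
  have hne : ∀ g : H₁, cc g ≠ 0 := by
    intro g h0
    have h1 := rel g w0 hw0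
    rw [h0, zero_smul] at h1
    exact ne_zero_of ρ h (ne_zero_of ρ g hw00) h1
  have hmul : ∀ g g' : H₁, cc (g * g') = cc g * cc g' := by
    intro g g'
    have h1 := rel (g * g') w0 hw0
    have h2 := rel g _ (hW g' g'.2 w0 hw0)
    rw [rel g' w0 hw0, Matrix.mulVec_smul, smul_smul] at h2
    have h3 : ((g * g' : H₁) : H) = (g : H) * (g' : H) := rfl
    rw [h3, map_mul, ← Matrix.mulVec_mulVec, ← Matrix.mulVec_mulVec, h2] at h1
    have h4 : (ρ g).mulVec ((ρ g').mulVec ((ρ h).mulVec w0)) ≠ 0 :=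
      ne_zero_of ρ g (ne_zero_of ρ g' (ne_zero_of ρ h hw00))
    exact (smul_left_injective ℂ h4 h1).symm
  let χ : H₁ →* ℂˣ := MonoidHom.mk' (fun g => Units.mk0 (cc g) (hne g)) (by
    intro g g'
    ext
    rw [Units.val_mul, Units.val_mk0, Units.val_mk0, Units.val_mk0, hmul])
  -- an eigenvector of `h`
  obtain ⟨μ, w1, hw1, hw10, hμ⟩ : ∃ (μ : ℂ) (w1 : Fin r → ℂ), w1 ∈ W ∧ w1 ≠ 0 ∧
      (ρ h).mulVec w1 = μ • w1 := by
    have hres : ∀ w ∈ W, Matrix.toLin' (ρ h) w ∈ W := by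
      intro w hw
      rw [Matrix.toLin'_apply]
      exact hW h hh w hw
    have hnt : Nontrivial W := Submodule.nontrivial_iff_ne_bot.mpr hW0
    obtain ⟨μ, hμ⟩ := Module.End.exists_eigenvalue ((Matrix.toLin' (ρ h)).restrict hres)
    obtain ⟨w1, hw1⟩ := hμ.exists_hasEigenvector
    refine ⟨μ, w1, w1.2, ?_, ?_⟩
    · intro h0
      exact hw1.2 (Subtype.ext h0)
    · have h1 := hw1.apply_eq_smul
      have h2 := congrArg (fun x : W => (x : Fin r → ℂ)) h1
      rw [← Matrix.toLin'_apply]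
      exact h2
  have hμ0 : μ ≠ 0 := by
    intro h0
    rw [h0, zero_smul] at hμ
    exact ne_zero_of ρ h hw10 hμ
  have hev : ∀ g : H₁, Module.End.HasEigenvalue (Matrix.toLin' (ρ h)) (cc g * μ) := by
    intro g
    refine Module.End.hasEigenvalue_of_hasEigenvector (x := (ρ g).mulVec w1) ?_
    refine Module.End.hasEigenvector_iff.mpr ⟨?_, ne_zero_of ρ g hw10⟩
    rw [Module.End.mem_eigenspace_iff, Matrix.toLin'_apply, rel g w1 hw1, hμ, Matrix.mulVec_smul,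
      smul_smul]
  have hfin : (Set.range χ).Finite := by
    refine Set.Finite.of_finite_image (f := fun x : ℂˣ => (x : ℂ) * μ) ?_ ?_
    · refine (Module.End.finite_hasEigenvalue (Matrix.toLin' (ρ h))).subset ?_
      rintro _ ⟨_, ⟨g, rfl⟩, rfl⟩
      exact hev g
    · intro x _ y _ hxy
      exact Units.ext (mul_right_cancel₀ hμ0 hxy)
  have hfr : Finite χ.range := hfin.to_subtype
  have hker : χ.ker.FiniteIndex := Subgroup.finiteIndex_ker χ
  have hH2 : (χ.ker.map H₁.subtype).FiniteIndex := by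
    refine ⟨?_⟩
    rw [Subgroup.index_map_subtype]
    exact mul_ne_zero hker.index_ne_zero hfi.index_ne_zero
  have hW' := hmin (χ.ker.map H₁.subtype) (W ⊓ Module.End.eigenspace (Matrix.toLin' (ρ h)) μ) hH2 ?_ ?_
    inf_le_left
  · refine ⟨μ, fun w hw => ?_⟩
    rw [← hW'] at hw
    have h1 := Module.End.mem_eigenspace_iff.mp hw.2
    rwa [Matrix.toLin'_apply] at h1
  · intro hbot
    apply hw10
    have h1 : w1 ∈ W ⊓ Module.End.eigenspace (Matrix.toLin' (ρ h)) μ := by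
      refine ⟨hw1, Module.End.mem_eigenspace_iff.mpr ?_⟩
      rw [Matrix.toLin'_apply]
      exact hμ
    rw [hbot] at h1
    exact (Submodule.mem_bot ℂ).mp h1
  · rintro _ ⟨g, hg, rfl⟩ w hw
    have h1 : cc g = 1 := by
      have h2 : χ g = 1 := hg
      have h3 := congrArg (fun x : ℂˣ => (x : ℂ)) h2
      exact h3
    have h4 := Module.End.mem_eigenspace_iff.mp hw.2
    rw [Matrix.toLin'_apply] at h4
    refine ⟨hW _ g.2 w hw.1, Module.End.mem_eigenspace_iff.mpr ?_⟩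
    rw [Matrix.toLin'_apply]
    show (ρ h).mulVec ((ρ g).mulVec w) = μ • (ρ g).mulVec w
    rw [rel g w hw.1, h1, one_smul, h4, Matrix.mulVec_smul]

end Eig

open Eig

theorem t_eig : S_eig.{u} := by
  intro H _ K _ r ρ hr hnil hK
  classical
  have hP : ∃ d : ℕ, ∃ (H₁ : Subgroup H) (W : Submodule ℂ (Fin r → ℂ)), H₁.FiniteIndex ∧ W ≠ ⊥ ∧
      Inv ρ H₁ W ∧ finrank ℂ W = d := by
    have hnt : Nontrivial (Fin r → ℂ) := by
      have : Nonempty (Fin r) := ⟨⟨0, hr⟩⟩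
      infer_instance
    exact ⟨_, ⊤, ⊤, inferInstance, top_ne_bot, fun _ _ _ _ => Submodule.mem_top, rfl⟩
  obtain ⟨H₁, W, hfi, hW0, hW, hd⟩ := Nat.find_spec hP
  have hmin : ∀ (H₂ : Subgroup H) (W' : Submodule ℂ (Fin r → ℂ)), H₂.FiniteIndex → W' ≠ ⊥ →
      Inv ρ H₂ W' → W' ≤ W → W' = W := by
    intro H₂ W' h1 h2 h3 h4
    have h5 := Nat.find_min' hP ⟨H₂, W', h1, h2, h3, rfl⟩
    rw [← hd] at h5
    exact Submodule.eq_of_le_of_finrank_le h4 h5
  have key : ∀ n : ℕ, ∀ h ∈ H₁, QuotientGroup.mk' K h ∈ Subgroup.upperCentralSeries (H ⧸ K) n →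
      Sc ρ W h := by
    intro n
    induction n with
    | zero =>
      intro h _ h2
      rw [Subgroup.upperCentralSeries_zero, Subgroup.mem_bot] at h2
      have h3 : h ∈ K := (QuotientGroup.eq_one_iff h).mp h2
      exact ⟨1, fun w _ => by rw [hK h h3, Matrix.one_mulVec, one_smul]⟩
    | succ n ih =>
      intro h hh h2
      rw [Subgroup.mem_upperCentralSeries_succ_iff] at h2
      refine scalar_step ρ H₁ hfi W hW0 hW hmin h hh ?_
      intro g hg
      refine ih _ ?_ ?_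
      · rw [commutatorElement_def]
        exact H₁.mul_mem (H₁.mul_mem (H₁.mul_mem hh hg) (H₁.inv_mem hh)) (H₁.inv_mem hg)
      · have h3 := h2 (QuotientGroup.mk' K g)
        rwa [← map_commutatorElement] at h3
  obtain ⟨n, hn⟩ := hnil.nilpotent'
  obtain ⟨v, hv, hv0⟩ := Submodule.exists_mem_ne_zero_of_ne_bot hW0
  refine ⟨H₁, v, hfi, hv0, fun h hh => ?_⟩
  obtain ⟨c, hc⟩ := key n h hh (by rw [hn]; exact Subgroup.mem_top _)
  exact ⟨c, hc v hv⟩

end Pool.Agent.H827.RN
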