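import Pool.Agent.H827.RN.Defs

/-!
# A deck group of a compact space acting isometrically is finitely generated (task fg)
-/

set_option autoImplicit false

universe u v

namespace Pool.Agent.H827.RN

namespace Fg

variable {X : Type v} [MetricSpace X] {Γ : Type v} [Group Γ] [MulAction Γ X] [IsIsometricSMul Γ X]

omit [IsIsometricSMul Γ X] in
theorem finite_near {M : Type u} [TopologicalSpace M] [T2Space M] [ProperSpace X]
    (P : X → M) (hP : IsCoveringMap P)
    (hfib : ∀ x y : X, P x = P y ↔ ∃ γ : Γ, γ • x = y)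
    (hfree : ∀ (γ : Γ) (x : X), γ • x = x → γ = 1) (x₀ : X) (R : ℝ) :
    {γ : Γ | dist (γ • x₀) x₀ ≤ R}.Finite := by
  have hcl : IsClosed (P ⁻¹' {P x₀}) := isClosed_singleton.preimage hP.continuous
  have hdisc : DiscreteTopology (P ⁻¹' {P x₀}) := (hP (P x₀)).discreteTopology_fiber
  have hcomp : IsCompact (Metric.closedBall x₀ R ∩ P ⁻¹' {P x₀}) :=
    (isCompact_closedBall x₀ R).inter_right hcl
  have hd2 : IsDiscrete (Metric.closedBall x₀ R ∩ P ⁻¹' {P x₀}) :=
    IsDiscrete.mono ⟨hdisc⟩ Set.inter_subset_right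
  have hfin := hcomp.finite hd2
  refine Set.Finite.of_finite_image (f := fun γ : Γ => γ • x₀) (hfin.subset ?_) ?_
  · rintro _ ⟨γ, hγ, rfl⟩
    refine ⟨hγ, ?_⟩
    change P (γ • x₀) = P x₀
    exact ((hfib x₀ (γ • x₀)).2 ⟨γ, rfl⟩).symm
  · intro γ _ γ' _ h
    have h1 : (γ'⁻¹ * γ) • x₀ = x₀ := by
      rw [mul_smul]
      have h2 : γ • x₀ = γ' • x₀ := h
      rw [h2, inv_smul_smul]
    have h3 := hfree _ _ h1
    rw [inv_mul_eq_one] at h3
    exact h3.symm

theorem cover {M : Type u} [TopologicalSpace M] [CompactSpace M]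
    (P : X → M) (hP : IsCoveringMap P) (hs : Function.Surjective P)
    (hfib : ∀ x y : X, P x = P y ↔ ∃ γ : Γ, γ • x = y) (x₀ : X) :
    ∃ R : ℝ, ∀ x : X, ∃ γ : Γ, dist (γ • x₀) x < R := by
  have hopen : ∀ n : ℕ, IsOpen (P '' Metric.ball x₀ n) :=
    fun n => hP.isOpenMap _ Metric.isOpen_ball
  have hcov : (Set.univ : Set M) ⊆ ⋃ n : ℕ, P '' Metric.ball x₀ n := by
    intro m _
    obtain ⟨x, rfl⟩ := hs m
    obtain ⟨n, hn⟩ := exists_nat_gt (dist x x₀)
    exact Set.mem_iUnion.2 ⟨n, x, hn, rfl⟩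
  obtain ⟨n, hn⟩ := isCompact_univ.elim_directed_cover _ hopen hcov (by
    intro i j
    exact ⟨max i j, Set.image_mono (Metric.ball_subset_ball (by exact_mod_cast le_max_left i j)),
      Set.image_mono (Metric.ball_subset_ball (by exact_mod_cast le_max_right i j))⟩)
  refine ⟨n, fun x => ?_⟩
  obtain ⟨y, hy, hyx⟩ := hn (Set.mem_univ (P x))
  obtain ⟨γ, hγ⟩ := (hfib y x).1 hyx
  refine ⟨γ, ?_⟩
  rw [← hγ, dist_smul, dist_comm]
  exact hy

end Fg

theorem t_fg : S_fg.{u, v} := by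
  intro M _ _ _ X _ _ _ Γ _ _ _ P hP hs hfib hfree
  obtain ⟨x₀⟩ : Nonempty X := inferInstance
  obtain ⟨R, hR⟩ := Fg.cover P hP hs hfib x₀
  have hfin := Fg.finite_near P hP hfib hfree x₀ (2 * R)
  set F : Set Γ := {γ : Γ | dist (γ • x₀) x₀ ≤ 2 * R} with hF
  set H : Subgroup Γ := Subgroup.closure F with hH
  have hHtop : H = ⊤ := by
    rw [Subgroup.eq_top_iff']
    intro g
    by_contra hg
    set A : Set X := ⋃ h ∈ H, Metric.ball (h • x₀) R with hA
    set B : Set X := ⋃ h ∈ (H : Set Γ)ᶜ, Metric.ball (h • x₀) R with hB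
    have hAo : IsOpen A := isOpen_biUnion fun h _ => Metric.isOpen_ball
    have hBo : IsOpen B := isOpen_biUnion fun h _ => Metric.isOpen_ball
    have hAB : Aᶜ = B := by
      ext x
      constructor
      · intro hx
        obtain ⟨γ, hγ⟩ := hR x
        by_cases hγH : γ ∈ H
        · exfalso
          apply hx
          refine Set.mem_biUnion hγH ?_
          rw [Metric.mem_ball, dist_comm]
          exact hγ
        · refine Set.mem_biUnion (show γ ∈ (H : Set Γ)ᶜ from hγH) ?_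
          rw [Metric.mem_ball, dist_comm]
          exact hγ
      · intro hx hxA
        obtain ⟨γ, hγ, h1⟩ := Set.mem_iUnion₂.1 hx
        obtain ⟨h, hh, h2⟩ := Set.mem_iUnion₂.1 hxA
        rw [Metric.mem_ball] at h1 h2
        apply hγ
        have h3 : h⁻¹ * γ ∈ F := by
          change dist ((h⁻¹ * γ) • x₀) x₀ ≤ 2 * R
          have h4 : dist ((h⁻¹ * γ) • x₀) x₀ = dist (γ • x₀) (h • x₀) := by
            rw [← dist_smul h ((h⁻¹ * γ) • x₀) x₀, smul_smul, mul_inv_cancel_left]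
          rw [h4]
          have h5 := dist_triangle (γ • x₀) x (h • x₀)
          rw [dist_comm (γ • x₀) x] at h5
          linarith
        have h6 : h * (h⁻¹ * γ) ∈ H := H.mul_mem hh (Subgroup.subset_closure h3)
        rw [mul_inv_cancel_left] at h6
        exact h6
    have hclopen : IsClopen A := ⟨by rw [← isOpen_compl_iff, hAB]; exact hBo, hAo⟩
    have hRpos : 0 < R := by
      obtain ⟨γ, hγ⟩ := hR x₀
      exact lt_of_le_of_lt dist_nonneg hγ
    have hne : A.Nonempty := ⟨x₀, Set.mem_biUnion H.one_mem (by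
      rw [one_smul]
      exact Metric.mem_ball_self hRpos)⟩
    have huniv := hclopen.eq_univ hne
    have hgB : g • x₀ ∈ B := Set.mem_biUnion (show g ∈ (H : Set Γ)ᶜ from hg)
      (Metric.mem_ball_self hRpos)
    rw [← hAB, huniv, Set.compl_univ] at hgB
    exact hgB
  refine ⟨⟨hfin.toFinset, ?_⟩⟩
  rw [Set.Finite.coe_toFinset]
  exact hHtop

end Pool.Agent.H827.RN
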