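import Pool.Agent.H827.RN.Defs

/-! # Characteristic subgroups of finite index (project RN) -/

set_option autoImplicit false

open Subgroup

universe u v

namespace Pool.Agent.H827.RN

namespace Fi

theorem finite_hom (Γ : Type u) [Group Γ] [Group.FG Γ] (P : Type) [Group P] [Finite P] :
    Finite (Γ →* P) := by
  obtain ⟨S, hS⟩ := (Group.fg_def.1 (inferInstance : Group.FG Γ))
  refine Finite.of_injective (β := S → P) (fun f s => f s) ?_
  intro f g h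
  refine MonoidHom.eq_of_eqOn_dense hS ?_
  intro s hs
  exact congrFun h ⟨s, hs⟩

theorem exists_hom {Γ : Type u} [Group Γ] (Γ₀ : Subgroup Γ) (h : Γ₀.FiniteIndex) :
    ∃ f : Γ →* Equiv.Perm (Fin (Nat.card (Γ ⧸ Γ₀))), f.ker ≤ Γ₀ := by
  have : Finite (Γ ⧸ Γ₀) := inferInstance
  let e : Γ ⧸ Γ₀ ≃ Fin (Nat.card (Γ ⧸ Γ₀)) := Finite.equivFin _
  refine ⟨(e.permCongrHom : Equiv.Perm (Γ ⧸ Γ₀) →* _).comp (MulAction.toPermHom Γ (Γ ⧸ Γ₀)), ?_⟩
  intro x hx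
  rw [MonoidHom.mem_ker, MonoidHom.comp_apply] at hx
  have hx' : MulAction.toPermHom Γ (Γ ⧸ Γ₀) x = 1 := e.permCongrHom.injective (by
    rw [map_one]
    exact hx)
  have h2 : x ∈ (MulAction.toPermHom Γ (Γ ⧸ Γ₀)).ker := hx'
  rw [← Subgroup.normalCore_eq_ker] at h2
  exact Subgroup.normalCore_le Γ₀ h2

end Fi

theorem t_fi : S_fi.{u} := by
  intro Γ _ _ Γ₀ h
  have hfin := Fi.finite_hom Γ (Equiv.Perm (Fin (Nat.card (Γ ⧸ Γ₀))))
  refine ⟨⨅ f : Γ →* Equiv.Perm (Fin (Nat.card (Γ ⧸ Γ₀))), f.ker, ?_, ?_, ?_⟩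
  · exact Subgroup.finiteIndex_iInf fun f => inferInstance
  · obtain ⟨f, hf⟩ := Fi.exists_hom Γ₀ h
    exact (iInf_le _ f).trans hf
  · rw [Subgroup.characteristic_iff_le_comap]
    intro φ x hx
    rw [Subgroup.mem_comap, Subgroup.mem_iInf]
    intro f
    rw [Subgroup.mem_iInf] at hx
    exact hx (f.comp φ.toMonoidHom)

end Pool.Agent.H827.RN
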