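import Pool.Agent.H827.RN.Defs2

/-!
# Nonabelian free groups are not virtually nilpotent (helper878, for helper827)
-/

set_option autoImplicit false

open Subgroup

universe u v

namespace Pool.Agent.H827.RN

namespace FreeVN

/-- the free group on at most one generator is commutative -/
theorem comm_of_subsingleton {ι : Type u} [Subsingleton ι] (x y : FreeGroup ι) :
    x * y = y * x := by
  have h1 : ∀ (i : ι) (x : FreeGroup ι), x * FreeGroup.of i = FreeGroup.of i * x := by
    intro i x
    refine FreeGroup.induction_on x ?_ (fun j => ?_) (fun j _ => ?_) (fun x y hx hy => ?_)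
    · rw [one_mul, mul_one]
    · rw [Subsingleton.elim j i]
    · rw [Subsingleton.elim j i]
      exact (inv_mul_cancel _).trans (mul_inv_cancel _).symm
    · rw [mul_assoc, hy, ← mul_assoc, hx, mul_assoc]
  refine FreeGroup.induction_on y ?_ (fun j => h1 j x) (fun j _ => ?_) (fun y z hy hz => ?_)
  · rw [one_mul, mul_one]
  · have h2 := h1 j x
    change x * (FreeGroup.of j)⁻¹ = (FreeGroup.of j)⁻¹ * x
    rw [mul_inv_eq_iff_eq_mul, mul_assoc, h2, ← mul_assoc, inv_mul_cancel, one_mul]
  · rw [← mul_assoc, hy, mul_assoc, hz, mul_assoc]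

/-- the upper triangular matrix -/
def A : (Matrix (Fin 2) (Fin 2) ℤ)ˣ where
  val := !![1, 1; 0, 1]
  inv := !![1, -1; 0, 1]
  val_inv := by ext i j; fin_cases i <;> fin_cases j <;> simp
  inv_val := by ext i j; fin_cases i <;> fin_cases j <;> simp

/-- the lower triangular matrix -/
def B : (Matrix (Fin 2) (Fin 2) ℤ)ˣ where
  val := !![1, 0; 1, 1]
  inv := !![1, 0; -1, 1]
  val_inv := by ext i j; fin_cases i <;> fin_cases j <;> simp
  inv_val := by ext i j; fin_cases i <;> fin_cases j <;> simp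

theorem A_pow (m : ℕ) : ((A ^ m : (Matrix (Fin 2) (Fin 2) ℤ)ˣ) : Matrix (Fin 2) (Fin 2) ℤ) =
    !![1, (m : ℤ); 0, 1] := by
  induction m with
  | zero =>
    ext i j
    fin_cases i <;> fin_cases j <;> simp
  | succ m ih =>
    rw [pow_succ, Units.val_mul, ih]
    change !![1, (m : ℤ); 0, 1] * !![1, 1; 0, 1] = _
    ext i j
    fin_cases i <;> fin_cases j <;> simp [add_comm]

theorem B_pow (m : ℕ) : ((B ^ m : (Matrix (Fin 2) (Fin 2) ℤ)ˣ) : Matrix (Fin 2) (Fin 2) ℤ) =
    !![1, 0; (m : ℤ), 1] := by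
  induction m with
  | zero =>
    ext i j
    fin_cases i <;> fin_cases j <;> simp
  | succ m ih =>
    rw [pow_succ, Units.val_mul, ih]
    change !![1, 0; (m : ℤ), 1] * !![1, 0; 1, 1] = _
    ext i j
    fin_cases i <;> fin_cases j <;> simp

theorem not_comm {m k : ℕ} (hm : 0 < m) (hk : 0 < k) : A ^ m * B ^ k ≠ B ^ k * A ^ m := by
  intro h
  have h1 := congrArg (fun u : (Matrix (Fin 2) (Fin 2) ℤ)ˣ => (u : Matrix (Fin 2) (Fin 2) ℤ)) h
  rw [Units.val_mul, Units.val_mul, A_pow, B_pow] at h1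
  have h2 := congrFun (congrFun h1 0) 0
  simp at h2
  omega

end FreeVN

theorem t_freevn (h : S_free.{u}) (α : Type u) [Nontrivial α] :
    ¬ Group.IsVirtuallyNilpotent (FreeGroup α) := by
  classical
  rintro ⟨H, hN, hfin⟩
  have := hN
  have : IsFreeGroup H := subgroupIsFreeOfIsFree H
  obtain ⟨a, b, hab⟩ := exists_pair_ne α
  have hsub : Subsingleton (IsFreeGroup.Generators H) := by
    rw [← not_nontrivial_iff_subsingleton]
    intro hnt
    exact (h (IsFreeGroup.Generators H)).2 hnt
      (Group.nilpotent_of_mulEquiv (IsFreeGroup.toFreeGroup H))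
  have hcomm : ∀ x y : H, x * y = y * x := by
    intro x y
    apply (IsFreeGroup.toFreeGroup H).injective
    rw [map_mul, map_mul]
    exact FreeVN.comm_of_subsingleton _ _
  obtain ⟨m, hm, -, hma⟩ := Subgroup.exists_pow_mem_of_index_ne_zero hfin.index_ne_zero
    (FreeGroup.of a)
  obtain ⟨k, hk, -, hkb⟩ := Subgroup.exists_pow_mem_of_index_ne_zero hfin.index_ne_zero
    (FreeGroup.of b)
  have h1 : FreeGroup.of a ^ m * FreeGroup.of b ^ k = FreeGroup.of b ^ k * FreeGroup.of a ^ m :=
    congrArg Subtype.val (hcomm ⟨_, hma⟩ ⟨_, hkb⟩)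
  have h2 := congrArg (FreeGroup.lift fun i : α => if i = a then FreeVN.A else FreeVN.B) h1
  rw [map_mul, map_mul, map_pow, map_pow, FreeGroup.lift_apply_of, FreeGroup.lift_apply_of,
    if_pos rfl, if_neg hab.symm] at h2
  exact FreeVN.not_comm hm hk h2

end Pool.Agent.H827.RN
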