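import Pool.Agent.H827.RN.Defs

/-!
# Project RN: the action on the lower central quotients modulo `p`-th powers
-/

set_option autoImplicit false

open Subgroup
open scoped commutatorElement

universe u v

namespace Pool.Agent.H827.RN

namespace Lcs

variable {G : Type u} [Group G]

theorem comm_mem {k : ℕ} {a : G} (ha : a ∈ L G k) (g : G) : ⁅a, g⁆ ∈ L G (k + 1) :=
  Subgroup.commutator_mem_commutator ha (Subgroup.mem_top g)

instance L_normal (k : ℕ) : (L G k).Normal := by
  unfold L
  infer_instance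

theorem L_anti (k : ℕ) : L G (k + 1) ≤ L G k :=
  Subgroup.lowerCentralSeries_antitone _ (Nat.le_succ k)

/-- products of `p`-th powers of elements of `L k` -/
def Cp (G : Type u) [Group G] (p k : ℕ) : Subgroup G :=
  Subgroup.closure {x | ∃ y ∈ L G k, x = y ^ p}

/-- products of `p`-th powers of elements of `L k` and elements of `L (k + 1)` -/
def Pw (G : Type u) [Group G] (p k : ℕ) : Subgroup G := Cp G p k ⊔ L G (k + 1)

theorem pow_mem_Cp {p k : ℕ} {y : G} (hy : y ∈ L G k) : y ^ p ∈ Cp G p k :=
  Subgroup.subset_closure ⟨y, hy, rfl⟩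

instance Cp_normal (p k : ℕ) : (Cp G p k).Normal := by
  constructor
  intro n hn g
  unfold Cp at hn
  induction hn using Subgroup.closure_induction with
  | mem x hx =>
    obtain ⟨y, hy, rfl⟩ := hx
    have h1 : g * y ^ p * g⁻¹ = (g * y * g⁻¹) ^ p := (conj_pow).symm
    rw [h1]
    exact pow_mem_Cp ((L_normal k).conj_mem y hy g)
  | one =>
    rw [mul_one, mul_inv_cancel]
    exact one_mem _
  | mul x y _ _ hx hy =>
    have h1 : g * (x * y) * g⁻¹ = (g * x * g⁻¹) * (g * y * g⁻¹) := by group
    rw [h1]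
    exact mul_mem hx hy
  | inv x _ hx =>
    have h1 : g * x⁻¹ * g⁻¹ = (g * x * g⁻¹)⁻¹ := by group
    rw [h1]
    exact inv_mem hx

instance Pw_normal (p k : ℕ) : (Pw G p k).Normal := by
  unfold Pw
  infer_instance

theorem Cp_le (p k : ℕ) : Cp G p k ≤ L G k := by
  unfold Cp
  rw [Subgroup.closure_le]
  rintro _ ⟨y, hy, rfl⟩
  exact pow_mem hy p

theorem Pw_le (p k : ℕ) : Pw G p k ≤ L G k := sup_le (Cp_le p k) (L_anti k)

theorem PC_le (p : ℕ) : PC G p ≤ Pw G p 0 := by
  unfold PC Pw Cp
  refine sup_le_sup (Subgroup.closure_mono ?_) (le_of_eq ?_)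
  · rintro _ ⟨w, rfl⟩
    exact ⟨w, Subgroup.mem_top w, rfl⟩
  · exact (Subgroup.top_lowerCentralSeries_one (G := G)).symm

theorem main (θ : G →* G) (p : ℕ) (h0 : ∀ x : G, x⁻¹ * θ x ∈ PC G p) (k : ℕ) :
    ∀ b ∈ L G k, b⁻¹ * θ b ∈ Pw G p k := by
  induction k with
  | zero => exact fun b _ => PC_le p (h0 b)
  | succ k ih =>
    obtain ⟨π, hπ⟩ : ∃ π : G →* G ⧸ Pw G p (k + 1), π = QuotientGroup.mk' (Pw G p (k + 1)) :=
      ⟨_, rfl⟩
    have hker : ∀ x ∈ Pw G p (k + 1), π x = 1 := by
      intro x hx
      rw [hπ, QuotientGroup.mk'_apply, QuotientGroup.eq_one_iff]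
      exact hx
    have hC : ∀ z ∈ L G (k + 1), ∀ x : G, π z * π x = π x * π z := by
      intro z hz x
      rw [← commutatorElement_eq_one_iff_mul_comm, ← map_commutatorElement]
      exact hker _ (le_sup_right (a := Cp G p (k + 1)) (comm_mem hz x))
    have hP : ∀ z ∈ L G (k + 1), π z ^ p = 1 := by
      intro z hz
      rw [← map_pow]
      exact hker _ (le_sup_left (b := L G (k + 1 + 1)) (pow_mem_Cp hz))
    -- the commutator in the second variable
    have hR : ∀ a ∈ L G k, ∃ φ : G →* G ⧸ Pw G p (k + 1), (∀ g, φ g = π ⁅a, g⁆) ∧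
        ∀ q ∈ PC G p, φ q = 1 := by
      intro a ha
      have hmul : ∀ g h : G, π ⁅a, g * h⁆ = π ⁅a, g⁆ * π ⁅a, h⁆ := by
        intro g h
        have e : ⁅a, g * h⁆ = ⁅a, g⁆ * (g * ⁅a, h⁆ * g⁻¹) := by
          simp only [commutatorElement_def]
          group
        rw [e, map_mul, map_mul, map_mul, ← hC _ (comm_mem ha h) g, map_inv,
          mul_inv_cancel_right]
      refine ⟨MonoidHom.mk' (fun g => π ⁅a, g⁆) hmul, fun g => rfl, ?_⟩
      have hle : PC G p ≤ (MonoidHom.mk' (fun g => π ⁅a, g⁆) hmul).ker := by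
        unfold PC
        refine sup_le ?_ ?_
        · rw [Subgroup.closure_le]
          rintro _ ⟨w, rfl⟩
          show (MonoidHom.mk' (fun g => π ⁅a, g⁆) hmul) (w ^ p) = 1
          rw [map_pow]
          exact hP _ (comm_mem ha w)
        · rw [_root_.commutator_def, Subgroup.commutator_le]
          intro x _ y _
          show (MonoidHom.mk' (fun g => π ⁅a, g⁆) hmul) ⁅x, y⁆ = 1
          rw [map_commutatorElement, commutatorElement_eq_one_iff_mul_comm]
          exact hC _ (comm_mem ha x) _
      intro q hq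
      exact hle hq
    -- the commutator in the first variable
    have hS : ∀ g : G, ∀ q ∈ Pw G p k, π ⁅q, g⁆ = 1 := by
      intro g
      let S : Subgroup G :=
        { carrier := {q | π ⁅q, g⁆ = 1}
          mul_mem' := by
            intro x y hx hy
            show π ⁅x * y, g⁆ = 1
            have hx' : π ⁅x, g⁆ = 1 := hx
            have hy' : π ⁅y, g⁆ = 1 := hy
            have e : ⁅x * y, g⁆ = x * ⁅y, g⁆ * x⁻¹ * ⁅x, g⁆ := by
              simp only [commutatorElement_def]
              group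
            rw [e, map_mul, map_mul, map_mul, hx', hy', mul_one, mul_one, map_inv,
              mul_inv_cancel]
          one_mem' := by
            show π ⁅(1 : G), g⁆ = 1
            rw [commutatorElement_one_left, map_one]
          inv_mem' := by
            intro x hx
            show π ⁅x⁻¹, g⁆ = 1
            have hx' : π ⁅x, g⁆ = 1 := hx
            have e : ⁅x⁻¹, g⁆ = x⁻¹ * ⁅x, g⁆⁻¹ * x := by
              simp only [commutatorElement_def]
              group
            rw [e, map_mul, map_mul, map_inv π ⁅x, g⁆, hx', inv_one, mul_one, map_inv,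
              inv_mul_cancel] }
      have hle : Pw G p k ≤ S := by
        refine sup_le ?_ ?_
        · unfold Cp
          rw [Subgroup.closure_le]
          rintro _ ⟨y, hy, rfl⟩
          show π ⁅y ^ p, g⁆ = 1
          have h1 : ∀ n : ℕ, π ⁅y ^ n, g⁆ = π ⁅y, g⁆ ^ n := by
            intro n
            induction n with
            | zero => rw [pow_zero, pow_zero, commutatorElement_one_left, map_one]
            | succ n ihn =>
              have e : ⁅y ^ (n + 1), g⁆ = y ^ n * ⁅y, g⁆ * (y ^ n)⁻¹ * ⁅y ^ n, g⁆ := by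
                simp only [commutatorElement_def, pow_succ]
                group
              rw [e, map_mul, map_mul, map_mul, ← hC _ (comm_mem hy g) (y ^ n), map_inv,
                mul_inv_cancel_right, ihn, pow_succ']
          rw [h1]
          exact hP _ (comm_mem hy g)
        · intro l hl
          show π ⁅l, g⁆ = 1
          exact hker _ (le_sup_right (a := Cp G p (k + 1)) (comm_mem hl g))
      exact fun q hq => hle hq
    -- the two homomorphisms agree
    have hE : L G (k + 1) ≤ (π.comp θ).eqLocus π := by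
      show ⁅L G k, (⊤ : Subgroup G)⁆ ≤ (π.comp θ).eqLocus π
      rw [Subgroup.commutator_le]
      intro a ha g _
      show π (θ ⁅a, g⁆) = π ⁅a, g⁆
      rw [map_commutatorElement]
      have hq := ih a ha
      have hθa : θ a ∈ L G k := by
        have h1 := mul_mem ha (Pw_le p k hq)
        rwa [mul_inv_cancel_left] at h1
      obtain ⟨φ, hφ, hφ'⟩ := hR (θ a) hθa
      have e1 : θ g = g * (g⁻¹ * θ g) := by group
      have e2 : π ⁅θ a, θ g⁆ = π ⁅θ a, g⁆ := by
        rw [← hφ, ← hφ, e1, map_mul, hφ' _ (h0 g), mul_one]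
      rw [e2]
      have e3 : ⁅θ a, g⁆ = a * ⁅a⁻¹ * θ a, g⁆ * a⁻¹ * ⁅a, g⁆ := by
        simp only [commutatorElement_def]
        group
      rw [e3, map_mul, map_mul, map_mul, hS g _ hq, mul_one, map_inv, mul_inv_cancel, one_mul]
    intro b hb
    have h1 : π (θ b) = π b := hE hb
    rw [hπ, QuotientGroup.mk'_apply, QuotientGroup.mk'_apply] at h1
    exact QuotientGroup.eq.1 h1.symm

end Lcs

theorem t_lcs : S_lcs.{u} := by
  intro G _ θ p h0 k hk b hb
  have h1 := Lcs.main θ p h0 k b hb
  have hcen : ∀ y ∈ L G k, ∀ g : G, y * g = g * y := by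
    intro y hy g
    rw [← commutatorElement_eq_one_iff_mul_comm]
    have h2 := Lcs.comm_mem hy g
    rw [hk] at h2
    exact Subgroup.mem_bot.1 h2
  unfold Lcs.Pw at h1
  rw [hk, sup_bot_eq] at h1
  have h2 : ∀ x ∈ Lcs.Cp G p k, ∃ c ∈ L G k, x = c ^ p := by
    intro x hx
    unfold Lcs.Cp at hx
    induction hx using Subgroup.closure_induction with
    | mem x hx => exact hx
    | one => exact ⟨1, one_mem _, (one_pow p).symm⟩
    | mul x y _ _ hx hy =>
      obtain ⟨c, hc, rfl⟩ := hx
      obtain ⟨d, hd, rfl⟩ := hy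
      refine ⟨c * d, mul_mem hc hd, ?_⟩
      exact ((Commute.mul_pow (show Commute c d from hcen c hc d)) p).symm
    | inv x _ hx =>
      obtain ⟨c, hc, rfl⟩ := hx
      exact ⟨c⁻¹, inv_mem hc, (inv_pow c p).symm⟩
  obtain ⟨c, hc, e⟩ := h2 _ h1
  refine ⟨c, hc, ?_⟩
  have h3 : θ b = b * c ^ p := by
    rw [← e, mul_inv_cancel_left]
  rw [h3, hcen b hb, mul_inv_cancel_right]

end Pool.Agent.H827.RN
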