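import Pool.Agent.H827.RN.Defs

/-!
# TASK nonsurj: Nakayama for finitely generated torsion-free commutative groups (helper803)
-/

set_option autoImplicit false

open Subgroup

universe u

namespace Pool.Agent.H827.RN

namespace Nonsurj

/-- The commutative version. -/
theorem comm_version (A : Type u) [AddCommGroup A] [Module.Finite ℤ A] (D : A →ₗ[ℤ] A)
    (hD : Function.Surjective D) (B : Submodule ℤ A) (p : ℕ) (hp : 2 ≤ p)
    (hB : ∀ b ∈ B, ∃ c ∈ B, D b = (p : ℤ) • c)
    (htf : ∀ (x : A) (m : ℕ), 0 < m → m • x = 0 → x = 0) : B = ⊥ := by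
  have hBB : B ≤ B.comap D := by
    intro b hb
    obtain ⟨c, hc, h⟩ := hB b hb
    show D b ∈ B
    rw [h]
    exact B.smul_mem _ hc
  set Q : (A ⧸ B) →ₗ[ℤ] (A ⧸ B) := B.mapQ B D hBB with hQ
  have hQs : Function.Surjective Q := by
    intro y
    obtain ⟨a, rfl⟩ := B.mkQ_surjective y
    obtain ⟨k, rfl⟩ := hD a
    exact ⟨B.mkQ k, by simp [hQ]⟩
  have hQi : Function.Injective Q := OrzechProperty.injective_of_surjective_endomorphism Q hQs
  have hback : ∀ k : A, D k ∈ B → k ∈ B := by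
    intro k hk
    have h1 : Q (B.mkQ k) = 0 := by
      simp only [hQ, Submodule.mapQ_apply, Submodule.mkQ_apply]
      exact (Submodule.Quotient.mk_eq_zero B).2 hk
    have h2 : B.mkQ k = 0 := hQi (by rw [h1, map_zero])
    rw [Submodule.mkQ_apply] at h2
    exact (Submodule.Quotient.mk_eq_zero B).1 h2
  haveI : IsNoetherian ℤ A := isNoetherian_of_isNoetherianRing_of_finite ℤ A
  have hfg : B.FG := IsNoetherian.noetherian B
  have hle : B ≤ (Ideal.span {(p : ℤ)}) • B := by
    intro b hb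
    obtain ⟨k, rfl⟩ := hD b
    obtain ⟨c, hc, h⟩ := hB k (hback k hb)
    rw [h]
    exact Submodule.smul_mem_smul (Ideal.mem_span_singleton_self _) hc
  obtain ⟨r, hr, hr0⟩ := Submodule.exists_sub_one_mem_and_smul_eq_zero_of_fg_of_le_smul _ B hfg hle
  rw [Ideal.mem_span_singleton] at hr
  have hrne : r ≠ 0 := by
    rintro rfl
    rw [zero_sub, dvd_neg] at hr
    have := Int.le_of_dvd one_pos hr
    omega
  rw [eq_bot_iff]
  intro b hb
  have h1 := hr0 b hb
  rw [Submodule.mem_bot]
  apply htf b r.natAbs (Int.natAbs_pos.2 hrne)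
  rcases Int.natAbs_eq r with h | h
  · rw [h] at h1
    rwa [natCast_zsmul] at h1
  · rw [h] at h1
    rw [neg_smul, neg_eq_zero, natCast_zsmul] at h1
    exact h1

end Nonsurj

theorem t_nonsurj : S_nonsurj.{u} := by
  intro G _ θ K B p hp hKc hKfg hTF hBK hBne hB hθ
  by_contra hcon
  push Not at hcon
  apply hBne
  letI : CommGroup K := { (inferInstance : Group K) with
    mul_comm := fun a b => Subtype.ext ((Subgroup.mem_center_iff.1 (hKc b.2) a.1)) }
  haveI : Group.FG K := (Group.fg_iff_subgroup_fg K).2 hKfg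
  haveI : AddGroup.FG (Additive K) := inferInstance
  haveI : Module.Finite ℤ (Additive K) := Module.Finite.iff_addGroup_fg.2 inferInstance
  let D0 : K →* K :=
    { toFun := fun k => ⟨θ k * (k : G)⁻¹, K.mul_mem (hθ _ k.2) (K.inv_mem k.2)⟩
      map_one' := by ext; simp
      map_mul' := by
        intro a b
        ext
        simp only [Subgroup.coe_mul, map_mul, mul_inv_rev]
        have h1 : ∀ g : G, g * (a : G)⁻¹ = (a : G)⁻¹ * g := fun g =>
          Subgroup.mem_center_iff.1 (hKc (K.inv_mem a.2)) g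
        have h2 : (b : G)⁻¹ * (a : G)⁻¹ = (a : G)⁻¹ * (b : G)⁻¹ := h1 _
        rw [h2]
        have h3 : θ (b : G) * (a : G)⁻¹ = (a : G)⁻¹ * θ (b : G) := h1 _
        calc θ (a : G) * θ (b : G) * ((a : G)⁻¹ * (b : G)⁻¹) = θ (a : G) * (θ (b : G) * (a : G)⁻¹) * (b : G)⁻¹ := by group
          _ = θ (a : G) * ((a : G)⁻¹ * θ (b : G)) * (b : G)⁻¹ := by rw [h3]
          _ = _ := by group }
  let D : Additive K →ₗ[ℤ] Additive K := (MonoidHom.toAdditive D0).toIntLinearMap
  let B' : Submodule ℤ (Additive K) := AddSubgroup.toIntSubmodule (Subgroup.toAddSubgroup (B.subgroupOf K))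
  have hmem : ∀ x : Additive K, x ∈ B' ↔ ((Additive.toMul x : K) : G) ∈ B := fun x => Iff.rfl
  have key : B' = ⊥ := by
    apply Nonsurj.comm_version (Additive K) D ?_ B' p hp ?_ ?_
    · intro y
      obtain ⟨g, hg, h⟩ := hcon (Additive.toMul y : K) (Additive.toMul y : K).2
      exact ⟨Additive.ofMul ⟨g, hg⟩, Subtype.ext h⟩
    · intro b hb
      obtain ⟨c, hc, h⟩ := hB _ ((hmem b).1 hb)
      refine ⟨Additive.ofMul ⟨c, hBK hc⟩, hc, ?_⟩
      rw [natCast_zsmul]
      exact Subtype.ext h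
    · intro x m hm hx
      have h1 : ((Additive.toMul x : K) : G) ^ m = 1 := congrArg (fun z : Additive K => ((Additive.toMul z : K) : G)) hx
      exact Subtype.ext (hTF _ m hm h1)
  rw [eq_bot_iff]
  intro b hb
  have h1 : (Additive.ofMul (⟨b, hBK hb⟩ : K)) ∈ B' := hb
  rw [key, Submodule.mem_bot] at h1
  exact congrArg (fun z : Additive K => ((Additive.toMul z : K) : G)) h1

end Pool.Agent.H827.RN
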