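import Pool.Agent.H827.RN.Defs

set_option autoImplicit false

open Subgroup
open scoped commutatorElement

universe u

namespace Pool.Agent.H827.RN

namespace Pow

variable {G : Type u} [Group G]

theorem comm_le (p : ℕ) : commutator G ≤ PC G p := le_sup_right

theorem pow_mem (p : ℕ) (w : G) : w ^ p ∈ PC G p :=
  (le_sup_left : Subgroup.closure (Set.range (fun w : G => w ^ p)) ≤ PC G p)
    (Subgroup.subset_closure ⟨w, rfl⟩)

theorem pc_normal (p : ℕ) : (PC G p).Normal := by
  refine ⟨fun n hn g => ?_⟩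
  have h1 : ⁅g, n⁆ ∈ PC G p := comm_le p (by
    rw [_root_.commutator_def]
    exact Subgroup.commutator_mem_commutator (Subgroup.mem_top _) (Subgroup.mem_top _))
  have h2 : g * n * g⁻¹ = ⁅g, n⁆ * n := by
    rw [commutatorElement_def]
    group
  rw [h2]
  exact mul_mem h1 hn

theorem pc_map (p : ℕ) (f : G →* G) : PC G p ≤ (PC G p).comap f := by
  refine sup_le ?_ ?_
  · rw [Subgroup.closure_le]
    rintro _ ⟨w, rfl⟩
    change f (w ^ p) ∈ PC G p
    rw [map_pow]
    exact pow_mem p _
  · rw [_root_.commutator_def, Subgroup.commutator_le]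
    intro g _ h _
    rw [Subgroup.mem_comap, map_commutatorElement]
    exact comm_le p (by
      rw [_root_.commutator_def]
      exact Subgroup.commutator_mem_commutator (Subgroup.mem_top _) (Subgroup.mem_top _))

end Pow

theorem t_pow : S_pow.{u} := by
  intro G _ _ φ p hp
  have hN : (PC G p).Normal := Pow.pc_normal p
  have hcomm : ∀ a b : G ⧸ PC G p, a * b = b * a := by
    intro a b
    obtain ⟨x, rfl⟩ := QuotientGroup.mk_surjective a
    obtain ⟨y, rfl⟩ := QuotientGroup.mk_surjective b
    rw [← QuotientGroup.mk_mul, ← QuotientGroup.mk_mul, QuotientGroup.eq]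
    refine Pow.comm_le p ?_
    have h1 : (x * y)⁻¹ * (y * x) = ⁅y⁻¹, x⁻¹⁆ := by
      rw [commutatorElement_def]
      group
    rw [h1, _root_.commutator_def]
    exact Subgroup.commutator_mem_commutator (Subgroup.mem_top _) (Subgroup.mem_top _)
  have hfg : Group.FG (G ⧸ PC G p) := QuotientGroup.fg _
  have hpow : ∀ a : G ⧸ PC G p, a ^ p = 1 := by
    intro a
    obtain ⟨x, rfl⟩ := QuotientGroup.mk_surjective a
    rw [← QuotientGroup.mk_pow, QuotientGroup.eq_one_iff]
    exact Pow.pow_mem p x
  have hfin : Finite (G ⧸ PC G p) := by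
    let _ : CommGroup (G ⧸ PC G p) := { (inferInstance : Group (G ⧸ PC G p)) with mul_comm := hcomm }
    refine CommGroup.finite_of_fg_isMulTorsion _ fun a => ?_
    rw [isOfFinOrder_iff_pow_eq_one]
    exact ⟨p, hp, hpow a⟩
  let f : G ⧸ PC G p →* G ⧸ PC G p := QuotientGroup.map _ _ φ.toMonoidHom (Pow.pc_map p _)
  have hf : ∀ x : G, f (QuotientGroup.mk x) = QuotientGroup.mk (φ x) := fun x => rfl
  have hsurj : Function.Surjective f := by
    intro a
    obtain ⟨x, rfl⟩ := QuotientGroup.mk_surjective a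
    exact ⟨QuotientGroup.mk (φ.symm x), by rw [hf, MulEquiv.apply_symm_apply]⟩
  have hbij : Function.Bijective f := Function.Surjective.bijective_of_finite hsurj
  let e : Equiv.Perm (G ⧸ PC G p) := Equiv.ofBijective f hbij
  refine ⟨orderOf e, orderOf_pos e, fun x => ?_⟩
  have h1 : ∀ (n : ℕ) (x : G), f^[n] (QuotientGroup.mk x) = QuotientGroup.mk (φ^[n] x) := by
    intro n
    induction n with
    | zero => intro x; rfl
    | succ n ih => intro x; rw [Function.iterate_succ_apply, Function.iterate_succ_apply, hf, ih]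
  have h2 : f^[orderOf e] (QuotientGroup.mk x) = QuotientGroup.mk x := by
    have h3 : (⇑e)^[orderOf e] = ⇑(e ^ orderOf e) := Equiv.Perm.iterate_eq_pow e _
    have h4 : (⇑e)^[orderOf e] (QuotientGroup.mk x) = QuotientGroup.mk x := by
      rw [h3, pow_orderOf_eq_one]
      rfl
    exact h4
  rw [← QuotientGroup.eq, ← h1, h2]

end Pool.Agent.H827.RN
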