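import Pool.Agent.H827.RN.Defs

/-!
# Stabilisers stay trivial in a central extension (TASK stab)
-/

set_option autoImplicit false

universe u

namespace Pool.Agent.H827.RN.Stab

theorem inj_of_finite_coker (A : Type u) [CommGroup A] (D : A →* A) (hfg : Group.FG A)
    (htf : ∀ (x : A) (m : ℕ), 0 < m → x ^ m = 1 → x = 1) (hfin : Finite (A ⧸ D.range)) :
    ∀ x, D x = 1 → x = 1 := by
  have hF : Module.Finite ℤ (Additive A) := Module.Finite.iff_addGroup_fg.2 inferInstance
  have hidx : D.range.index ≠ 0 := Subgroup.index_ne_zero_of_finite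
  set n := D.range.index with hn
  have hn0 : 0 < n := Nat.pos_of_ne_zero hidx
  have hpow : ∀ x : A, x ^ n ∈ D.range := fun x => Subgroup.pow_index_mem D.range x
  have htf1 : IsMulTorsionFree A := by
    constructor
    intro m hm x y hxy
    have h1 : (x * y⁻¹) ^ m = 1 := by
      rw [mul_pow, inv_pow]
      simp only at hxy
      rw [hxy, mul_inv_cancel]
    exact mul_inv_eq_one.1 (htf _ m (Nat.pos_of_ne_zero hm) h1)
  have htorsion : Module.IsTorsionFree ℤ (Additive A) := inferInstance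
  set DL : Additive A →ₗ[ℤ] Additive A := (MonoidHom.toAdditive D).toIntLinearMap with hDL
  let φ : Additive A →ₗ[ℤ] LinearMap.range DL :=
    LinearMap.codRestrict _ ((n : ℤ) • LinearMap.id) (by
      intro x
      obtain ⟨y, hy⟩ := hpow (Additive.toMul x)
      refine ⟨Additive.ofMul y, ?_⟩
      have h1 : DL (Additive.ofMul y) = Additive.ofMul (D y) := rfl
      rw [h1, hy]
      rw [ofMul_pow, ofMul_toMul, LinearMap.smul_apply, LinearMap.id_apply, natCast_zsmul])
  have hφ : Function.Injective φ := by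
    intro x y hxy
    have h1 : (n : ℤ) • x = (n : ℤ) • y := congrArg Subtype.val hxy
    have h2 : (n : ℤ) ≠ 0 := by exact_mod_cast hidx
    exact smul_right_injective _ h2 h1
  have hfr : Module.finrank ℤ (Additive A) ≤ Module.finrank ℤ (LinearMap.range DL) :=
    LinearMap.finrank_le_finrank_of_injective hφ
  have hrk := LinearMap.rank_range_add_rank_ker DL
  rw [← Module.finrank_eq_rank, ← Module.finrank_eq_rank, ← Module.finrank_eq_rank] at hrk
  have hrk' : Module.finrank ℤ (LinearMap.range DL) + Module.finrank ℤ (LinearMap.ker DL) =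
      Module.finrank ℤ (Additive A) := by exact_mod_cast hrk
  have hker : Module.finrank ℤ (LinearMap.ker DL) = 0 := by omega
  have hbot := Submodule.finrank_eq_zero.1 hker
  intro x hx
  have h1 : Additive.ofMul x ∈ LinearMap.ker DL := by
    rw [LinearMap.mem_ker]
    show Additive.ofMul (D x) = 0
    rw [hx]
    rfl
  rw [hbot, Submodule.mem_bot] at h1
  exact h1

end Pool.Agent.H827.RN.Stab

namespace Pool.Agent.H827.RN

theorem t_stab : S_stab.{u} := by
  intro G H _ _ π θ θ' hcomm hcent hNS hfg htf ⟨s, hs⟩ x g hx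
  have h1 : π g = 1 := by
    apply hNS (π x) (π g)
    rw [← hcomm, ← map_mul, ← map_inv, ← map_mul, hx]
  have hc : ∀ k : G, π k = 1 → ∀ y : G, y * k = k * y := fun k hk y =>
    Subgroup.mem_center_iff.1 (hcent k hk) y
  have hinv : ∀ k : G, π k = 1 → π k⁻¹ = 1 := fun k hk => by rw [map_inv, hk, inv_one]
  have h2 : θ g * g⁻¹ = 1 := by
    have h3 : θ g * g⁻¹ * x = x := by
      rw [mul_assoc, ← hc g⁻¹ (hinv g h1) x, ← mul_assoc]
      exact hx
    exact mul_eq_right.1 h3
  let _ : CommGroup π.ker :=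
    { (inferInstance : Group π.ker) with
      mul_comm := fun a b => Subtype.ext (hc b.1 b.2 a.1) }
  have hker : ∀ k : G, π k = 1 → π (θ k * k⁻¹) = 1 := fun k hk => by
    rw [map_mul, hcomm, hk, map_one, one_mul, hinv k hk]
  let D : π.ker →* π.ker :=
    { toFun := fun k => ⟨θ k.1 * k.1⁻¹, hker k.1 k.2⟩
      map_one' := by
        apply Subtype.ext
        show θ 1 * (1 : G)⁻¹ = 1
        rw [map_one, inv_one, mul_one]
      map_mul' := fun a b => by
        apply Subtype.ext
        show θ (a.1 * b.1) * (a.1 * b.1)⁻¹ = θ a.1 * a.1⁻¹ * (θ b.1 * b.1⁻¹)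
        rw [map_mul, mul_inv_rev, mul_assoc (θ a.1), mul_assoc (θ a.1),
          ← hc a.1⁻¹ (hinv a.1 a.2) (θ b.1 * b.1⁻¹), mul_assoc (θ b.1)] }
  have hfgA : Group.FG π.ker := (Group.fg_iff_subgroup_fg _).2 hfg
  have htfA : ∀ (y : π.ker) (m : ℕ), 0 < m → y ^ m = 1 → y = 1 := fun y m hm h => by
    apply Subtype.ext
    exact htf y.1 m hm (congrArg Subtype.val h)
  have hfin : Finite (π.ker ⧸ D.range) := by
    have hsf : Finite {a : G // a ∈ s ∧ π a = 1} :=
      (s.finite_toSet.subset (fun a (ha : a ∈ s ∧ π a = 1) => ha.1)).to_subtype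
    refine Finite.of_surjective
      (fun a : {a : G // a ∈ s ∧ π a = 1} => (QuotientGroup.mk (⟨a.1, a.2.2⟩ : π.ker) : π.ker ⧸ D.range)) ?_
    intro q
    obtain ⟨k, rfl⟩ := QuotientGroup.mk_surjective q
    obtain ⟨a, ha, y, hpa, hpy, hk⟩ := hs k.1 k.2
    refine ⟨⟨a, ha, hpa⟩, ?_⟩
    rw [QuotientGroup.eq]
    refine ⟨⟨y, hpy⟩, ?_⟩
    apply Subtype.ext
    show θ y * y⁻¹ = a⁻¹ * k.1
    rw [hk, inv_mul_cancel_left]
  have h5 := Stab.inj_of_finite_coker π.ker D hfgA htfA hfin ⟨g, h1⟩ (Subtype.ext h2)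
  exact congrArg Subtype.val h5

end Pool.Agent.H827.RN
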