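import Pool.Agent.H827.RN.Defs

/-!
# Project RN, task twfi (helper685): twisted classes in a normal subgroup of finite index
-/

set_option autoImplicit false

open Subgroup

universe u

namespace Pool.Agent.H827.RN

namespace Twfi

theorem tw_equiv {G : Type*} [Group G] (θ : G →* G) : Equivalence (Tw θ) where
  refl x := ⟨1, by simp⟩
  symm := by
    rintro x y ⟨g, rfl⟩
    refine ⟨g⁻¹, ?_⟩
    rw [map_inv]
    group
  trans := by
    rintro x y z ⟨g, rfl⟩ ⟨h, rfl⟩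
    refine ⟨h * g, ?_⟩
    rw [map_mul]
    group

theorem tw_of_mk {G : Type*} [Group G] (θ : G →* G) {x y : G}
    (h : Quot.mk (Tw θ) x = Quot.mk (Tw θ) y) : Tw θ x y :=
  (tw_equiv θ).eqvGen_iff.1 (Quot.eqvGen_exact h)

end Twfi

open Twfi in
theorem t_twfi : S_twfi.{u} := by
  intro Γ _ N θ θ' hN hfi hθ hfin
  have h1 : ∀ y : N, ∃ g : Γ, (y : Γ) = θ g * (Quot.mk (Tw θ) (y : Γ)).out * g⁻¹ := fun y =>
    tw_of_mk θ (Quot.out_eq (Quot.mk (Tw θ) (y : Γ)))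
  choose g hg using h1
  have h2 : ∀ y y' : N, Quot.mk (Tw θ) (y : Γ) = Quot.mk (Tw θ) (y' : Γ) →
      (g y : Γ ⧸ N) = (g y' : Γ ⧸ N) → Quot.mk (Tw θ') y = Quot.mk (Tw θ') y' := by
    intro y y' hc hq
    apply Quot.sound
    have h3 : (g y)⁻¹ * g y' ∈ N := QuotientGroup.eq.1 hq
    have h4 : g y' * (g y)⁻¹ ∈ N := by
      have h5 := hN.conj_mem _ h3 (g y)
      have h6 : g y * ((g y)⁻¹ * g y') * (g y)⁻¹ = g y' * (g y)⁻¹ := by group
      rwa [h6] at h5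
    refine ⟨⟨g y' * (g y)⁻¹, h4⟩, ?_⟩
    apply Subtype.ext
    have h7 := hg y'
    rw [← hc] at h7
    have h8 : ((θ' ⟨g y' * (g y)⁻¹, h4⟩ * y * (⟨g y' * (g y)⁻¹, h4⟩ : N)⁻¹ : N) : Γ) =
        θ (g y' * (g y)⁻¹) * y * (g y' * (g y)⁻¹)⁻¹ := by
      rw [Subgroup.coe_mul, Subgroup.coe_mul, hθ, Subgroup.coe_inv]
    have key : ∀ a b r : Γ, θ (b * a⁻¹) * (θ a * r * a⁻¹) * (b * a⁻¹)⁻¹ = θ b * r * b⁻¹ := by
      intro a b r
      rw [map_mul, map_inv]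
      group
    have h9 := key (g y) (g y') (Quot.mk (Tw θ) (y : Γ)).out
    rw [← hg y] at h9
    rw [h8, h9]
    exact h7
  have : Finite (Quot (Tw θ) × (Γ ⧸ N)) := inferInstance
  refine Finite.of_injective (fun q : Quot (Tw θ') =>
    ((Quot.mk (Tw θ) (q.out : Γ), (g q.out : Γ ⧸ N)) : Quot (Tw θ) × (Γ ⧸ N))) ?_
  intro q q' hqq
  have h3 := congrArg Prod.fst hqq
  have h4 := congrArg Prod.snd hqq
  have h5 := h2 q.out q'.out h3 h4
  rwa [Quot.out_eq, Quot.out_eq] at h5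

end Pool.Agent.H827.RN
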