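import Pool.Agent.H827.RN.Core
import Pool.Agent.H827.RN.Count
import Pool.Agent.H827.RN.Stab
import Pool.Agent.H827.RN.Nonsurj
import Pool.Agent.H827.RN.Lcs
import Pool.Agent.H827.RN.Chain
import Pool.Agent.H827.RN.Pow
import Pool.Agent.H827.RN.Fi
import Pool.Agent.H827.RN.Twfi
import Pool.Agent.H827.RN.FreeVN

/-!
# Finite Reidemeister numbers and residually torsion-free nilpotent quotients
-/

set_option autoImplicit false

open Subgroup

universe u v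

namespace Pool.Agent.H827.RN

/-- the iterates of an endomorphism, as homomorphisms -/
def it {G : Type u} [Group G] (φ : G ≃* G) (n : ℕ) : G →* G where
  toFun := φ^[n]
  map_one' := iterate_map_one φ n
  map_mul' := iterate_map_mul φ n

theorem it_apply {G : Type u} [Group G] (φ : G ≃* G) (n : ℕ) (x : G) : it φ n x = φ^[n] x := rfl

/-- residually torsion-free nilpotent quotients of `G`, with the bound of the class -/
theorem quot_class {G : Type u} [Group G] [Group.FG G] (θ : G →* G) (p : ℕ) (hp : 2 ≤ p)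
    (hθ : ∀ x : G, x⁻¹ * θ x ∈ PC G p) [hfin : Finite (Quot (Tw θ))]
    (N : Subgroup G) [N.Normal] (hR : RTFN (G ⧸ N)) :
    Group.IsNilpotent (G ⧸ N) ∧ 2 ^ Group.nilpotencyClass (G ⧸ N) ≤ Nat.card (Quot (Tw θ)) := by
  obtain ⟨c, hc, hcard⟩ := core t_count t_stab t_nonsurj t_lcs t_chain G θ p hp hθ
  have h1 := quot_nilpotent t_chain (QuotientGroup.mk' N) (QuotientGroup.mk'_surjective N) hc hR
  exact ⟨nilpotent_of_L h1, (Nat.pow_le_pow_right (by norm_num) (class_le_of_L h1)).trans hcard⟩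

/-- quotients of subgroups of finite index -/
theorem virt_quot {Γ : Type u} [Group Γ] [Group.FG Γ] (φ : Γ ≃* Γ)
    (hR : ∀ n : ℕ, 1 ≤ n → Finite (Quot (Tw (it φ n))))
    (Γ₁ : Subgroup Γ) (hΓ₁ : Γ₁.FiniteIndex) {Q : Type u} [Group Q] (π : Γ₁ →* Q)
    (hπ : Function.Surjective π) (h : RTFN Q) : Group.IsVirtuallyNilpotent Q := by
  obtain ⟨Γ₂, hΓ₂, hle, hchar⟩ := t_fi Γ Γ₁ hΓ₁
  have hfgΓ₂ : Group.FG Γ₂ := inferInstance
  have hmap : ∀ x : Γ, x ∈ Γ₂ → φ x ∈ Γ₂ := by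
    intro x hx
    have := Subgroup.characteristic_iff_le_comap.1 hchar φ
    exact this hx
  have hmap' : ∀ x : Γ, x ∈ Γ₂ → φ.symm x ∈ Γ₂ := by
    intro x hx
    have := Subgroup.characteristic_iff_le_comap.1 hchar φ.symm
    exact this hx
  let φ₂ : Γ₂ ≃* Γ₂ :=
    { toFun := fun x => ⟨φ (x : Γ), hmap x x.2⟩
      invFun := fun x => ⟨φ.symm (x : Γ), hmap' x x.2⟩
      left_inv := fun x => Subtype.ext (φ.symm_apply_apply (x : Γ))
      right_inv := fun x => Subtype.ext (φ.apply_symm_apply (x : Γ))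
      map_mul' := fun x y => Subtype.ext (map_mul φ (x : Γ) (y : Γ)) }
  have hcoe : ∀ (n : ℕ) (x : Γ₂), ((φ₂^[n] x : Γ₂) : Γ) = (φ^[n] : Γ → Γ) (x : Γ) := by
    intro n
    induction n with
    | zero => intro x; rfl
    | succ n ih =>
      intro x
      rw [Function.iterate_succ_apply, Function.iterate_succ_apply, ih]
      rfl
  obtain ⟨n, hn, hpc⟩ := t_pow Γ₂ φ₂ 2 (by norm_num)
  have hfin : Finite (Quot (Tw (it φ₂ n))) :=
    t_twfi Γ Γ₂ (it φ n) (it φ₂ n) inferInstance hΓ₂ (fun x => hcoe n x) (hR n hn)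
  obtain ⟨c, hc, -⟩ := core t_count t_stab t_nonsurj t_lcs t_chain Γ₂ (it φ₂ n) 2 le_rfl hpc
  let j : Γ₂ →* Q := π.comp (Subgroup.inclusion hle)
  have h1 : L j.range c = ⊥ :=
    quot_nilpotent t_chain j.rangeRestrict j.rangeRestrict_surjective hc
      (RTFN_of_injective j.range.subtype Subtype.val_injective h)
  refine ⟨j.range, nilpotent_of_L h1, ?_⟩
  have h2 : j.range = (Γ₂.subgroupOf Γ₁).map π := by
    ext q
    constructor
    · rintro ⟨x, rfl⟩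
      exact ⟨⟨x, hle x.2⟩, Subgroup.mem_subgroupOf.2 x.2, rfl⟩
    · rintro ⟨x, hx, rfl⟩
      exact ⟨⟨x, Subgroup.mem_subgroupOf.1 hx⟩, rfl⟩
  rw [h2]
  have h3 : (Γ₂.subgroupOf Γ₁).FiniteIndex := inferInstance
  refine ⟨fun h0 => ?_⟩
  have h4 := Subgroup.index_map_dvd (Γ₂.subgroupOf Γ₁) hπ
  rw [h0, zero_dvd_iff] at h4
  exact h3.index_ne_zero h4

/-- no surjection onto a nonabelian free group -/
theorem not_large (hfree : S_free.{u}) {Γ : Type u} [Group Γ] [Group.FG Γ] (φ : Γ ≃* Γ)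
    (hR : ∀ n : ℕ, 1 ≤ n → Finite (Quot (Tw (it φ n))))
    (Γ₁ : Subgroup Γ) (hΓ₁ : Γ₁.FiniteIndex) (π : Γ₁ →* FreeGroup (Fin 2)) :
    ¬ Function.Surjective π := by
  intro hπ
  let e : FreeGroup (Fin 2) ≃* FreeGroup (ULift.{u} (Fin 2)) :=
    FreeGroup.freeGroupCongr Equiv.ulift.symm
  have h1 := virt_quot φ hR Γ₁ hΓ₁ (e.toMonoidHom.comp π) (e.surjective.comp hπ)
    (hfree (ULift.{u} (Fin 2))).1
  exact t_freevn hfree (ULift.{u} (Fin 2)) h1

theorem vn_of_fi {Γ : Type u} [Group Γ] (Γ₁ : Subgroup Γ) (hΓ₁ : Γ₁.FiniteIndex)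
    (h : Group.IsVirtuallyNilpotent Γ₁) : Group.IsVirtuallyNilpotent Γ := by
  obtain ⟨N, hN, hNf⟩ := h
  refine ⟨N.map Γ₁.subtype, ?_, ?_⟩
  · exact (Group.isNilpotent_congr (N.equivMapOfInjective Γ₁.subtype Γ₁.subtype_injective)).1 hN
  · refine ⟨?_⟩
    rw [Subgroup.index_map_subtype]
    exact mul_ne_zero hNf.index_ne_zero hΓ₁.index_ne_zero

/-- subgroups of finite index -/
theorem virt {Γ : Type u} [Group Γ] [Group.FG Γ] (φ : Γ ≃* Γ)
    (hR : ∀ n : ℕ, 1 ≤ n → Finite (Quot (Tw (it φ n))))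
    (Γ₁ : Subgroup Γ) (hΓ₁ : Γ₁.FiniteIndex) (h : RTFN Γ₁) : Group.IsVirtuallyNilpotent Γ :=
  vn_of_fi Γ₁ hΓ₁ (virt_quot φ hR Γ₁ hΓ₁ (MonoidHom.id Γ₁) Function.surjective_id h)

end Pool.Agent.H827.RN
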