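import Pool.Agent.H827.RN.Defs3

/-!
# Linear algebra of matrices without bounded full orbits (project RN, task lin)
-/

set_option autoImplicit false

open Set Filter Topology

universe u v

namespace Pool.Agent.H827.RN

namespace Lin

theorem seq0 {r : ℝ} (hr0 : 0 ≤ r) (hr : r < 1) {a b : ℕ → ℝ} (ha : ∀ n, 0 ≤ a n)
    (hb : Tendsto b atTop (𝓝 0)) (h : ∀ n, a (n + 1) ≤ r * a n + b n) :
    Tendsto a atTop (𝓝 0) := by
  rw [Metric.tendsto_atTop]
  intro ε hε
  have hr1 : 0 < 1 - r := by linarith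
  obtain ⟨N, hN⟩ := (Metric.tendsto_atTop.1 hb) (ε * (1 - r) / 2) (by positivity)
  have h1 : ∀ m, a (N + m) ≤ r ^ m * a N + ε / 2 := by
    intro m
    induction m with
    | zero => simp only [Nat.add_zero, pow_zero, one_mul]; linarith
    | succ m ih =>
      have h2 := h (N + m)
      have h3 := hN (N + m) (by omega)
      rw [Real.dist_eq, sub_zero] at h3
      have h4 := (abs_lt.1 h3).2
      have h5 : r * a (N + m) ≤ r * (r ^ m * a N + ε / 2) := mul_le_mul_of_nonneg_left ih hr0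
      have h6 : r * (r ^ m * a N + ε / 2) = r ^ (m + 1) * a N + r * (ε / 2) := by ring
      rw [← add_assoc]
      nlinarith
  have h2 : Tendsto (fun m : ℕ => r ^ m * a N) atTop (𝓝 0) := by
    simpa using (tendsto_pow_atTop_nhds_zero_of_lt_one hr0 hr).mul_const (a N)
  obtain ⟨m0, hm0⟩ := (Metric.tendsto_atTop.1 h2) (ε / 2) (by positivity)
  refine ⟨N + m0, fun n hn => ?_⟩
  obtain ⟨m, rfl⟩ : ∃ m, n = N + m := ⟨n - N, by omega⟩
  have h3 := hm0 m (by omega)
  rw [Real.dist_eq, sub_zero] at h3 ⊢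
  rw [abs_of_nonneg (ha _)]
  have h4 := (abs_lt.1 h3).2
  have h5 := h1 m
  linarith

/-- the vectors which are contracted -/
def zs {K E H : Type*} [NontriviallyNormedField K] [NormedAddCommGroup E] [NormedSpace K E]
    [NormedAddCommGroup H] [NormedSpace K H] (f : ℕ → E →ₗ[K] H) : Submodule K E where
  carrier := {v | Tendsto (fun n => f n v) atTop (𝓝 0)}
  add_mem' := by
    intro a b ha hb
    have := Tendsto.add (show Tendsto (fun n => f n a) atTop (𝓝 0) from ha)
      (show Tendsto (fun n => f n b) atTop (𝓝 0) from hb)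
    simpa using this
  zero_mem' := by simp
  smul_mem' := by
    intro c a ha
    have := Tendsto.const_smul (show Tendsto (fun n => f n a) atTop (𝓝 0) from ha) c
    simpa using this

theorem mem_zs {K E H : Type*} [NontriviallyNormedField K] [NormedAddCommGroup E] [NormedSpace K E]
    [NormedAddCommGroup H] [NormedSpace K H] {f : ℕ → E →ₗ[K] H} {v : E} :
    v ∈ zs f ↔ Tendsto (fun n => f n v) atTop (𝓝 0) := Iff.rfl

section cx

variable {E : Type*} [NormedAddCommGroup E] [NormedSpace ℂ E]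

theorem gen_lt (T : Module.End ℂ E) (μ : ℂ) (hμ : ‖μ‖ < 1) (j : ℕ) : ∀ v : E,
    ((T - μ • (1 : Module.End ℂ E)) ^ j) v = 0 → Tendsto (fun n => (T ^ n) v) atTop (𝓝 0) := by
  induction j with
  | zero =>
    intro v hv
    have hv0 : v = 0 := by simpa using hv
    rw [hv0]
    simp
  | succ j ih =>
    intro v hv
    rw [pow_succ, Module.End.mul_apply] at hv
    have h1 := ih _ hv
    rw [tendsto_zero_iff_norm_tendsto_zero] at h1 ⊢
    refine seq0 (norm_nonneg μ) hμ (fun n => norm_nonneg _) h1 fun n => ?_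
    have e : T v = (T - μ • (1 : Module.End ℂ E)) v + μ • v := by simp
    have e2 : (T ^ (n + 1)) v = μ • (T ^ n) v + (T ^ n) ((T - μ • (1 : Module.End ℂ E)) v) := by
      rw [pow_succ, Module.End.mul_apply]
      conv_lhs => rw [e]
      rw [map_add, map_smul, add_comm]
    rw [e2]
    exact (norm_add_le _ _).trans (by rw [norm_smul])

theorem gen_gt (T T' : Module.End ℂ E) (hT : ∀ v, T' (T v) = v) (μ : ℂ) (hμ : 1 < ‖μ‖) (j : ℕ) :
    ∀ v : E, ((T - μ • (1 : Module.End ℂ E)) ^ j) v = 0 →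
      Tendsto (fun n => (T' ^ n) v) atTop (𝓝 0) := by
  have hμ0 : μ ≠ 0 := by
    rintro rfl
    rw [norm_zero] at hμ
    linarith
  induction j with
  | zero =>
    intro v hv
    have hv0 : v = 0 := by simpa using hv
    rw [hv0]
    simp
  | succ j ih =>
    intro v hv
    rw [pow_succ, Module.End.mul_apply] at hv
    have h1 := ih _ hv
    have h1' := (tendsto_add_atTop_iff_nat 1).2 h1
    rw [tendsto_zero_iff_norm_tendsto_zero] at h1' ⊢
    have h2 := h1'.const_mul ‖μ⁻¹‖
    rw [mul_zero] at h2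
    have hi : ‖μ⁻¹‖ < 1 := by
      rw [norm_inv]
      exact inv_lt_one_of_one_lt₀ hμ
    refine seq0 (norm_nonneg μ⁻¹) hi (fun n => norm_nonneg _) h2 fun n => ?_
    set w := (T - μ • (1 : Module.End ℂ E)) v with hw
    have e : T v = w + μ • v := by rw [hw]; simp
    have e1 : T' v = μ⁻¹ • (v - T' w) := by
      have h3 := hT v
      rw [e, map_add, map_smul] at h3
      have h4 : μ • T' v = v - T' w := eq_sub_of_add_eq' h3
      rw [← h4, smul_smul, inv_mul_cancel₀ hμ0, one_smul]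
    have e2 : (T' ^ (n + 1)) v = μ⁻¹ • (T' ^ n) v - μ⁻¹ • (T' ^ (n + 1)) w := by
      rw [pow_succ, Module.End.mul_apply, Module.End.mul_apply]
      conv_lhs => rw [e1]
      rw [map_smul, map_sub, smul_sub]
    rw [e2]
    refine (norm_sub_le _ _).trans ?_
    rw [norm_smul, norm_smul]

theorem split [FiniteDimensional ℂ E] (T T' : Module.End ℂ E) (hT : ∀ v, T' (T v) = v)
    (h1 : ∀ μ : ℂ, ‖μ‖ = 1 → ¬ T.HasEigenvalue μ) (v : E) :
    ∃ s u : E, v = s + u ∧ Tendsto (fun n => (T ^ n) s) atTop (𝓝 0) ∧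
      Tendsto (fun n => (T' ^ n) u) atTop (𝓝 0) := by
  have htop : (⊤ : Submodule ℂ E) ≤ zs (fun n => T ^ n) ⊔ zs (fun n => T' ^ n) := by
    rw [← Module.End.iSup_maxGenEigenspace_eq_top T]
    refine iSup_le fun μ => ?_
    intro w hw
    obtain ⟨j, hj⟩ := (Module.End.mem_maxGenEigenspace T μ w).1 hw
    rcases lt_trichotomy ‖μ‖ 1 with h | h | h
    · exact Submodule.mem_sup_left (gen_lt T μ h j w hj)
    · have h2 : ∀ (j : ℕ) (w : E), ((T - μ • (1 : Module.End ℂ E)) ^ j) w = 0 → w = 0 := by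
        intro j
        induction j with
        | zero => intro w hw; simpa using hw
        | succ j ih =>
          intro w hw
          rw [pow_succ, Module.End.mul_apply] at hw
          have h3 := ih _ hw
          by_contra hne
          refine h1 μ h (Module.End.hasEigenvalue_of_hasEigenvector (x := w) ⟨?_, hne⟩)
          rw [Module.End.mem_eigenspace_iff]
          have h4 : T w - μ • w = 0 := by simpa using h3
          exact sub_eq_zero.1 h4
      rw [h2 j w hj]
      exact Submodule.zero_mem _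
    · exact Submodule.mem_sup_right (gen_gt T T' hT μ h j w hj)
  obtain ⟨s, hs, u, hu, hsu⟩ := Submodule.mem_sup.1 (htop (Submodule.mem_top (x := v)))
  exact ⟨s, u, hsu.symm, hs, hu⟩

end cx

theorem unif {F H : Type*} [NormedAddCommGroup F] [NormedSpace ℝ F] [FiniteDimensional ℝ F]
    [NormedAddCommGroup H] [NormedSpace ℝ H] (f : ℕ → F →ₗ[ℝ] H)
    (hf : ∀ v, Tendsto (fun n => f n v) atTop (𝓝 0)) {ε : ℝ} (hε : 0 < ε) :
    ∀ᶠ n in atTop, ∀ v, ‖f n v‖ ≤ ε * ‖v‖ := by
  obtain ⟨C, hC, hb⟩ := (Module.finBasis ℝ F).exists_opNorm_le (F := H)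
  have h1 : ∀ᶠ n in atTop, ∀ i, ‖f n (Module.finBasis ℝ F i)‖ ≤ ε / C := by
    rw [eventually_all]
    intro i
    have h2 := tendsto_zero_iff_norm_tendsto_zero.1 (hf (Module.finBasis ℝ F i))
    exact (h2.eventually (gt_mem_nhds (show (0 : ℝ) < ε / C by positivity))).mono
      fun n hn => hn.le
  filter_upwards [h1] with n hn v
  have h3 : ‖LinearMap.toContinuousLinearMap (f n)‖ ≤ C * (ε / C) :=
    hb (by positivity) fun i => hn i
  have h4 : C * (ε / C) = ε := by field_simp
  rw [h4] at h3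
  exact ((LinearMap.toContinuousLinearMap (f n)).le_opNorm v).trans
    (mul_le_mul_of_nonneg_right h3 (norm_nonneg _))

/-- real parts -/
def rp {k : ℕ} (v : Fin k → ℂ) : Fin k → ℝ := fun i => (v i).re

/-- imaginary parts -/
def ip {k : ℕ} (v : Fin k → ℂ) : Fin k → ℝ := fun i => (v i).im

theorem rp_norm {k : ℕ} (v : Fin k → ℂ) : ‖rp v‖ ≤ ‖v‖ := by
  rw [pi_norm_le_iff_of_nonneg (norm_nonneg _)]
  intro i
  exact (Complex.abs_re_le_norm (v i)).trans (norm_le_pi_norm v i)

theorem ip_norm {k : ℕ} (v : Fin k → ℂ) : ‖ip v‖ ≤ ‖v‖ := by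
  rw [pi_norm_le_iff_of_nonneg (norm_nonneg _)]
  intro i
  exact (Complex.abs_im_le_norm (v i)).trans (norm_le_pi_norm v i)

/-- the complex linear map -/
noncomputable def CT {k : ℕ} (A : Matrix (Fin k) (Fin k) ℤ) : Module.End ℂ (Fin k → ℂ) :=
  Matrix.toLin' (A.map (Int.castRingHom ℂ))

/-- the real linear map -/
noncomputable def RT {k : ℕ} (A : Matrix (Fin k) (Fin k) ℤ) : Module.End ℝ (Fin k → ℝ) :=
  Matrix.toLin' (A.map (Int.castRingHom ℝ))

theorem rp_CT {k : ℕ} (A : Matrix (Fin k) (Fin k) ℤ) (v : Fin k → ℂ) : rp (CT A v) = RT A (rp v) := by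
  funext i
  simp only [rp, CT, RT, Matrix.toLin'_apply, Matrix.mulVec, dotProduct, Matrix.map_apply,
    Complex.re_sum]
  refine Finset.sum_congr rfl fun j _ => ?_
  simp

theorem ip_CT {k : ℕ} (A : Matrix (Fin k) (Fin k) ℤ) (v : Fin k → ℂ) : ip (CT A v) = RT A (ip v) := by
  funext i
  simp only [ip, CT, RT, Matrix.toLin'_apply, Matrix.mulVec, dotProduct, Matrix.map_apply,
    Complex.im_sum]
  refine Finset.sum_congr rfl fun j _ => ?_
  simp

theorem rp_pow {k : ℕ} (A : Matrix (Fin k) (Fin k) ℤ) (n : ℕ) (v : Fin k → ℂ) :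
    rp ((CT A ^ n) v) = (RT A ^ n) (rp v) := by
  induction n with
  | zero => simp
  | succ n ih => rw [pow_succ', Module.End.mul_apply, rp_CT, ih, pow_succ', Module.End.mul_apply]

theorem ip_pow {k : ℕ} (A : Matrix (Fin k) (Fin k) ℤ) (n : ℕ) (v : Fin k → ℂ) :
    ip ((CT A ^ n) v) = (RT A ^ n) (ip v) := by
  induction n with
  | zero => simp
  | succ n ih => rw [pow_succ', Module.End.mul_apply, ip_CT, ih, pow_succ', Module.End.mul_apply]

theorem CT_mul {k : ℕ} {A B : Matrix (Fin k) (Fin k) ℤ} (h : A * B = 1) (v : Fin k → ℂ) :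
    CT A (CT B v) = v := by
  have h1 : A.map (Int.castRingHom ℂ) * B.map (Int.castRingHom ℂ) = 1 := by
    rw [← Matrix.map_mul, h, Matrix.map_one _ (map_zero _) (map_one _)]
  show Matrix.toLin' (A.map (Int.castRingHom ℂ)) (Matrix.toLin' (B.map (Int.castRingHom ℂ)) v) = v
  rw [← LinearMap.comp_apply, ← Matrix.toLin'_mul, h1, Matrix.toLin'_one]
  rfl

theorem RT_mul {k : ℕ} {A B : Matrix (Fin k) (Fin k) ℤ} (h : A * B = 1) (v : Fin k → ℝ) :
    RT A (RT B v) = v := by
  have h1 : A.map (Int.castRingHom ℝ) * B.map (Int.castRingHom ℝ) = 1 := by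
    rw [← Matrix.map_mul, h, Matrix.map_one _ (map_zero _) (map_one _)]
  show Matrix.toLin' (A.map (Int.castRingHom ℝ)) (Matrix.toLin' (B.map (Int.castRingHom ℝ)) v) = v
  rw [← LinearMap.comp_apply, ← Matrix.toLin'_mul, h1, Matrix.toLin'_one]
  rfl

theorem eig_pow {E : Type*} [NormedAddCommGroup E] [NormedSpace ℂ E] (T : Module.End ℂ E) {μ : ℂ} {v : E}
    (h : T v = μ • v) (n : ℕ) : (T ^ n) v = μ ^ n • v := by
  induction n with
  | zero => simp
  | succ n ih => rw [pow_succ, Module.End.mul_apply, h, map_smul, ih, smul_smul, pow_succ']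

end Lin

open Lin in
theorem t_lin : S_lin := by
  intro k A G hdet hG hbd
  -- the inverse matrix
  obtain ⟨B, hAB, hBA⟩ : ∃ B : Matrix (Fin k) (Fin k) ℤ, A * B = 1 ∧ B * A = 1 :=
    ⟨A⁻¹, Matrix.mul_nonsing_inv A hdet, Matrix.nonsing_inv_mul A hdet⟩
  have hGf : (G : (Fin k → ℝ) → (Fin k → ℝ)) = RT A := by
    funext y
    rw [hG]
    rfl
  have hGs : (G.symm : (Fin k → ℝ) → (Fin k → ℝ)) = RT B := by
    funext y
    rw [Homeomorph.symm_apply_eq, hGf, RT_mul hAB]
  have hit : ∀ (n : ℕ) (y : Fin k → ℝ), G^[n] y = (RT A ^ n) y := by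
    intro n y
    rw [Module.End.pow_apply, hGf]
  have hits : ∀ (n : ℕ) (y : Fin k → ℝ), G.symm^[n] y = (RT B ^ n) y := by
    intro n y
    rw [Module.End.pow_apply, hGs]
  have hd : ∀ (n : ℕ) (x y : Fin k → ℝ), dist (G^[n] x) (G^[n] y) = ‖(RT A ^ n) (x - y)‖ := by
    intro n x y
    rw [dist_eq_norm, hit, hit, map_sub]
  have hds : ∀ (n : ℕ) (x y : Fin k → ℝ), dist (G.symm^[n] x) (G.symm^[n] y) = ‖(RT B ^ n) (x - y)‖ := by
    intro n x y
    rw [dist_eq_norm, hits, hits, map_sub]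
  -- no eigenvalues of modulus one
  have heig : ∀ μ : ℂ, ‖μ‖ = 1 → ¬ (CT A).HasEigenvalue μ := by
    intro μ hμ hev
    obtain ⟨v, hv⟩ := hev.exists_hasEigenvector
    have hv1 : CT A v = μ • v := hv.apply_eq_smul
    have hμ0 : μ ≠ 0 := by
      rintro rfl
      rw [norm_zero] at hμ
      norm_num at hμ
    have hv2 : CT B v = μ⁻¹ • v := by
      have h1 := CT_mul hBA v
      rw [hv1, map_smul] at h1
      calc CT B v = μ⁻¹ • (μ • CT B v) := by rw [smul_smul, inv_mul_cancel₀ hμ0, one_smul]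
        _ = μ⁻¹ • v := by rw [h1]
    have hn1 : ∀ n : ℕ, ‖(CT A ^ n) v‖ = ‖v‖ := by
      intro n
      rw [eig_pow _ hv1, norm_smul, norm_pow, hμ, one_pow, one_mul]
    have hn2 : ∀ n : ℕ, ‖(CT B ^ n) v‖ = ‖v‖ := by
      intro n
      rw [eig_pow _ hv2, norm_smul, norm_pow, norm_inv, hμ, inv_one, one_pow, one_mul]
    have hr : rp v = 0 := by
      refine hbd _ ‖v‖ (fun n => ?_) fun n => ?_
      · rw [hit, ← rp_pow]
        exact (rp_norm _).trans (hn1 n).le
      · rw [hits, ← rp_pow]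
        exact (rp_norm _).trans (hn2 n).le
    have hi : ip v = 0 := by
      refine hbd _ ‖v‖ (fun n => ?_) fun n => ?_
      · rw [hit, ← ip_pow]
        exact (ip_norm _).trans (hn1 n).le
      · rw [hits, ← ip_pow]
        exact (ip_norm _).trans (hn2 n).le
    refine hv.2 (funext fun i => Complex.ext ?_ ?_)
    · exact congrFun hr i
    · exact congrFun hi i
  -- the splitting of real vectors
  have hsplit : ∀ v : Fin k → ℝ, ∃ s u : Fin k → ℝ, v = s + u ∧
      Tendsto (fun n => (RT A ^ n) s) atTop (𝓝 0) ∧ Tendsto (fun n => (RT B ^ n) u) atTop (𝓝 0) := by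
    intro v
    obtain ⟨s, u, hsu, hs, hu⟩ := split (CT A) (CT B) (CT_mul hBA) heig (fun i => (v i : ℂ))
    refine ⟨rp s, rp u, ?_, ?_, ?_⟩
    · funext i
      have := congrArg Complex.re (congrFun hsu i)
      simpa [rp] using this
    · rw [tendsto_zero_iff_norm_tendsto_zero] at hs ⊢
      refine squeeze_zero (fun n => norm_nonneg _) (fun n => ?_) hs
      rw [← rp_pow]
      exact rp_norm _
    · rw [tendsto_zero_iff_norm_tendsto_zero] at hu ⊢
      refine squeeze_zero (fun n => norm_nonneg _) (fun n => ?_) hu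
      rw [← rp_pow]
      exact rp_norm _
  refine ⟨?_, ?_, ?_⟩
  · intro μ hμ hroot
    refine heig μ hμ ?_
    rw [Module.End.hasEigenvalue_iff_isRoot_charpoly]
    have h2 : (CT A).charpoly = (A.map (Int.castRingHom ℂ)).charpoly := Matrix.charpoly_toLin' _
    rwa [h2]
  · have h1 := unif (F := zs (fun n => RT A ^ n)) (fun n => (RT A ^ n).domRestrict _)
      (fun v => v.2) (show (0 : ℝ) < 1 / 8 by norm_num)
    have h2 := unif (F := zs (fun n => RT B ^ n)) (fun n => (RT B ^ n).domRestrict _)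
      (fun v => v.2) (show (0 : ℝ) < 1 / 8 by norm_num)
    obtain ⟨N, hN1, hN2, hN⟩ := (h1.and (h2.and (eventually_ge_atTop 1))).exists
    refine ⟨N, hN, fun x y => ?_⟩
    rw [hd, hds, dist_eq_norm]
    obtain ⟨s, u, hsu, hs, hu⟩ := hsplit (x - y)
    rw [hsu]
    have hABn : ∀ (n : ℕ) (w : Fin k → ℝ), (RT A ^ n) ((RT B ^ n) w) = w := by
      intro n
      induction n with
      | zero => intro w; rfl
      | succ n ih =>
        intro w
        rw [pow_succ, pow_succ' (RT B), Module.End.mul_apply, Module.End.mul_apply, RT_mul hAB, ih]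
    have hBAn : ∀ (n : ℕ) (w : Fin k → ℝ), (RT B ^ n) ((RT A ^ n) w) = w := by
      intro n
      induction n with
      | zero => intro w; rfl
      | succ n ih =>
        intro w
        rw [pow_succ, pow_succ' (RT A), Module.End.mul_apply, Module.End.mul_apply, RT_mul hBA, ih]
    have a1 : ‖(RT A ^ N) s‖ ≤ 1 / 8 * ‖s‖ := hN1 ⟨s, hs⟩
    have a2 : ‖(RT B ^ N) u‖ ≤ 1 / 8 * ‖u‖ := hN2 ⟨u, hu⟩
    have b1 : ‖u‖ ≤ 1 / 8 * ‖(RT A ^ N) u‖ := by
      have hmem : Tendsto (fun n => (RT B ^ n) ((RT A ^ N) u)) atTop (𝓝 0) := by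
        rw [← tendsto_add_atTop_iff_nat N]
        refine hu.congr fun n => ?_
        rw [pow_add, Module.End.mul_apply, hBAn]
      have := hN2 ⟨(RT A ^ N) u, hmem⟩
      have e : ((RT B ^ N).domRestrict (zs fun n => RT B ^ n)) ⟨(RT A ^ N) u, hmem⟩ = u := hBAn N u
      rw [e] at this
      exact this
    have b2 : ‖s‖ ≤ 1 / 8 * ‖(RT B ^ N) s‖ := by
      have hmem : Tendsto (fun n => (RT A ^ n) ((RT B ^ N) s)) atTop (𝓝 0) := by
        rw [← tendsto_add_atTop_iff_nat N]
        refine hs.congr fun n => ?_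
        rw [pow_add, Module.End.mul_apply, hABn]
      have := hN1 ⟨(RT B ^ N) s, hmem⟩
      have e : ((RT A ^ N).domRestrict (zs fun n => RT A ^ n)) ⟨(RT B ^ N) s, hmem⟩ = s := hABn N s
      rw [e] at this
      exact this
    have c0 : ‖s + u‖ ≤ ‖s‖ + ‖u‖ := norm_add_le _ _
    have c1 : ‖(RT A ^ N) u‖ ≤ ‖(RT A ^ N) (s + u)‖ + ‖(RT A ^ N) s‖ := by
      have : (RT A ^ N) u = (RT A ^ N) (s + u) - (RT A ^ N) s := by rw [map_add]; abel
      rw [this]
      exact norm_sub_le _ _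
    have c2 : ‖(RT B ^ N) s‖ ≤ ‖(RT B ^ N) (s + u)‖ + ‖(RT B ^ N) u‖ := by
      have : (RT B ^ N) s = (RT B ^ N) (s + u) - (RT B ^ N) u := by rw [map_add]; abel
      rw [this]
      exact norm_sub_le _ _
    have p1 := norm_nonneg s
    have p2 := norm_nonneg u
    rcases le_total ‖s‖ ‖u‖ with h | h
    · exact le_max_of_le_left (by linarith)
    · exact le_max_of_le_right (by linarith)
  · intro x y
    obtain ⟨s, u, hsu, hs, hu⟩ := hsplit (y - x)
    refine ⟨x + s, ?_, ?_⟩
    · have h1 := tendsto_zero_iff_norm_tendsto_zero.1 hs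
      refine h1.congr fun n => ?_
      rw [hd, ← norm_neg, ← map_neg]
      congr 2
      abel
    · have h1 := tendsto_zero_iff_norm_tendsto_zero.1 hu
      refine h1.congr fun n => ?_
      rw [hds]
      congr 2
      have : y - (x + s) = (y - x) - s := by abel
      rw [this, hsu]
      abel

end Pool.Agent.H827.RN
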