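import Pool.Agent.H827.RN.Defs3

/-!
# TASK mat (project RN, owner helper827; by helper658)

Automorphisms of `ℤᵏ` are given by invertible integer matrices.
-/

set_option autoImplicit false

universe u

namespace Pool.Agent.H827.RN

namespace Mat

/-- the additive automorphism of `ℤᵏ` induced by `φ` through `e` -/
noncomputable def psi {Λ : Type u} [Group Λ] {k : ℕ} (e : Λ ≃* Multiplicative (Fin k → ℤ))
    (φ : Λ ≃* Λ) : (Fin k → ℤ) ≃+ (Fin k → ℤ) where
  toFun v := (e (φ (e.symm (Multiplicative.ofAdd v)))).toAdd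
  invFun v := (e (φ.symm (e.symm (Multiplicative.ofAdd v)))).toAdd
  left_inv v := by simp
  right_inv v := by simp
  map_add' v w := by simp

lemma psi_apply {Λ : Type u} [Group Λ] {k : ℕ} (e : Λ ≃* Multiplicative (Fin k → ℤ))
    (φ : Λ ≃* Λ) (γ : Λ) : psi e φ (e γ).toAdd = (e (φ γ)).toAdd := by
  simp [psi]

end Mat

open Mat

theorem t_mat : S_mat.{u} := by
  intro Λ _ k e φ
  let f : (Fin k → ℤ) ≃ₗ[ℤ] (Fin k → ℤ) := (psi e φ).toIntLinearEquiv
  refine ⟨LinearMap.toMatrix' f.toLinearMap, ?_, fun γ => ?_⟩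
  · have h1 : LinearMap.toMatrix' f.toLinearMap * LinearMap.toMatrix' f.symm.toLinearMap = 1 := by
      rw [← LinearMap.toMatrix'_comp]
      have : f.toLinearMap ∘ₗ f.symm.toLinearMap = LinearMap.id := by
        ext v
        simp
      rw [this, LinearMap.toMatrix'_id]
    have h2 := congrArg Matrix.det h1
    rw [Matrix.det_mul, Matrix.det_one] at h2
    exact IsUnit.of_mul_eq_one _ h2
  · rw [LinearMap.toMatrix'_mulVec]
    exact (psi_apply e φ γ).symm

end Pool.Agent.H827.RN
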