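import Pool.Agent.H827.RN.Defs3

/-!
# Coarse hyperbolicity passes to the matrix (project RN, task pt)
-/

set_option autoImplicit false

open Set Filter Topology

universe u

namespace Pool.Agent.H827.RN

namespace Pt

/-- the full orbit of `w` -/
lemma orbit {k : ℕ} (G : (Fin k → ℝ) ≃ₜ (Fin k → ℝ)) (w : Fin k → ℝ) (B : ℝ)
    (h1 : ∀ n : ℕ, ‖G^[n] w‖ ≤ B) (h2 : ∀ n : ℕ, ‖G.symm^[n] w‖ ≤ B) :
    ∃ u : ℤ → (Fin k → ℝ), u 0 = w ∧ (∀ n, G (u n) = u (n + 1)) ∧ ∀ n, ‖u n‖ ≤ B := by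
  refine ⟨fun n => match n with
    | Int.ofNat m => G^[m] w
    | Int.negSucc m => G.symm^[m + 1] w, rfl, ?_, ?_⟩
  · intro n
    match n with
    | Int.ofNat m =>
      show G (G^[m] w) = G^[m + 1] w
      rw [Function.iterate_succ_apply']
    | Int.negSucc 0 =>
      show G (G.symm^[1] w) = G^[0] w
      rw [Function.iterate_one, Homeomorph.apply_symm_apply, Function.iterate_zero, id]
    | Int.negSucc (m + 1) =>
      show G (G.symm^[m + 1 + 1] w) = G.symm^[m + 1] w
      rw [Function.iterate_succ_apply', Homeomorph.apply_symm_apply]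
  · intro n
    match n with
    | Int.ofNat m => exact h1 m
    | Int.negSucc m => exact h2 (m + 1)

/-- equivariant continuous maps are coarsely bounded -/
lemma coarse {Λ X : Type u} [Group Λ] [MetricSpace X] [ProperSpace X] [MulAction Λ X]
    [IsIsometricSMul Λ X] (x0 : X) (ψ : Λ → Λ) (H : X → X) (hH : Continuous H)
    (heq : ∀ (γ : Λ) (x : X), H (γ • x) = ψ γ • H x)
    (hc : ∃ a : ℝ, ∀ x : X, ∃ γ : Λ, dist x (γ • x0) ≤ a) (a : ℝ) :
    ∃ b : ℝ, ∀ x y : X, dist x y ≤ a → dist (H x) (H y) ≤ b := by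
  obtain ⟨a0, ha0⟩ := hc
  have hK : IsCompact (H '' Metric.closedBall x0 (a0 + a)) :=
    (isCompact_closedBall x0 (a0 + a)).image hH
  obtain ⟨b, hb⟩ := Metric.isBounded_iff.1 hK.isBounded
  refine ⟨b, fun x y hxy => ?_⟩
  obtain ⟨γ, hγ⟩ := ha0 x
  have e1 : dist (H (γ⁻¹ • x)) (H (γ⁻¹ • y)) = dist (H x) (H y) := by
    rw [heq, heq, dist_smul]
  rw [← e1]
  have ha : 0 ≤ a := dist_nonneg.trans hxy
  apply hb
  · refine ⟨_, ?_, rfl⟩
    rw [Metric.mem_closedBall]
    have h1 : dist (γ⁻¹ • x) x0 = dist x (γ • x0) := by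
      rw [← dist_smul γ (γ⁻¹ • x) x0, smul_inv_smul]
    rw [h1]
    linarith
  · refine ⟨_, ?_, rfl⟩
    rw [Metric.mem_closedBall]
    have h1 : dist (γ⁻¹ • y) x0 = dist y (γ • x0) := by
      rw [← dist_smul γ (γ⁻¹ • y) x0, smul_inv_smul]
    rw [h1]
    have h2 := dist_triangle y x (γ • x0)
    rw [dist_comm y x] at h2
    linarith

/-- pseudo-orbits stay near orbits for `N` steps -/
lemma iter {X : Type u} [MetricSpace X] (H : X → X)
    (hc : ∀ a : ℝ, ∃ b : ℝ, ∀ x y : X, dist x y ≤ a → dist (H x) (H y) ≤ b) (c : ℝ) (N : ℕ) :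
    ∃ b : ℝ, ∀ p : ℕ → X, (∀ i, dist (H (p i)) (p (i + 1)) ≤ c) →
      dist (H^[N] (p 0)) (p N) ≤ b := by
  induction N with
  | zero => exact ⟨0, fun p _ => by simp⟩
  | succ N ih =>
    obtain ⟨b, hb⟩ := ih
    obtain ⟨b', hb'⟩ := hc b
    refine ⟨b' + c, fun p hp => ?_⟩
    rw [Function.iterate_succ_apply']
    have h1 := hb' _ _ (hb p hp)
    have h2 := hp N
    have h3 := dist_triangle (H (H^[N] (p 0))) (H (p N)) (p (N + 1))
    linarith

/-- integer boxes are finite -/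
lemma box_fin {Λ : Type u} [Group Λ] {k : ℕ} (e : Λ ≃* Multiplicative (Fin k → ℤ)) (D : ℤ) :
    {γ : Λ | ∀ i, |(e γ).toAdd i| ≤ D}.Finite := by
  have h : (Set.Icc (fun _ : Fin k => -D) (fun _ => D)).Finite := Set.finite_Icc _ _
  refine Set.Finite.subset (h.preimage (f := fun γ : Λ => (e γ).toAdd) ?_) ?_
  · intro x _ y _ hxy
    exact e.injective (Multiplicative.toAdd.injective hxy)
  · intro γ hγ
    rw [mem_preimage, mem_Icc, Pi.le_def, Pi.le_def]
    exact ⟨fun i => (abs_le.1 (hγ i)).1, fun i => (abs_le.1 (hγ i)).2⟩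

/-- the supremum argument -/
lemma sup_bound (a : ℤ → ℝ) (M R c : ℝ) (N : ℕ) (hM : ∀ n, a n ≤ M)
    (h : ∀ n, R ≤ a n → 2 * a n ≤ max (a (n + N)) (a (n - N)) + c) : ∀ n, a n ≤ max R c := by
  have hb : BddAbove (Set.range a) := ⟨M, by rintro _ ⟨n, rfl⟩; exact hM n⟩
  have h1 : ∀ n, a n ≤ ⨆ n, a n := fun n => le_ciSup hb n
  have h2 : ⨆ n, a n ≤ max R (((⨆ n, a n) + c) / 2) := by
    apply ciSup_le
    intro n
    rcases lt_or_ge (a n) R with h3 | h3
    · exact h3.le.trans (le_max_left _ _)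
    · refine le_trans ?_ (le_max_right _ _)
      have h4 := h n h3
      have h5 : max (a (n + N)) (a (n - N)) ≤ ⨆ n, a n := max_le (h1 _) (h1 _)
      linarith
  intro n
  refine (h1 n).trans ?_
  rcases le_max_iff.1 h2 with h3 | h3
  · exact h3.trans (le_max_left _ _)
  · exact le_trans (by linarith) (le_max_right _ _)

end Pt

theorem t_pt : S_pt.{u} := by
  intro Λ X _ _ _ _ _ k e φ F A G x0 hF hA hG hcc hfin hCH w B hB1 hB2
  obtain ⟨N, hN, R, hR⟩ := hCH
  obtain ⟨u, hu0, hu1, huB⟩ := Pt.orbit G w B hB1 hB2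
  have hFs : ∀ (γ : Λ) (x : X), F.symm (γ • x) = φ.symm γ • F.symm x := by
    intro γ x
    apply F.injective
    rw [F.apply_symm_apply, hF, F.apply_symm_apply, MulEquiv.apply_symm_apply]
  have c1 := Pt.coarse x0 (fun γ => φ γ) F F.continuous hF hcc
  have c2 := Pt.coarse x0 (fun γ => φ.symm γ) F.symm F.symm.continuous hFs hcc
  obtain ⟨D, hD⟩ : ∃ D : ℤ, D = ∑ i, ∑ j, |A i j| + 1 := ⟨_, rfl⟩
  have hDr : (D : ℝ) = ∑ i, ∑ j, |(A i j : ℝ)| + 1 := by
    rw [hD]; push_cast; rfl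
  have hS0 : {γ : Λ | ∀ i, |(e γ).toAdd i| ≤ D}.Finite := Pt.box_fin e D
  obtain ⟨C1, hC1⟩ := (hS0.image fun δ => dist (δ • F x0) x0).bddAbove
  obtain ⟨C2, hC2⟩ := (hS0.image fun δ => dist (φ.symm δ⁻¹ • F.symm x0) x0).bddAbove
  obtain ⟨b1, hb1⟩ := Pt.iter F c1 (max C1 (dist (F x0) x0)) N
  obtain ⟨b2, hb2⟩ := Pt.iter F.symm c2 (max C2 (dist (F.symm x0) x0)) N
  have key : ∀ t : ℝ, dist (e.symm (Multiplicative.ofAdd (fun i => ⌊t * w i⌋)) • x0) x0 ≤
      max R (max (2 * b1) (2 * b2)) := by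
    intro t
    obtain ⟨z, hz⟩ : ∃ z : ℤ → Fin k → ℤ, ∀ n i, z n i = ⌊t * u n i⌋ :=
      ⟨fun n i => ⌊t * u n i⌋, fun _ _ => rfl⟩
    obtain ⟨g, hg⟩ : ∃ g : ℤ → Λ, ∀ n, g n = e.symm (Multiplicative.ofAdd (z n)) :=
      ⟨fun n => e.symm (Multiplicative.ofAdd (z n)), fun _ => rfl⟩
    have heg : ∀ n, (e (g n)).toAdd = z n := by
      intro n
      rw [hg, MulEquiv.apply_symm_apply, toAdd_ofAdd]
    have hδ : ∀ n, ∀ i, |(e ((g (n + 1))⁻¹ * φ (g n))).toAdd i| ≤ D := by
      intro n i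
      have e1 : (e ((g (n + 1))⁻¹ * φ (g n))).toAdd i = -(z (n + 1) i) + ∑ j, A i j * z n j := by
        rw [map_mul, map_inv, toAdd_mul, toAdd_inv, hA, heg, heg]
        rfl
      rw [e1]
      have e2 : u (n + 1) i = ∑ j, (A i j : ℝ) * u n j := by
        rw [← hu1, hG]; rfl
      have e3 : ((-(z (n + 1) i) + ∑ j, A i j * z n j : ℤ) : ℝ) =
          Int.fract (t * u (n + 1) i) - ∑ j, (A i j : ℝ) * Int.fract (t * u n j) := by
        have e4 : ∀ j, (A i j : ℝ) * Int.fract (t * u n j) =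
            t * ((A i j : ℝ) * u n j) - (A i j : ℝ) * (z n j : ℝ) := by
          intro j
          rw [hz, Int.fract]
          ring
        rw [Finset.sum_congr rfl fun j _ => e4 j, Finset.sum_sub_distrib, ← Finset.mul_sum, ← e2,
          Int.fract, hz (n + 1) i]
        push_cast
        ring
      have e5 : |((-(z (n + 1) i) + ∑ j, A i j * z n j : ℤ) : ℝ)| ≤ (D : ℝ) := by
        rw [e3]
        have f1 : |∑ j, (A i j : ℝ) * Int.fract (t * u n j)| ≤ ∑ j, |(A i j : ℝ)| := by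
          refine (Finset.abs_sum_le_sum_abs _ _).trans (Finset.sum_le_sum fun j _ => ?_)
          rw [abs_mul, abs_of_nonneg (Int.fract_nonneg (t * u n j))]
          exact mul_le_of_le_one_right (abs_nonneg _) (Int.fract_lt_one _).le
        have f2 : ∑ j, |(A i j : ℝ)| ≤ ∑ i, ∑ j, |(A i j : ℝ)| :=
          Finset.single_le_sum (f := fun i => ∑ j, |(A i j : ℝ)|)
            (fun i _ => Finset.sum_nonneg fun j _ => abs_nonneg _) (Finset.mem_univ i)
        have f3 : |Int.fract (t * u (n + 1) i)| ≤ 1 := by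
          rw [abs_of_nonneg (Int.fract_nonneg _)]
          exact (Int.fract_lt_one _).le
        have f4 := abs_sub (Int.fract (t * u (n + 1) i))
          (∑ j, (A i j : ℝ) * Int.fract (t * u n j))
        rw [hDr]
        linarith
      exact_mod_cast e5
    have hp1 : ∀ n, dist (F (g n • x0)) (g (n + 1) • x0) ≤ C1 := by
      intro n
      have h1 : dist (F (g n • x0)) (g (n + 1) • x0) =
          dist (((g (n + 1))⁻¹ * φ (g n)) • F x0) x0 := by
        rw [hF, ← dist_smul (g (n + 1))⁻¹ (φ (g n) • F x0) (g (n + 1) • x0), inv_smul_smul,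
          mul_smul]
      rw [h1]
      exact hC1 (mem_image_of_mem (fun δ => dist (δ • F x0) x0) (hδ n))
    have hp2 : ∀ n, dist (F.symm (g n • x0)) (g (n - 1) • x0) ≤ C2 := by
      intro n
      have h1 := hδ (n - 1)
      rw [sub_add_cancel] at h1
      have h3 : φ.symm ((g n)⁻¹ * φ (g (n - 1)))⁻¹ = (g (n - 1))⁻¹ * φ.symm (g n) := by
        rw [mul_inv_rev, inv_inv, map_mul, map_inv, φ.symm_apply_apply]
      have h2 : dist (F.symm (g n • x0)) (g (n - 1) • x0) =
          dist (φ.symm ((g n)⁻¹ * φ (g (n - 1)))⁻¹ • F.symm x0) x0 := by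
        rw [h3, hFs, ← dist_smul (g (n - 1))⁻¹ (φ.symm (g n) • F.symm x0) (g (n - 1) • x0),
          inv_smul_smul, mul_smul]
      rw [h2]
      exact hC2 (mem_image_of_mem (fun δ => dist (φ.symm δ⁻¹ • F.symm x0) x0) h1)
    obtain ⟨M, hM⟩ : ∃ M, ∀ n, dist (g n • x0) x0 ≤ M := by
      obtain ⟨D', hD'⟩ : ∃ D' : ℤ, D' = ⌈|t| * B⌉ + 1 := ⟨_, rfl⟩
      obtain ⟨M, hM⟩ := ((Pt.box_fin e D').image fun γ => dist (γ • x0) x0).bddAbove
      refine ⟨M, fun n => hM (mem_image_of_mem (fun γ => dist (γ • x0) x0) ?_)⟩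
      intro i
      rw [heg, hz]
      have h1 : |t * u n i| ≤ |t| * B := by
        rw [abs_mul]
        exact mul_le_mul_of_nonneg_left ((norm_le_pi_norm (u n) i).trans (huB n)) (abs_nonneg t)
      have h2 : |(⌊t * u n i⌋ : ℝ)| ≤ |t| * B + 1 := by
        have h3 := Int.floor_le (t * u n i)
        have h4 := Int.lt_floor_add_one (t * u n i)
        rw [abs_le] at h1 ⊢
        constructor <;> linarith [h1.1, h1.2]
      have h5 := Int.le_ceil (|t| * B)
      have h6 : |(⌊t * u n i⌋ : ℝ)| ≤ (D' : ℝ) := by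
        rw [hD']
        push_cast
        linarith
      exact_mod_cast h6
    have hfinal := Pt.sup_bound (fun n => dist (g n • x0) x0) M R (max (2 * b1) (2 * b2)) N hM ?_ 0
    · have h0 : g 0 = e.symm (Multiplicative.ofAdd (fun i => ⌊t * w i⌋)) := by
        rw [hg]
        congr 2
        funext i
        rw [hz, hu0]
      rw [← h0]
      exact hfinal
    · intro n hn
      have h1 := hR (g n • x0) x0 hn
      have h2 := hb1 (fun i => g (n + i) • x0) (fun i => by
        have := hp1 (n + i)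
        show dist (F (g (n + i) • x0)) (g (n + ((i + 1 : ℕ) : ℤ)) • x0) ≤ _
        rw [Nat.cast_add, Nat.cast_one, ← add_assoc]
        exact this.trans (le_max_left _ _))
      have h3 := hb1 (fun _ => x0) (fun _ => le_max_right _ _)
      have h4 := hb2 (fun i => g (n - i) • x0) (fun i => by
        have := hp2 (n - i)
        show dist (F.symm (g (n - i) • x0)) (g (n - ((i + 1 : ℕ) : ℤ)) • x0) ≤ _
        rw [Nat.cast_add, Nat.cast_one, ← sub_sub]
        exact this.trans (le_max_left _ _))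
      have h5 := hb2 (fun _ => x0) (fun _ => le_max_right _ _)
      simp only [Nat.cast_zero, add_zero, sub_zero] at h2 h4
      have h6 : dist (F^[N] (g n • x0)) (F^[N] x0) ≤ dist (g (n + N) • x0) x0 + 2 * b1 := by
        have k1 := dist_triangle4 (F^[N] (g n • x0)) (g (n + N) • x0) x0 (F^[N] x0)
        rw [dist_comm x0] at k1
        linarith
      have h7 : dist (F.symm^[N] (g n • x0)) (F.symm^[N] x0) ≤
          dist (g (n - N) • x0) x0 + 2 * b2 := by
        have k1 := dist_triangle4 (F.symm^[N] (g n • x0)) (g (n - N) • x0) x0 (F.symm^[N] x0)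
        rw [dist_comm x0] at k1
        linarith
      refine h1.trans (max_le (h6.trans ?_) (h7.trans ?_))
      · exact add_le_add (le_max_left _ _) (le_max_left _ _)
      · exact add_le_add (le_max_right _ _) (le_max_right _ _)
  by_contra hw
  obtain ⟨i, hi⟩ : ∃ i, w i ≠ 0 := by
    by_contra hcon
    push Not at hcon
    exact hw (funext hcon)
  have hinf : {γ : Λ | dist (γ • x0) x0 ≤ max R (max (2 * b1) (2 * b2))}.Infinite := by
    refine Set.infinite_of_injective_forall_mem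
      (f := fun m : ℕ => e.symm (Multiplicative.ofAdd (fun j => ⌊((m : ℝ) / w i) * w j⌋))) ?_
      (fun m => key ((m : ℝ) / w i))
    intro m m' hmm
    have h1 := congrFun (Multiplicative.ofAdd.injective (e.symm.injective hmm)) i
    simp only [div_mul_cancel₀ _ hi, Int.floor_natCast, Nat.cast_inj] at h1
    exact h1
  exact hinf (hfin _)

end Pool.Agent.H827.RN
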