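import Pool.Agent.H827.RN.Defs2

/-!
# Free groups are residually torsion-free nilpotent (project RN, helper827)

The Magnus type representation and the separation lemma `cf_sep` are copied from
`Pool/Graph/R_pool_sql_team_b88adf34/H9Lau/Magnus.lean`.
-/

set_option autoImplicit false

open Subgroup

universe u v

namespace Pool.Agent.H827.RN

namespace Free

section mag

open scoped Classical

variable {α : Type u}

/-- truncated left multiplication by a letter -/
noncomputable def Nop (a : α) (φ : List α → ℤ) : List α → ℤ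
  | [] => 0
  | b :: w => if b = a ∧ w.head? ≠ some a then φ w else 0

lemma Nop_nil (a : α) (φ : List α → ℤ) : Nop a φ [] = 0 := rfl

lemma Nop_cons (a b : α) (φ : List α → ℤ) (w : List α) : 
    Nop a φ (b :: w) = if b = a ∧ w.head? ≠ some a then φ w else 0 := rfl

lemma Nop_add (a : α) (φ ψ : List α → ℤ) : Nop a (φ + ψ) = Nop a φ + Nop a ψ := by
  ext w
  cases w with
  | nil => simp [Nop_nil]
  | cons b w => 
    simp only [Nop_cons, Pi.add_apply]
    split_ifs <;> simp

lemma Nop_sub (a : α) (φ ψ : List α → ℤ) : Nop a (φ - ψ) = Nop a φ - Nop a ψ := by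
  ext w
  cases w with
  | nil => simp [Nop_nil]
  | cons b w => 
    simp only [Nop_cons, Pi.sub_apply]
    split_ifs <;> simp

lemma Nop_Nop (a : α) (φ : List α → ℤ) : Nop a (Nop a φ) = 0 := by
  ext w
  cases w with
  | nil => simp [Nop_nil]
  | cons b w =>
    rw [Nop_cons]
    cases w with
    | nil => simp [Nop_nil]
    | cons x w =>
      rw [Nop_cons]
      by_cases h : b = a ∧ (x :: w).head? ≠ some a
      · rw [if_pos h, if_neg]
        · rfl
        · rintro ⟨h1, h2⟩
          apply h.2
          simp [h1]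
      · rw [if_neg h]; rfl

/-- action of a generator -/
noncomputable def Uop (a : α) : Equiv.Perm (List α → ℤ) where
  toFun φ := φ + Nop a φ
  invFun φ := φ - Nop a φ
  left_inv φ := by
    show (φ + Nop a φ) - Nop a (φ + Nop a φ) = φ
    rw [Nop_add, Nop_Nop]; simp
  right_inv φ := by
    show (φ - Nop a φ) + Nop a (φ - Nop a φ) = φ
    rw [Nop_sub, Nop_Nop]; simp

/-- the Magnus type action -/
noncomputable def rho : FreeGroup α →* Equiv.Perm (List α → ℤ) := FreeGroup.lift Uop

/-- sign -/
def sg (b : Bool) : ℤ := if b then 1 else -1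

lemma rho_cons (a : α) (b : Bool) (L : List (α × Bool)) (φ : List α → ℤ) (w : List α) :
    rho (FreeGroup.mk ((a, b) :: L)) φ w = 
      rho (FreeGroup.mk L) φ w + sg b * Nop a (rho (FreeGroup.mk L) φ) w := by
  have h1 : rho (FreeGroup.mk ((a, b) :: L)) φ = 
      (cond b (Uop a) (Uop a)⁻¹) (rho (FreeGroup.mk L) φ) := by
    unfold rho
    rw [FreeGroup.lift_mk, FreeGroup.lift_mk, List.map_cons, List.prod_cons]
    rfl
  rw [h1]
  cases b with
  | true => 
    show (rho (FreeGroup.mk L) φ + Nop a (rho (FreeGroup.mk L) φ)) w = _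
    simp [sg]
  | false =>
    show (rho (FreeGroup.mk L) φ - Nop a (rho (FreeGroup.mk L) φ)) w = _
    simp [sg, sub_eq_add_neg]

/-- delta at the empty word -/
noncomputable def dl : List α → ℤ := fun w => if w = [] then 1 else 0

lemma rho_nil (L : List (α × Bool)) (φ : List α → ℤ) : rho (FreeGroup.mk L) φ [] = φ [] := by
  induction L with
  | nil => rw [← FreeGroup.one_eq_mk, map_one]; rfl
  | cons p L ih =>
    obtain ⟨a, b⟩ := p
    rw [rho_cons, ih, Nop_nil]; simp

lemma rho_one (φ : List α → ℤ) (w : List α) : rho (FreeGroup.mk []) φ w = φ w := by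
  rw [← FreeGroup.one_eq_mk, map_one]; rfl

lemma chain_head (x : α) (w : List α) (h : (x :: w).IsChain (· ≠ ·)) : w.head? ≠ some x := by
  cases w with
  | nil => simp
  | cons y w =>
    rw [List.isChain_cons_cons] at h
    simp only [List.head?_cons, ne_eq, Option.some.injEq]
    exact fun h1 => h.1 h1.symm

lemma chain_tail (x : α) (w : List α) (h : (x :: w).IsChain (· ≠ ·)) : w.IsChain (· ≠ ·) := h.tail

lemma PF (L : List (α × Bool)) (φ : List α → ℤ) : ∀ (w : List α), w.IsChain (· ≠ ·) →
    rho (FreeGroup.mk L) φ w = ∑ i ∈ Finset.range (w.length + 1),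
      rho (FreeGroup.mk L) dl (w.take i) * φ (w.drop i) := by
  induction L with
  | nil =>
    intro w _
    rw [rho_one, Finset.sum_eq_single 0]
    · rw [rho_one]; simp [dl]
    · intro i hi hi0
      rw [rho_one]
      have : w.take i ≠ [] ∨ w = [] := by
        by_cases hw : w = []
        · right; exact hw
        · left
          intro h
          rw [List.take_eq_nil_iff] at h
          rcases h with h | h
          · exact hi0 h
          · exact hw h
      rcases this with h | h
      · simp [dl, h]
      · subst h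
        simp at hi
        exact absurd hi hi0
    · intro h; simp at h
  | cons p L ih =>
    obtain ⟨a, b⟩ := p
    intro w hw
    cases w with
    | nil => 
      rw [rho_nil]
      simp [rho_nil, dl]
    | cons x w =>
      rw [rho_cons, ih _ hw]
      simp only [rho_cons, add_mul]
      rw [Finset.sum_add_distrib]
      congr 1
      have hw' := chain_tail x w hw
      have hhd := chain_head x w hw
      rw [List.length_cons, Finset.sum_range_succ']
      simp only [List.take_succ_cons, List.drop_succ_cons, List.take_zero, Nop_nil, mul_zero, zero_mul,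
        add_zero]
      rw [Nop_cons]
      by_cases hx : x = a
      · subst hx
        rw [if_pos ⟨rfl, hhd⟩, ih _ hw', Finset.mul_sum]
        apply Finset.sum_congr rfl
        intro i _
        rw [Nop_cons, if_pos]
        · ring
        · refine ⟨rfl, ?_⟩
          cases i with
          | zero => simp
          | succ i =>
            cases w with
            | nil => simp
            | cons y w => simpa using hhd
      · rw [if_neg (fun h => hx h.1)]
        symm
        rw [mul_zero]
        apply Finset.sum_eq_zero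
        intro i _
        rw [Nop_cons, if_neg (fun h => hx h.1)]
        simp

/-- coefficient functions -/
noncomputable def cf (w : List α) (g : FreeGroup α) : ℤ := rho g dl w

lemma cf_nil (g : FreeGroup α) : cf [] g = 1 := by
  rw [cf, ← FreeGroup.mk_toWord (x := g), rho_nil]; simp [dl]

lemma cf_mul (w : List α) (hw : w.IsChain (· ≠ ·)) (g h : FreeGroup α) :
    cf w (g * h) = ∑ i ∈ Finset.range (w.length + 1), cf (w.take i) g * cf (w.drop i) h := by
  have h1 := PF (FreeGroup.toWord g) (rho h dl) w hw
  rw [FreeGroup.mk_toWord] at h1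
  rw [cf, map_mul]
  exact h1

lemma cf_add1 (w : List α) (hw : w.IsChain (· ≠ ·)) (hne : w ≠ []) (g : FreeGroup α)
    (hg : ∀ i, 0 < i → i < w.length → cf (w.take i) g = 0) (h : FreeGroup α) :
    cf w (g * h) = cf w g + cf w h := by
  rw [cf_mul w hw, Finset.sum_range_succ]
  have hl : 0 < w.length := List.length_pos_iff.2 hne
  rw [Finset.sum_eq_single 0]
  · rw [List.take_zero, List.drop_zero, List.take_length, List.drop_length, cf_nil, cf_nil]; ring
  · intro i hi hi0
    rw [hg i (Nat.pos_of_ne_zero hi0) (Finset.mem_range.1 hi), zero_mul]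
  · intro h0
    exact absurd (Finset.mem_range.2 hl) h0

lemma cf_add2 (w : List α) (hw : w.IsChain (· ≠ ·)) (hne : w ≠ []) (g : FreeGroup α)
    (hg : ∀ i, 0 < i → i < w.length → cf (w.drop i) g = 0) (h : FreeGroup α) :
    cf w (h * g) = cf w h + cf w g := by
  rw [cf_mul w hw, Finset.sum_range_succ]
  have hl : 0 < w.length := List.length_pos_iff.2 hne
  rw [Finset.sum_eq_single 0]
  · rw [List.take_zero, List.drop_zero, List.take_length, List.drop_length, cf_nil, cf_nil]; ring
  · intro i hi hi0
    rw [hg i (Nat.pos_of_ne_zero hi0) (Finset.mem_range.1 hi), mul_zero]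
  · intro h0
    exact absurd (Finset.mem_range.2 hl) h0

lemma sep_aux (L : List (α × Bool)) : ∀ (a : α) (b : Bool), FreeGroup.IsReduced ((a, b) :: L) →
    ∃ (v : List α) (n : ℕ), 1 ≤ n ∧ (a :: v).IsChain (· ≠ ·) ∧
      rho (FreeGroup.mk ((a, b) :: L)) dl (a :: v) = sg b * n * rho (FreeGroup.mk ((a, b) :: L)) dl v ∧
      rho (FreeGroup.mk ((a, b) :: L)) dl v ≠ 0 ∧
      ∀ w : List α, w.IsChain (· ≠ ·) →
        (v.length + 1 < w.length ∨ (v.length < w.length ∧ w.head? ≠ some a)) →
        rho (FreeGroup.mk ((a, b) :: L)) dl w = 0 := by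
  induction L with
  | nil =>
    intro a b _
    refine ⟨[], 1, le_rfl, by simp, ?_, ?_, ?_⟩
    · rw [rho_cons, rho_cons, rho_one, rho_one, Nop_cons, Nop_nil, rho_one]
      simp [dl]
    · rw [rho_nil]; simp [dl]
    · intro w hw hlen
      rw [rho_cons, rho_one]
      cases w with
      | nil => simp at hlen
      | cons x w =>
        rw [Nop_cons, rho_one]
        rcases hlen with h | ⟨_, h⟩
        · have hw0 : w ≠ [] := by rintro rfl; simp at h
          simp [dl, hw0]
        · have hx : x ≠ a := by simpa using h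
          simp [dl, hx]
  | cons p L ih =>
    intro a b hred
    obtain ⟨a', b'⟩ := p
    rw [FreeGroup.isReduced_cons_cons] at hred
    obtain ⟨hab, hred'⟩ := hred
    simp only [] at hab
    obtain ⟨v, n, hn, hch, h1, h2, h3⟩ := ih a' b' hred'
    set ψ := rho (FreeGroup.mk ((a', b') :: L)) dl with hψ
    by_cases haa : a = a'
    · subst haa
      have hbb := hab rfl
      subst hbb
      have hhd := chain_head a v hch
      have hv : rho (FreeGroup.mk ((a, b) :: (a, b) :: L)) dl v = ψ v := by
        rw [rho_cons, ← hψ]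
        cases v with
        | nil => rw [Nop_nil]; simp
        | cons x v =>
          rw [Nop_cons, if_neg]
          · simp
          · rintro ⟨hx, _⟩
            apply hhd; simp [hx]
      refine ⟨v, n + 1, by omega, hch, ?_, ?_, ?_⟩
      · rw [hv, rho_cons, ← hψ, Nop_cons, if_pos ⟨rfl, hhd⟩, h1]
        push_cast; ring
      · rw [hv]; exact h2
      · intro w hw hlen
        rw [rho_cons, ← hψ]
        cases w with
        | nil => simp at hlen
        | cons x w =>
          have hw' := chain_tail x w hw
          have hψw : ψ (x :: w) = 0 := h3 _ hw hlen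
          rw [hψw, Nop_cons]
          split_ifs with hx
          · rw [h3 w hw' ?_]
            · simp
            · right
              rcases hlen with h | ⟨_, h⟩
              · refine ⟨?_, hx.2⟩
                simp at h; omega
              · exfalso; apply h; simp [hx.1]
          · simp
    · have hv : rho (FreeGroup.mk ((a, b) :: (a', b') :: L)) dl (a' :: v) = ψ (a' :: v) := by
        rw [rho_cons, ← hψ, Nop_cons, if_neg]
        · simp
        · rintro ⟨hx, _⟩
          exact haa hx.symm
      have hch2 : (a :: a' :: v).IsChain (· ≠ ·) := by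
        rw [List.isChain_cons_cons]
        exact ⟨haa, hch⟩
      refine ⟨a' :: v, 1, le_rfl, hch2, ?_, ?_, ?_⟩
      · rw [hv, rho_cons, ← hψ, Nop_cons, if_pos ⟨rfl, chain_head a _ hch2⟩, 
          h3 _ hch2 (Or.inl (by simp))]
        push_cast; ring
      · rw [hv, h1]
        have : sg b' ≠ 0 := by cases b' <;> simp [sg]
        have hn' : (n : ℤ) ≠ 0 := by positivity
        exact mul_ne_zero (mul_ne_zero this hn') h2
      · intro w hw hlen
        rw [rho_cons, ← hψ]
        cases w with
        | nil => simp at hlen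
        | cons x w =>
          have hw' := chain_tail x w hw
          have hψw : ψ (x :: w) = 0 := h3 _ hw (Or.inl (by simp at hlen ⊢; omega))
          rw [hψw, Nop_cons]
          split_ifs with hx
          · rw [h3 w hw' ?_]
            · simp
            · left
              rcases hlen with h | ⟨_, h⟩
              · simp at h; omega
              · exfalso; apply h; simp [hx.1]
          · simp

lemma cf_sep (g : FreeGroup α) (hg : g ≠ 1) : ∃ w : List α, w.IsChain (· ≠ ·) ∧ w ≠ [] ∧ cf w g ≠ 0 := by
  have h1 : g.toWord ≠ [] := by rwa [Ne, FreeGroup.toWord_eq_nil_iff]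
  obtain ⟨p, L, hL⟩ := List.exists_cons_of_ne_nil h1
  obtain ⟨a, b⟩ := p
  have hred : FreeGroup.IsReduced ((a, b) :: L) := by
    rw [← hL]; exact FreeGroup.isReduced_toWord
  obtain ⟨v, n, hn, hch, h1, h2, h3⟩ := sep_aux L a b hred
  refine ⟨a :: v, hch, by simp, ?_⟩
  rw [cf, ← FreeGroup.mk_toWord (x := g), hL, h1]
  have : sg b ≠ 0 := by cases b <;> simp [sg]
  have hn' : (n : ℤ) ≠ 0 := by positivity
  exact mul_ne_zero (mul_ne_zero this hn') h2


end mag


section series

open scoped commutatorElement

variable {α : Type u}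

lemma cf_one (w : List α) (hw : w ≠ []) : cf w (1 : FreeGroup α) = 0 := by
  rw [cf, map_one]
  change dl w = 0
  simp [dl, hw]

/-- all the coefficients belonging to the nonempty factors of length at most `k` of `w` vanish -/
def Dp (w : List α) (k : ℕ) (g : FreeGroup α) : Prop :=
  ∀ v : List α, v <:+: w → v ≠ [] → v.length ≤ k → cf v g = 0

/-- the coefficients of two elements agree up to length `k` -/
def Eqv (w : List α) (k : ℕ) (g h : FreeGroup α) : Prop :=
  ∀ v : List α, v <:+: w → v ≠ [] → v.length ≤ k → cf v g = cf v h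

lemma take_part {w v : List α} (h : v <:+: w) (i : ℕ) : v.take i <:+: w :=
  (v.take_prefix i).isInfix.trans h

lemma drop_part {w v : List α} (h : v <:+: w) (i : ℕ) : v.drop i <:+: w :=
  (v.drop_suffix i).isInfix.trans h

lemma chain_part {w v : List α} (hw : w.IsChain (· ≠ ·)) (h : v <:+: w) : v.IsChain (· ≠ ·) := by
  obtain ⟨a, b, rfl⟩ := h
  rw [List.isChain_append, List.isChain_append] at hw
  exact hw.1.2.1

lemma eqv_mul {w : List α} (hw : w.IsChain (· ≠ ·)) {k : ℕ} {g g' h h' : FreeGroup α}
    (h1 : Eqv w k g g') (h2 : Eqv w k h h') : Eqv w k (g * h) (g' * h') := by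
  intro v hv hv0 hvk
  rw [cf_mul v (chain_part hw hv), cf_mul v (chain_part hw hv)]
  refine Finset.sum_congr rfl fun i _ => ?_
  congr 1
  · by_cases hi : v.take i = []
    · rw [hi, cf_nil, cf_nil]
    · exact h1 _ (take_part hv i) hi ((List.length_take_le' i v).trans hvk)
  · by_cases hi : v.drop i = []
    · rw [hi, cf_nil, cf_nil]
    · exact h2 _ (drop_part hv i) hi (by rw [List.length_drop]; omega)

lemma eqv_refl (w : List α) (k : ℕ) (g : FreeGroup α) : Eqv w k g g := fun _ _ _ _ => rfl

lemma eqv_symm {w : List α} {k : ℕ} {g h : FreeGroup α} (h1 : Eqv w k g h) : Eqv w k h g :=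
  fun v hv hv0 hvk => (h1 v hv hv0 hvk).symm

lemma eqv_trans {w : List α} {k : ℕ} {g h l : FreeGroup α} (h1 : Eqv w k g h) (h2 : Eqv w k h l) :
    Eqv w k g l := fun v hv hv0 hvk => (h1 v hv hv0 hvk).trans (h2 v hv hv0 hvk)

lemma dp_iff {w : List α} {k : ℕ} {g : FreeGroup α} : Dp w k g ↔ Eqv w k g 1 := by
  constructor
  · intro h v hv hv0 hvk
    rw [h v hv hv0 hvk, cf_one v hv0]
  · intro h v hv hv0 hvk
    rw [h v hv hv0 hvk, cf_one v hv0]

/-- the subgroup of the elements with `Dp w k` -/
def D (w : List α) (hw : w.IsChain (· ≠ ·)) (k : ℕ) : Subgroup (FreeGroup α) where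
  carrier := {g | Eqv w k g 1}
  mul_mem' {a b} ha hb := by
    have h := eqv_mul hw ha hb
    rw [mul_one] at h
    exact h
  one_mem' := eqv_refl w k 1
  inv_mem' {a} ha := by
    have h := eqv_mul hw (eqv_refl w k a⁻¹) ha
    rw [inv_mul_cancel, mul_one] at h
    exact eqv_symm h

lemma mem_D {w : List α} {hw : w.IsChain (· ≠ ·)} {k : ℕ} {g : FreeGroup α} :
    g ∈ D w hw k ↔ Eqv w k g 1 := Iff.rfl

instance D_normal (w : List α) (hw : w.IsChain (· ≠ ·)) (k : ℕ) : (D w hw k).Normal where
  conj_mem g hg x := by
    rw [mem_D] at hg ⊢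
    have h := eqv_mul hw (eqv_mul hw (eqv_refl w k x) hg) (eqv_refl w k x⁻¹)
    rwa [mul_one, mul_inv_cancel] at h

/-- an element of `D k` is central modulo `D (k+1)` -/
lemma comm_D {w : List α} (hw : w.IsChain (· ≠ ·)) {k : ℕ} {g : FreeGroup α} (hg : g ∈ D w hw k)
    (x : FreeGroup α) : ⁅g, x⁆ ∈ D w hw (k + 1) := by
  have h1 : Eqv w (k + 1) (g * x) (x * g) := by
    intro v hv hv0 hvk
    have hc := chain_part hw hv
    have hg' : ∀ v' : List α, v' <:+: w → v' ≠ [] → v'.length ≤ k → cf v' g = 0 := dp_iff.2 hg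
    rw [cf_add1 v hc hv0 g ?_ x, cf_add2 v hc hv0 g ?_ x, add_comm]
    · intro i hi hiv
      refine hg' _ (drop_part hv i) ?_ ?_
      · intro h0
        rw [List.drop_eq_nil_iff] at h0
        omega
      · rw [List.length_drop]
        omega
    · intro i hi hiv
      refine hg' _ (take_part hv i) ?_ ?_
      · intro h0
        rw [List.take_eq_nil_iff] at h0
        rcases h0 with h0 | h0
        · omega
        · exact hv0 h0
      · rw [List.length_take]
        omega
  have h2 := eqv_mul hw h1 (eqv_refl w (k + 1) (x * g)⁻¹)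
  rw [mul_inv_cancel] at h2
  rw [mem_D, commutatorElement_def]
  have e : g * x * g⁻¹ * x⁻¹ = g * x * (x * g)⁻¹ := by group
  rw [e]
  exact h2

lemma D_zero (w : List α) (hw : w.IsChain (· ≠ ·)) : D w hw 0 = ⊤ := by
  rw [eq_top_iff]
  intro g _ v _ hv0 hvk
  exact absurd (List.length_eq_zero_iff.1 (Nat.le_zero.1 hvk)) hv0

lemma lcs_le (w : List α) (hw : w.IsChain (· ≠ ·)) (k : ℕ) :
    (⊤ : Subgroup (FreeGroup α)).lowerCentralSeries k ≤ D w hw k :=
  Subgroup.descending_central_series_ge_lower (fun n => D w hw n)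
    ⟨D_zero w hw, fun _ _ hx g => comm_D hw hx g⟩ k

/-- roots -/
lemma root_D {w : List α} (hw : w.IsChain (· ≠ ·)) {g : FreeGroup α} {m : ℕ} (hm : 0 < m) :
    ∀ k : ℕ, g ^ m ∈ D w hw k → g ∈ D w hw k := by
  intro k
  induction k with
  | zero => intro _; rw [D_zero]; trivial
  | succ k ih =>
    intro h
    have hgk : g ∈ D w hw k := by
      refine ih ?_
      intro v hv hv0 hvk
      exact h v hv hv0 (by omega)
    have hg' : ∀ v' : List α, v' <:+: w → v' ≠ [] → v'.length ≤ k → cf v' g = 0 := dp_iff.2 hgk
    rw [mem_D, ← dp_iff]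
    intro v hv hv0 hvk
    have hc := chain_part hw hv
    have hpow : ∀ n : ℕ, cf v (g ^ n) = n * cf v g := by
      intro n
      induction n with
      | zero => rw [pow_zero, cf_one v hv0]; simp
      | succ n ihn =>
        rw [pow_succ', cf_add1 v hc hv0 g ?_ (g ^ n), ihn]
        · push_cast
          ring
        · intro i hi hiv
          refine hg' _ (take_part hv i) ?_ ?_
          · intro h0
            rw [List.take_eq_nil_iff] at h0
            rcases h0 with h0 | h0
            · omega
            · exact hv0 h0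
          · rw [List.length_take]
            omega
    have h1 := h v hv hv0 hvk
    rw [cf_one v hv0, hpow] at h1
    rcases mul_eq_zero.1 h1 with h2 | h2
    · exact absurd (by exact_mod_cast h2) hm.ne'
    · exact h2

lemma rtfn (α : Type u) : RTFN (FreeGroup α) := by
  intro g hg
  obtain ⟨w, hw, hw0, hwg⟩ := cf_sep g hg
  refine ⟨D w hw w.length, inferInstance, ?_, ?_, ?_⟩
  · rw [Subgroup.nilpotent_iff_lowerCentralSeries]
    refine ⟨w.length, ?_⟩
    have h1 : (⊤ : Subgroup (FreeGroup α ⧸ D w hw w.length)) =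
        (⊤ : Subgroup (FreeGroup α)).map (QuotientGroup.mk' (D w hw w.length)) := by
      rw [← MonoidHom.range_eq_map, QuotientGroup.range_mk']
    rw [h1, ← map_lowerCentralSeries, Subgroup.map_eq_bot_iff, QuotientGroup.ker_mk']
    exact lcs_le w hw _
  · intro x m hm hx
    obtain ⟨y, rfl⟩ := QuotientGroup.mk_surjective x
    rw [← QuotientGroup.mk_pow, QuotientGroup.eq_one_iff] at hx
    rw [QuotientGroup.eq_one_iff]
    exact root_D hw hm _ hx
  · intro h
    have h1 := h w ⟨[], [], by simp⟩ hw0 le_rfl
    rw [cf_one w hw0] at h1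
    exact hwg h1

lemma perm3 : ¬ Group.IsNilpotent (Equiv.Perm (Fin 3)) := by
  intro h
  apply Group.IsNilpotent.center_ne_bot (Equiv.Perm (Fin 3))
  rw [eq_bot_iff]
  intro x hx
  rw [Subgroup.mem_center_iff] at hx
  rw [Subgroup.mem_bot]
  revert x
  decide

lemma not_nilp (α : Type u) [Nontrivial α] : ¬ Group.IsNilpotent (FreeGroup α) := by
  classical
  intro h
  obtain ⟨a, b, hab⟩ := exists_pair_ne α
  let f : FreeGroup α →* Equiv.Perm (Fin 3) := FreeGroup.lift
    (fun x => if x = a then Equiv.swap 0 1 else if x = b then Equiv.swap 1 2 else 1)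
  have ha : f (FreeGroup.of a) = Equiv.swap 0 1 := by
    simp [f]
  have hb : f (FreeGroup.of b) = Equiv.swap 1 2 := by
    simp [f, hab.symm]
  have hf : Function.Surjective f := by
    intro s
    have h1 : s = 1 ∨ s = Equiv.swap 0 1 ∨ s = Equiv.swap 1 2 ∨ s = Equiv.swap 0 1 * Equiv.swap 1 2 ∨
        s = Equiv.swap 1 2 * Equiv.swap 0 1 ∨ s = Equiv.swap 0 1 * Equiv.swap 1 2 * Equiv.swap 0 1 := by
      revert s
      decide
    rcases h1 with rfl | rfl | rfl | rfl | rfl | rfl
    · exact ⟨1, map_one f⟩
    · exact ⟨_, ha⟩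
    · exact ⟨_, hb⟩
    · exact ⟨FreeGroup.of a * FreeGroup.of b, by rw [map_mul, ha, hb]⟩
    · exact ⟨FreeGroup.of b * FreeGroup.of a, by rw [map_mul, ha, hb]⟩
    · exact ⟨FreeGroup.of a * FreeGroup.of b * FreeGroup.of a, by rw [map_mul, map_mul, ha, hb]⟩
  exact perm3 (Group.nilpotent_of_surjective f hf)

end series

end Free

theorem t_free : S_free.{u} := fun α => ⟨Free.rtfn α, fun _ => Free.not_nilp α⟩

end Pool.Agent.H827.RN
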