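import Pool.Agent.H827.RN.Defs3
import Pool.Agent.H827.RN.Free
import Pool.Agent.H827.RN.FreeVN

/-!
# Residually free groups (helper350, for helper827)
-/

set_option autoImplicit false

open Subgroup

universe u v

namespace Pool.Agent.H827.RN

namespace Rf

/-- nilpotent subgroups of free groups are commutative -/
theorem comm_of_nilp {α : Type u} (K : Subgroup (FreeGroup α)) (hK : Group.IsNilpotent K)
    (x y : K) : x * y = y * x := by
  have := hK
  have : IsFreeGroup K := subgroupIsFreeOfIsFree K
  have hsub : Subsingleton (IsFreeGroup.Generators K) := by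
    rw [← not_nontrivial_iff_subsingleton]
    intro hnt
    exact (t_free (IsFreeGroup.Generators K)).2 hnt
      (Group.nilpotent_of_mulEquiv (IsFreeGroup.toFreeGroup K))
  apply (IsFreeGroup.toFreeGroup K).injective
  rw [map_mul, map_mul]
  exact FreeVN.comm_of_subsingleton _ _

end Rf

theorem t_rf : S_rf.{u} := by
  intro G _ hG
  constructor
  · intro g hg
    obtain ⟨π, hπ⟩ := hG g hg
    obtain ⟨N, hN, hnil, htf, hmem⟩ := (t_free (Fin 2)).1 (π g) hπ
    have hinj : Function.Injective (QuotientGroup.map (N.comap π) N π le_rfl) := by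
      rw [injective_iff_map_eq_one]
      intro a ha
      obtain ⟨x, rfl⟩ := QuotientGroup.mk_surjective a
      rw [QuotientGroup.map_mk, QuotientGroup.eq_one_iff] at ha
      rw [QuotientGroup.eq_one_iff]
      exact ha
    refine ⟨N.comap π, inferInstance, ?_, ?_, ?_⟩
    · have := hnil
      refine Subgroup.isNilpotent_of_ker_le_center (QuotientGroup.map (N.comap π) N π le_rfl) ?_
      rw [(MonoidHom.ker_eq_bot_iff _).2 hinj]
      exact bot_le
    · intro x m hm hx
      apply hinj
      rw [map_one]
      apply htf _ m hm
      rw [← map_pow, hx, map_one]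
    · exact hmem
  · intro H hH x hx y hy
    by_contra hcon
    have hne : x * y * (y * x)⁻¹ ≠ 1 := by
      rw [Ne, mul_inv_eq_one]
      exact hcon
    obtain ⟨π, hπ⟩ := hG _ hne
    apply hπ
    have hK : Group.IsNilpotent (H.map π) := by
      have := hH
      exact Group.nilpotent_of_surjective (π.subgroupMap H) (π.subgroupMap_surjective H)
    have h1 := Rf.comm_of_nilp (H.map π) hK ⟨π x, Subgroup.mem_map_of_mem π hx⟩
      ⟨π y, Subgroup.mem_map_of_mem π hy⟩
    have h2 : π x * π y = π y * π x := congrArg Subtype.val h1
    rw [map_mul, map_inv, mul_inv_eq_one, map_mul, map_mul]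
    exact h2

end Pool.Agent.H827.RN
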