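import Pool.Agent.H827.RN.Tor
import Pool.Agent.H827.RN.Abel
import Pool.Agent.H827.RN.Mat
import Pool.Agent.H827.RN.Ab
import Pool.Agent.H827.RN.Pt
import Pool.Agent.H827.RN.Lin
import Pool.Agent.H827.RN.Cp
import Pool.Agent.H827.RN.Rf
import Pool.Agent.H827.RN.Aff

/-!
# Anosov diffeomorphisms whose deck group is virtually abelian: flat manifolds
-/

set_option autoImplicit false

open scoped Manifold ContDiff Topology
open Set Filter

universe u v w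

namespace Pool.Agent.H827.RN

open Pool.Agent.H721R2 Pool.Agent.H789R2.AN Pool.Agent.H223.CE
open Pool.Agent.H223.CC (CPair coc finite_return zexp_of_bounded)
open Pool.Agent.H779R2.To (HypMat)

/-- `f : M → M` is topologically conjugate to a hyperbolic automorphism of a flat manifold: there are
a hyperbolic matrix `A` in `GL(k, ℤ)` and a covering map `Q` of `ℝᵏ` onto `M` with `Q ∘ A = f ∘ Q`
whose deck transformations contain the translations by integer vectors, are affine maps with integer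
linear parts of finite order, and are transitive on the fibres. -/
def IsFlatHyperbolic {M : Type*} [TopologicalSpace M] (f : M → M) : Prop :=
  ∃ (k : ℕ) (A : Matrix (Fin k) (Fin k) ℤ) (Q : (Fin k → ℝ) → M), IsUnit A.det ∧ HypMat A ∧
    IsCoveringMap Q ∧ Function.Surjective Q ∧
    (∀ y, Q ((A.map (Int.cast : ℤ → ℝ)).mulVec y) = f (Q y)) ∧
    (∀ (z : Fin k → ℤ) (y : Fin k → ℝ), Q (y + fun i => (z i : ℝ)) = Q y) ∧
    ∀ y y', Q y = Q y' → ∃ (R : Matrix (Fin k) (Fin k) ℤ) (t : Fin k → ℝ), IsUnit R.det ∧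
      (∃ m : ℕ, 1 ≤ m ∧ R ^ m = 1) ∧ y' = (R.map (Int.cast : ℤ → ℝ)).mulVec y + t ∧
      ∀ x, Q ((R.map (Int.cast : ℤ → ℝ)).mulVec x + t) = Q x

theorem flat (E : Type w) [NormedAddCommGroup E] [NormedSpace ℝ E] [FiniteDimensional ℝ E]
    (M : Type u) [TopologicalSpace M] [T2Space M] [CompactSpace M] [ConnectedSpace M]
    [ChartedSpace E M] [IsManifold 𝓘(ℝ, E) ∞ M] (f : M ≃ₜ M)
    (g : Diffeomorph 𝓘(ℝ, E) 𝓘(ℝ, E) M M 1)
    (Es Eu : ∀ x : M, Submodule ℝ (TangentSpace 𝓘(ℝ, E) x)) (hA : IsAnosov g Es Eu)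
    (hgf : ∀ m, g m = f m)
    (X : Type v) [MetricSpace X] [ProperSpace X] [ConnectedSpace X]
    (Γ : Type v) [Group Γ] [MulAction Γ X] [IsIsometricSMul Γ X] [FaithfulSMul Γ X]
    (P : X → M) (hP : IsCoveringMap P) (hsurj : Function.Surjective P)
    (hΓ : ∀ x y : X, P x = P y ↔ ∃ γ : Γ, γ • x = y)
    (F : X ≃ₜ X) (hF : ∀ x, P (F x) = f (P x))
    (φ : Γ ≃* Γ) (hφ : ∀ (γ : Γ) (x : X), F (γ • x) = φ γ • F x) (hCH : CoarselyHyperbolic F)
    (hcl : ∀ x : X, IsClosed {y | Asymp F.symm x y})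
    (hVN : Group.IsVirtuallyNilpotent Γ) (Γ₁ : Subgroup Γ) (h1 : Γ₁.FiniteIndex)
    (hab : ∀ H : Subgroup Γ₁, Group.IsNilpotent H → ∀ x ∈ H, ∀ y ∈ H, x * y = y * x) :
    IsFlatHyperbolic f := by
  have hF' : ∀ x, P (F x) = g (P x) := fun x => by rw [hF, hgf]
  have hRN := (Pool.Agent.Results.MP_5c499f_an.ReidemeisterNumbers.result E M g Es Eu hA X Γ P hP
      hsurj hΓ F hF' φ hφ hCH).1
  have h10 : TopTransitive g ∧ ∀ x y : X, ∃! w, Asymp F x w ∧ Asymp F.symm y w :=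
    (hRN.out 1 0).1 hcl
  have hgps := h10.2
  have hfew : ∀ n : ℕ, 1 ≤ n → ∀ γ : Γ, ∃ K : ℕ, 1 ≤ K ∧
      {x : X | (fun x => γ⁻¹ • F^[n] x)^[K] x = x}.encard < 2 ^ K := (hRN.out 1 2).1 hcl
  have hexp : ∀ (x y : X) (B : ℝ), (∀ n : ℕ, dist (F^[n] x) (F^[n] y) ≤ B) →
      (∀ n : ℕ, dist (F.symm^[n] x) (F.symm^[n] y) ≤ B) → x = y := (((Pool.Agent.Results.MP_5c499f_an.FundamentalGroupClassification.result E M g Es Eu
    hA E M f Γ X X P hP hsurj hΓ P hP hsurj hΓ F hF F hF' φ hφ hφ hCH hfew).2.2 g Es Eu hA hgf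
    hCH).out 1 3).1 hfew
  have hfree : ∀ (γ : Γ) (x : X), γ • x = x → γ = 1 := fun γ x h => free_of hP hΓ h
  have hFG : Group.FG Γ := t_fg M X Γ P hP hsurj hΓ hfree
  obtain ⟨x0⟩ : Nonempty X := inferInstance
  obtain ⟨hcoc, hfin⟩ : (∃ a : ℝ, ∀ x : X, ∃ γ : Γ, dist x (γ • x0) ≤ a) ∧
      ∀ a : ℝ, {γ : Γ | dist (γ • x0) x0 ≤ a}.Finite := by
    obtain ⟨m, e, he, hemb, -⟩ := exists_embedding_euclidean_of_compact (I := 𝓘(ℝ, E)) (M := M)
    let _ : MetricSpace M := hemb.isEmbedding.comapMetricSpace e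
    exact ⟨coc hP hsurj hΓ x0, finite_return hP hsurj hΓ x0⟩
  obtain ⟨Λ, hΛ, hchar, hcomm, htf⟩ := exists_abelian' hVN Γ₁ h1 hab
  obtain ⟨k, e, A, H, hA1, hA2, hH1, hH2, hH3⟩ := upstairs t_mat t_ab t_pt t_lin t_cp (t_aff t_mat)
    φ F hφ x0 hcoc hfin hCH (fun x y => (hgps x y).exists)
    (fun u v B hB => zexp_of_bounded hexp u v B hB) Λ hΛ hchar hcomm htf
  refine ⟨k, A, P ∘ H.symm, hA1, hA2, hP.comp_homeomorph H.symm,
    hsurj.comp H.symm.surjective, fun y => ?_, fun z y => ?_, fun y y' hy => ?_⟩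
  · show P (H.symm _) = f (P (H.symm y))
    rw [← hF]
    congr 1
    rw [Homeomorph.symm_apply_eq, hH2, Homeomorph.apply_symm_apply]
  · show P (H.symm _) = P (H.symm y)
    refine ((hΓ _ _).2 ⟨((e.symm (Multiplicative.ofAdd z) : Λ) : Γ), ?_⟩).symm
    rw [Homeomorph.eq_symm_apply]
    have h2 := hH1 (e.symm (Multiplicative.ofAdd z)) (H.symm y)
    rw [MulEquiv.apply_symm_apply, Homeomorph.apply_symm_apply] at h2
    exact h2
  · obtain ⟨γ, hγ⟩ := (hΓ (H.symm y) (H.symm y')).1 hy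
    obtain ⟨R, t, hR1, hR2, hR3⟩ := hH3 γ
    refine ⟨R, t, hR1, hR2, ?_, fun x => ?_⟩
    · have h2 := hR3 (H.symm y)
      rw [hγ, Homeomorph.apply_symm_apply, Homeomorph.apply_symm_apply] at h2
      exact h2
    · show P (H.symm _) = P (H.symm x)
      refine ((hΓ _ _).2 ⟨γ, ?_⟩).symm
      rw [Homeomorph.eq_symm_apply, hR3, Homeomorph.apply_symm_apply]

end Pool.Agent.H827.RN
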