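import Pool.Agent.H827.RN.Fin
import Pool.Agent.H827.RN.Fg
import Pool.Graph.R_seed8.TH289.K.Def

/-!
# Lifts with fixed points and twisted conjugacy classes
-/

set_option autoImplicit false

open Set Filter Topology

universe u v

namespace Pool.Agent.H827.RN

open Pool.Agent.TH289.K (Expansive)

section expansive

variable {M : Type u} [TopologicalSpace M] [T2Space M] [CompactSpace M]

theorem iter_mul_add {M : Type u} (f : M → M) {n : ℕ} {m : M} (hm : f^[n] m = m) (k i : ℕ) :
    f^[n * k + i] m = f^[i] m := by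
  rw [Nat.add_comm, Function.iterate_add_apply, Function.iterate_mul]
  congr 1
  have : ∀ k : ℕ, (f^[n])^[k] m = m := fun k => Function.iterate_fixed hm k
  exact this k

/-- expansive homeomorphisms of compact spaces have finitely many points of each period -/
theorem fin_fix (f : M ≃ₜ M) (hf : Expansive f) (n : ℕ) (hn : 1 ≤ n) :
    {m | f^[n] m = m}.Finite := by
  obtain ⟨U, hU, hexp⟩ := hf
  have hclosed : IsClosed {m | f^[n] m = m} := isClosed_eq (f.continuous.iterate n) continuous_id
  have hloc : ∀ m : M, ∃ V ∈ 𝓝 m, ∀ m' ∈ V, f^[n] m = m → f^[n] m' = m' → m' = m := by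
    intro m
    have h1 : ∀ i : ℕ, {m' : M | (f^[i] m', f^[i] m) ∈ U} ∈ 𝓝 m := by
      intro i
      have hc : Continuous fun m' : M => (f^[i] m', f^[i] m) :=
        (f.continuous.iterate i).prodMk continuous_const
      refine hc.continuousAt.preimage_mem_nhds ?_
      exact (mem_nhdsSet_iff_forall.1 hU) (f^[i] m, f^[i] m) rfl
    refine ⟨⋂ i ∈ Finset.range n, {m' : M | (f^[i] m', f^[i] m) ∈ U},
      (Filter.biInter_finset_mem _).2 fun i _ => h1 i, fun m' hm' hm hmm => ?_⟩
    have h2 : ∀ i : ℕ, (f^[i] m', f^[i] m) ∈ U := by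
      intro i
      have h3 : f^[i] m' = f^[i % n] m' := by
        conv_lhs => rw [← Nat.div_add_mod i n]
        exact iter_mul_add f hmm _ _
      have h4 : f^[i] m = f^[i % n] m := by
        conv_lhs => rw [← Nat.div_add_mod i n]
        exact iter_mul_add f hm _ _
      rw [h3, h4]
      have h5 := Set.mem_iInter₂.1 hm' (i % n) (Finset.mem_range.2 (Nat.mod_lt _ (by omega)))
      exact h5
    have hsymm : ∀ (y : M), f^[n] y = y → ∀ i : ℕ, f.symm^[i] y = f^[n * i - i] y := by
      intro y hy i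
      have h6 : f^[i] (f^[n * i - i] y) = y := by
        rw [← Function.iterate_add_apply]
        have : i + (n * i - i) = n * i + 0 := by
          have : i ≤ n * i := Nat.le_mul_of_pos_left i (by omega)
          omega
        rw [this, iter_mul_add f hy]
        rfl
      have h7 : f.symm^[i] (f^[i] (f^[n * i - i] y)) = f^[n * i - i] y :=
        (Function.LeftInverse.iterate f.symm_apply_apply i) _
      rw [h6] at h7
      exact h7
    exact hexp m' m fun k => ⟨h2 k, by rw [hsymm m' hmm, hsymm m hm]; exact h2 _⟩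
  choose V hV hV' using hloc
  obtain ⟨t, ht, hcov⟩ := hclosed.isCompact.elim_nhds_subcover V (fun m _ => hV m)
  refine t.finite_toSet.subset fun m' hm' => ?_
  have h1 := hcov hm'
  simp only [mem_iUnion, exists_prop] at h1
  obtain ⟨m, hm, hmU⟩ := h1
  rw [hV' m m' hmU (ht m hm) hm']
  exact hm

end expansive

section cover

variable {M X Γ : Type*} [TopologicalSpace M] [MetricSpace X]
  [ConnectedSpace X] [Group Γ] [MulAction Γ X] [IsIsometricSMul Γ X] [FaithfulSMul Γ X] {P : X → M}

theorem free_of (hP : IsCoveringMap P)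
    (hΓ : ∀ x y, P x = P y ↔ ∃ γ : Γ, γ • x = y) {γ : Γ} {x : X} (h : γ • x = x) : γ = 1 := by
  have h1 : (fun y : X => γ • y) = fun y => y := by
    apply hP.eq_of_comp_eq (A := X) _ _ _ x h
    · exact (isometry_smul X γ).continuous
    · exact continuous_id
    · funext y
      exact ((hΓ y (γ • y)).2 ⟨γ, rfl⟩).symm
  apply FaithfulSMul.eq_of_smul_eq_smul (α := X)
  intro y
  rw [one_smul]
  exact congrFun h1 y

end cover

section classes

variable {M X : Type*} {Γ : Type u} [Group Γ] [MulAction Γ X] {P : X → M} {f : M → M} {F : X → X}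
  {φ : Γ ≃* Γ}

theorem iter_smul' (hφ : ∀ (γ : Γ) (x : X), F (γ • x) = φ γ • F x) (n : ℕ) (γ : Γ) (x : X) :
    F^[n] (γ • x) = φ^[n] γ • F^[n] x := by
  induction n generalizing γ x with
  | zero => rfl
  | succ n ih => rw [Function.iterate_succ_apply, hφ, ih]; rfl

theorem classes_le (hΓ : ∀ x y, P x = P y ↔ ∃ γ : Γ, γ • x = y)
    (hF : ∀ x, P (F x) = f (P x)) (hφ : ∀ (γ : Γ) (x : X), F (γ • x) = φ γ • F x)
    (hfree : ∀ (γ : Γ) (x : X), γ • x = x → γ = 1) (n : ℕ)
    (hfix : ∀ γ : Γ, ∃ x, F^[n] x = γ • x) (hfin : {m | f^[n] m = m}.Finite) :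
    Finite (Quot (Tw (it φ n))) ∧
      Nat.card (Quot (Tw (it φ n))) ≤ {m | f^[n] m = m}.ncard := by
  have hFn : ∀ (k : ℕ) (x : X), P (F^[k] x) = f^[k] (P x) := by
    intro k
    induction k with
    | zero => intro x; rfl
    | succ k ih => intro x; rw [Function.iterate_succ_apply, Function.iterate_succ_apply, ih, hF]
  choose a ha using hfix
  have hPa : ∀ γ, P (a γ) ∈ {m | f^[n] m = m} := by
    intro γ
    show f^[n] (P (a γ)) = P (a γ)
    rw [← hFn, ha γ]
    exact ((hΓ _ _).mpr ⟨γ, rfl⟩).symm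
  let s : Quot (Tw (it φ n)) → {m | f^[n] m = m} := fun q =>
    ⟨P (a (Quot.out q)), hPa _⟩
  have hs : Function.Injective s := by
    intro q q' h
    have h1 : P (a (Quot.out q)) = P (a (Quot.out q')) := congrArg Subtype.val h
    obtain ⟨η, hη⟩ := (hΓ _ _).1 h1
    rw [← Quot.out_eq q, ← Quot.out_eq q']
    refine Quot.sound ⟨η, ?_⟩
    have h2 : Quot.out q' • a (Quot.out q') = (φ^[n] η * Quot.out q) • a (Quot.out q) := by
      rw [← ha, ← hη, iter_smul' hφ, ha, mul_smul]
    rw [← hη, smul_smul] at h2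
    have h3 : (φ^[n] η * Quot.out q)⁻¹ * (Quot.out q' * η) = 1 := by
      refine hfree _ (a (Quot.out q)) ?_
      rw [mul_smul, h2, inv_smul_smul]
    have h4 : Quot.out q' * η = φ^[n] η * Quot.out q := by
      rw [inv_mul_eq_one] at h3
      exact h3.symm
    rw [it_apply, ← h4, mul_inv_cancel_right]
  have : Finite {m | f^[n] m = m} := hfin
  refine ⟨Finite.of_injective s hs, ?_⟩
  rw [← Nat.card_coe_set_eq]
  exact Nat.card_le_card_of_injective s hs

end classes

end Pool.Agent.H827.RN
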