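import Pool.Agent.H827.RN.Defs5

/-!
# Groups with a commutative normal subgroup with nilpotent quotient, with a tame automorphism
-/

set_option autoImplicit false

open Subgroup

universe u

namespace Pool.Agent.H827.RN

namespace P1

/-- virtual nilpotency lifts from the quotient by a subgroup which is centralised by a subgroup of
finite index -/
theorem vn_lift {G : Type u} [Group G] (H C : Subgroup G) [C.Normal] (hH : H.FiniteIndex)
    (hc : ∀ h ∈ H, ∀ c ∈ C, h * c = c * h) (hv : Group.IsVirtuallyNilpotent (G ⧸ C)) :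
    Group.IsVirtuallyNilpotent G := by
  obtain ⟨N, hN, hNf⟩ := hv
  have hfi : (H ⊓ N.comap (QuotientGroup.mk' C)).FiniteIndex := by
    have h1 : (N.comap (QuotientGroup.mk' C)).FiniteIndex := by
      constructor
      rw [N.index_comap_of_surjective (QuotientGroup.mk'_surjective C)]
      exact hNf.index_ne_zero
    infer_instance
  refine ⟨H ⊓ N.comap (QuotientGroup.mk' C), ?_, hfi⟩
  let f : (H ⊓ N.comap (QuotientGroup.mk' C) : Subgroup G) →* N :=
    ((QuotientGroup.mk' C).comp (Subgroup.subtype _)).codRestrict N (fun x => x.2.2)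
  refine Subgroup.isNilpotent_of_ker_le_center f (fun k hk => ?_)
  rw [Subgroup.mem_center_iff]
  intro g
  have hk' : (k : G) ∈ C := by
    have h1 : f k = 1 := hk
    have h2 : QuotientGroup.mk' C (k : G) = 1 := congrArg Subtype.val h1
    exact (QuotientGroup.eq_one_iff _).1 h2
  exact Subtype.ext (hc g g.2.1 k hk')

/-- Noetherian groups satisfy the ascending chain condition -/
theorem acc {G : Type u} [Group G] (h : ∀ S : Subgroup G, S.FG) : WellFoundedGT (Subgroup G) := by
  rw [wellFoundedGT_iff_monotone_chain_condition]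
  intro a
  obtain ⟨s, hs⟩ := h (⨆ n, a n)
  have hd : Directed (· ≤ ·) a := a.monotone.directed_le
  have h1 : ∀ x ∈ s, ∃ n, x ∈ a n := by
    intro x hx
    have h2 : x ∈ ⨆ n, a n := by
      rw [← hs]
      exact Subgroup.subset_closure hx
    exact (Subgroup.mem_iSup_of_directed hd).1 h2
  choose! n hn using h1
  refine ⟨s.sup n, fun m hm => le_antisymm (a.monotone hm) ?_⟩
  refine (le_iSup a m).trans ?_
  rw [← hs, Subgroup.closure_le]
  intro x hx
  exact a.monotone (Finset.le_sup (f := n) hx) (hn x hx)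

/-- the iterates of an automorphism as homomorphisms -/
theorem iter {G : Type u} [Group G] (φ : G ≃* G) (n : ℕ) : ∃ θ : G →* G, ∀ x, θ x = φ^[n] x := by
  induction n with
  | zero => exact ⟨MonoidHom.id G, fun x => rfl⟩
  | succ n ih =>
    obtain ⟨θ, hθ⟩ := ih
    refine ⟨θ.comp φ.toMonoidHom, fun x => ?_⟩
    rw [Function.iterate_succ_apply]
    exact hθ (φ x)

/-- tame automorphisms of quotients -/
theorem tame_quot {G Q : Type u} [Group G] [Group Q] (φ : G ≃* G) (ψ : Q ≃* Q) (π : G →* Q)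
    (hπ : Function.Surjective π) (hc : ∀ x, π (φ x) = ψ (π x)) (h : Tame φ) : Tame ψ := by
  intro n hn θ' hθ'
  obtain ⟨θ, hθ⟩ := iter φ n
  have h1 := h n hn θ hθ
  have h2 : ∀ (m : ℕ) (x : G), π (φ^[m] x) = ψ^[m] (π x) := by
    intro m
    induction m with
    | zero => intro x; rfl
    | succ m ih =>
      intro x
      rw [Function.iterate_succ_apply, Function.iterate_succ_apply, ih, hc]
  have h3 : ∀ x, π (θ x) = θ' (π x) := fun x => by rw [hθ, hθ', h2]
  refine Finite.of_surjective (Quot.map (ra := Tw θ) (rb := Tw θ') π ?_) ?_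
  · rintro x y ⟨g, rfl⟩
    exact ⟨π g, by rw [map_mul, map_mul, map_inv, h3]⟩
  · intro y
    induction y using Quot.inductionOn with
    | _ y =>
      obtain ⟨x, rfl⟩ := hπ y
      exact ⟨Quot.mk _ x, rfl⟩

theorem fg_map {G Q : Type u} [Group G] [Group Q] (π : G →* Q) (hπ : Function.Surjective π)
    (h : ∀ S : Subgroup G, S.FG) (S : Subgroup Q) : S.FG := by
  classical
  obtain ⟨s, hs⟩ := h (S.comap π)
  refine ⟨s.image π, ?_⟩
  rw [Finset.coe_image, ← MonoidHom.map_closure, hs, Subgroup.map_comap_eq_self_of_surjective hπ]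

theorem main (hcen : S_cen.{u}) (hfi : S_fi.{u}) (G : Type u) [Group G] (φ : G ≃* G)
    (B : Subgroup G) [B.Normal] (hfg : ∀ S : Subgroup G, S.FG)
    (hB : ∀ x ∈ B, ∀ y ∈ B, x * y = y * x) (hφB : ∀ x, x ∈ B ↔ φ x ∈ B)
    (hnil : Group.IsNilpotent (G ⧸ B)) (ht : Tame φ) (C : Subgroup G) :
    ∀ (Q : Type u) [Group Q] (π : G →* Q) (_ : Function.Surjective π) (_ : π.ker = C)
      (ψ : Q ≃* Q) (_ : ∀ x, π (φ x) = ψ (π x)) (B' : Subgroup Q) (_ : B'.comap π = B),
      Group.IsVirtuallyNilpotent Q := by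
  have hacc := acc hfg
  induction C using (wellFounded_gt : WellFounded ((· > ·) : Subgroup G → Subgroup G → Prop)).induction with
  | _ C ih =>
  intro Q _ π hπ hker ψ hψ B' hB'
  have hmem : ∀ g, π g ∈ B' ↔ g ∈ B := fun g => by rw [← hB', Subgroup.mem_comap]
  have hn : B'.Normal := by
    constructor
    intro x hx y
    obtain ⟨x, rfl⟩ := hπ x
    obtain ⟨y, rfl⟩ := hπ y
    rw [← map_mul, ← map_inv, ← map_mul, hmem]
    exact Subgroup.Normal.conj_mem ‹_› x ((hmem x).1 hx) y
  have hcomm : ∀ x ∈ B', ∀ y ∈ B', x * y = y * x := by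
    intro x hx y hy
    obtain ⟨x, rfl⟩ := hπ x
    obtain ⟨y, rfl⟩ := hπ y
    rw [← map_mul, ← map_mul, hB x ((hmem x).1 hx) y ((hmem y).1 hy)]
  have hinv : ∀ x, x ∈ B' ↔ ψ x ∈ B' := by
    intro x
    obtain ⟨x, rfl⟩ := hπ x
    rw [← hψ, hmem, hmem]
    exact hφB x
  have hnil' : Group.IsNilpotent (Q ⧸ B') := by
    have hle : B ≤ ((QuotientGroup.mk' B').comp π).ker := by
      intro b hb
      rw [MonoidHom.mem_ker, MonoidHom.comp_apply]
      exact (QuotientGroup.eq_one_iff _).2 ((hmem b).2 hb)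
    refine Group.nilpotent_of_surjective (QuotientGroup.lift B ((QuotientGroup.mk' B').comp π) hle) ?_
    intro y
    obtain ⟨y, rfl⟩ := QuotientGroup.mk'_surjective B' y
    obtain ⟨x, rfl⟩ := hπ y
    exact ⟨QuotientGroup.mk' B x, rfl⟩
  have hfg' := fg_map π hπ hfg
  have ht' := tame_quot φ ψ π hπ hψ ht
  rcases finite_or_infinite B' with hfin | hinf
  · refine vn_lift (MulAut.conjNormal (H := B')).ker B' inferInstance ?_ hnil'.isVirtuallyNilpotent
    intro h hh c hc
    have h1 : MulAut.conjNormal (H := B') h = 1 := hh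
    have h2 := congrArg (fun f : MulAut B' => ((f ⟨c, hc⟩ : B') : Q)) h1
    simp only [MulAut.conjNormal_apply, MulAut.one_apply] at h2
    exact mul_inv_eq_iff_eq_mul.1 h2
  · obtain ⟨H', b, hH', hbB, hb, hcb⟩ := hcen Q ψ B' hfg' hcomm hinv hnil' ht' hinf
    have : Group.FG Q := Group.fg_def.2 (hfg' ⊤)
    obtain ⟨H, hH, hHH', hchar⟩ := hfi Q H' hH'
    have hcn : (B' ⊓ Subgroup.centralizer (H : Set Q)).Normal := by
      have : (Subgroup.centralizer (H : Set Q)).Normal := inferInstance
      infer_instance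
    have hinv2 : ∀ x, x ∈ B' ⊓ Subgroup.centralizer (H : Set Q) ↔
        ψ x ∈ B' ⊓ Subgroup.centralizer (H : Set Q) := by
      intro x
      have hHψ : ∀ h, h ∈ H ↔ ψ h ∈ H := by
        intro h
        have h1 := characteristic_iff_comap_eq.1 hchar ψ
        conv_lhs => rw [← h1]
        rfl
      rw [Subgroup.mem_inf, Subgroup.mem_inf, ← hinv]
      refine and_congr_right fun _ => ?_
      rw [Subgroup.mem_centralizer_iff, Subgroup.mem_centralizer_iff]
      constructor
      · intro h1 h hh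
        obtain ⟨h, rfl⟩ := ψ.surjective h
        rw [← map_mul, ← map_mul, h1 h ((hHψ h).2 hh)]
      · intro h1 h hh
        apply ψ.injective
        rw [map_mul, map_mul]
        exact h1 (ψ h) ((hHψ h).1 hh)
    have hmap : (B' ⊓ Subgroup.centralizer (H : Set Q)).map (ψ : Q →* Q) =
        B' ⊓ Subgroup.centralizer (H : Set Q) := by
      ext y
      rw [Subgroup.mem_map]
      constructor
      · rintro ⟨x, hx, rfl⟩
        exact (hinv2 x).1 hx
      · intro hy
        obtain ⟨x, rfl⟩ := ψ.surjective y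
        exact ⟨x, (hinv2 x).2 hy, rfl⟩
    have hbC : b ∈ B' ⊓ Subgroup.centralizer (H : Set Q) := by
      refine ⟨hbB, Subgroup.mem_centralizer_iff.2 fun h hh => ?_⟩
      exact mul_inv_eq_iff_eq_mul.1 (hcb h (hHH' hh))
    have hb1 : b ≠ 1 := by
      have := hb 1 one_pos
      rwa [pow_one] at this
    refine vn_lift H (B' ⊓ Subgroup.centralizer (H : Set Q)) hH (fun h hh c hc =>
      Subgroup.mem_centralizer_iff.1 hc.2 h hh) ?_
    refine ih ((B' ⊓ Subgroup.centralizer (H : Set Q)).comap π) ?_ _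
      ((QuotientGroup.mk' (B' ⊓ Subgroup.centralizer (H : Set Q))).comp π)
      ((QuotientGroup.mk'_surjective _).comp hπ) ?_
      (QuotientGroup.congr _ _ ψ hmap) ?_
      (B'.map (QuotientGroup.mk' (B' ⊓ Subgroup.centralizer (H : Set Q)))) ?_
    · show C < _
      rw [← hker]
      refine lt_of_le_of_ne ?_ ?_
      · intro x hx
        rw [Subgroup.mem_comap, MonoidHom.mem_ker.1 hx]
        exact Subgroup.one_mem _
      · intro heq
        obtain ⟨g, hg⟩ := hπ b
        have h1 : g ∈ (B' ⊓ Subgroup.centralizer (H : Set Q)).comap π := by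
          rw [Subgroup.mem_comap, hg]
          exact hbC
        rw [← heq, MonoidHom.mem_ker, hg] at h1
        exact hb1 h1
    · rw [← MonoidHom.comap_ker, QuotientGroup.ker_mk']
    · intro x
      rw [MonoidHom.comp_apply, MonoidHom.comp_apply, hψ]
      rfl
    · rw [← Subgroup.comap_comap, QuotientGroup.comap_map_mk', sup_eq_right.2 inf_le_left, hB']

end P1

theorem t_p1 (hcen : S_cen.{u}) (hfi : S_fi.{u}) : S_p1.{u} := by
  intro G _ φ B _ hfg hB hφB hnil ht
  exact P1.main hcen hfi G φ B hfg hB hφB hnil ht _ G (MonoidHom.id G) Function.surjective_id rfl φ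
    (fun x => rfl) B (Subgroup.comap_id B)

end Pool.Agent.H827.RN
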