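import Pool.Agent.H827.RN.Defs5

/-!
# Polycyclic groups with a tame automorphism are virtually nilpotent (reduction to `S_p1`)
-/

set_option autoImplicit false

open Subgroup

universe u

namespace Pool.Agent.H827.RN

namespace Pol

theorem iter_hom {G : Type u} [Group G] (φ : G ≃* G) (n : ℕ) : ∃ θ : G →* G, ∀ x, θ x = φ^[n] x := by
  induction n with
  | zero => exact ⟨MonoidHom.id G, fun x => rfl⟩
  | succ n ih =>
    obtain ⟨θ, hθ⟩ := ih
    refine ⟨θ.comp φ.toMonoidHom, fun x => ?_⟩
    rw [Function.iterate_succ_apply, ← hθ]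
    rfl

theorem tame_quot {G H : Type u} [Group G] [Group H] (π : G →* H) (hπ : Function.Surjective π)
    (φ : G ≃* G) (ψ : H ≃* H) (h : ∀ x, π (φ x) = ψ (π x)) (hφ : Tame φ) : Tame ψ := by
  intro n hn θ' hθ'
  obtain ⟨θ, hθ⟩ := iter_hom φ n
  have h0 : Function.Semiconj (fun x => π x) (fun x => φ x) (fun x => ψ x) := h
  have h1 : ∀ x, π (θ x) = θ' (π x) := fun x => by
    rw [hθ, hθ']
    exact h0.iterate_right n x
  have := hφ n hn θ hθ
  have h2 : ∀ x y, Tw θ x y → Tw θ' (π x) (π y) := by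
    rintro x y ⟨g, rfl⟩
    exact ⟨π g, by rw [map_mul, map_mul, map_inv, h1]⟩
  refine Finite.of_surjective (Quot.map π h2) ?_
  intro q
  obtain ⟨y, rfl⟩ := Quot.exists_rep q
  obtain ⟨x, rfl⟩ := hπ y
  exact ⟨Quot.mk _ x, rfl⟩

theorem tame_sub (htw : S_twfi.{u}) {G : Type u} [Group G] (N : Subgroup G) (hN : N.Normal)
    (hf : N.FiniteIndex) (φ : G ≃* G) (ψ : N ≃* N) (h : ∀ x : N, ((ψ x : N) : G) = φ x)
    (hφ : Tame φ) : Tame ψ := by
  intro n hn θ' hθ'
  obtain ⟨θ, hθ⟩ := iter_hom φ n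
  have h0 : Function.Semiconj (fun x : N => (x : G)) (fun x => ψ x) (fun x => φ x) := h
  have h1 : ∀ x : N, ((θ' x : N) : G) = θ x := fun x => by
    rw [hθ, hθ']
    exact h0.iterate_right n x
  exact htw G N θ θ' hN hf h1 (hφ n hn θ hθ)

theorem fg_quot {G H : Type u} [Group G] [Group H] (π : G →* H) (hπ : Function.Surjective π)
    (h : ∀ S : Subgroup G, S.FG) (S : Subgroup H) : S.FG := by
  have : Group.FG (S.comap π) := (Group.fg_iff_subgroup_fg _).mpr (h _)
  rw [← Group.fg_iff_subgroup_fg]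
  exact Group.fg_of_surjective (f := π.subgroupComap S)
    (π.subgroupComap_surjective_of_surjective S hπ)

theorem fg_sub {G : Type u} [Group G] (N : Subgroup G) (h : ∀ S : Subgroup G, S.FG)
    (S : Subgroup N) : S.FG := by
  have : Group.FG (S.map N.subtype) := (Group.fg_iff_subgroup_fg _).mpr (h _)
  rw [← Group.fg_iff_subgroup_fg]
  exact Group.fg_of_surjective (f := (S.equivMapOfInjective N.subtype N.subtype_injective).symm.toMonoidHom)
    (S.equivMapOfInjective N.subtype N.subtype_injective).symm.surjective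

theorem vn_up {G : Type u} [Group G] (N : Subgroup G) (hf : N.FiniteIndex)
    (h : Group.IsVirtuallyNilpotent N) : Group.IsVirtuallyNilpotent G := by
  obtain ⟨S, hS1, hS2⟩ := h
  refine ⟨S.map N.subtype, ?_, ?_⟩
  · exact Group.nilpotent_of_mulEquiv (S.equivMapOfInjective N.subtype N.subtype_injective)
  · refine ⟨?_⟩
    rw [Subgroup.index_map_subtype]
    exact mul_ne_zero hS2.index_ne_zero hf.index_ne_zero

theorem char_mem {G : Type u} [Group G] (A : Subgroup G) (hA : A.Characteristic) (φ : G ≃* G) (x : G) :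
    x ∈ A ↔ φ x ∈ A := by
  have h := Subgroup.characteristic_iff_comap_eq.mp hA φ
  constructor
  · intro hx
    rw [← h] at hx
    exact hx
  · intro hx
    rw [← h]
    exact hx

theorem main (hp1 : S_p1.{u}) (hfi : S_fi.{u}) (htw : S_twfi.{u}) : ∀ (d : ℕ) (G : Type u) [Group G]
    (φ : G ≃* G), (∀ S : Subgroup G, S.FG) → derivedSeries G d = ⊥ → Tame φ →
    Group.IsVirtuallyNilpotent G := by
  intro d
  induction d with
  | zero =>
    intro G _ φ _ hd _
    rw [derivedSeries_zero] at hd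
    have : Subsingleton G := by
      rw [← Subgroup.subsingleton_iff]
      exact subsingleton_of_top_le_bot hd.le
    exact Group.IsNilpotent.isVirtuallyNilpotent inferInstance
  | succ d ih =>
    intro G _ φ hfg hd ht
    obtain ⟨A, hAdef⟩ : ∃ A : Subgroup G, A = derivedSeries G d := ⟨_, rfl⟩
    have hAc : A.Characteristic := by rw [hAdef]; infer_instance
    have hAn : A.Normal := by rw [hAdef]; infer_instance
    have hAcomm : ∀ x ∈ A, ∀ y ∈ A, x * y = y * x := by
      rw [derivedSeries_succ, ← hAdef, Subgroup.commutator_eq_bot_iff_le_centralizer] at hd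
      intro x hx y hy
      exact (Subgroup.mem_centralizer_iff.mp (hd hy)) x hx
    -- the quotient
    have hmap : A.map (φ : G →* G) = A := Subgroup.characteristic_iff_map_eq.mp hAc φ
    have hqt : Tame (QuotientGroup.congr A A φ hmap) :=
      tame_quot (QuotientGroup.mk' A) (QuotientGroup.mk'_surjective A) φ _ (fun x => rfl) ht
    have hqd : derivedSeries (G ⧸ A) d = ⊥ := by
      rw [← map_derivedSeries_eq (QuotientGroup.mk'_surjective A), ← hAdef]
      rw [Subgroup.map_eq_bot_iff, QuotientGroup.ker_mk']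
    obtain ⟨Lq, hLn, hLf⟩ := ih (G ⧸ A) _ (fg_quot _ (QuotientGroup.mk'_surjective A) hfg) hqd hqt
    -- the subgroup
    have hLf2 : (Lq.comap (QuotientGroup.mk' A)).FiniteIndex := by
      refine ⟨?_⟩
      rw [Subgroup.index_comap_of_surjective _ (QuotientGroup.mk'_surjective A)]
      exact hLf.index_ne_zero
    have : Group.FG G := Group.fg_def.mpr (hfg ⊤)
    obtain ⟨N, hNf, hNle, hNc⟩ := hfi G _ hLf2
    have := hNc
    have hNn : N.Normal := inferInstance
    have hNmap : N.map (φ : G →* G) = N := Subgroup.characteristic_iff_map_eq.mp hNc φ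
    obtain ⟨ψ, hψ⟩ : ∃ ψ : N ≃* N, ∀ x : N, ((ψ x : N) : G) = φ x :=
      ⟨(φ.subgroupMap N).trans (MulEquiv.subgroupCongr hNmap), fun x => rfl⟩
    have hψt : Tame ψ := tame_sub htw N hNn hNf φ ψ hψ ht
    -- the homomorphism
    obtain ⟨f, hf⟩ : ∃ f : N →* Lq, ∀ x : N, ((f x : Lq) : G ⧸ A) = QuotientGroup.mk' A (x : G) :=
      ⟨((QuotientGroup.mk' A).comp N.subtype).codRestrict Lq (fun x => hNle x.2), fun x => rfl⟩
    have hker : ∀ x : N, x ∈ f.ker ↔ (x : G) ∈ A := by
      intro x
      rw [MonoidHom.mem_ker, ← Subtype.coe_inj, hf]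
      exact QuotientGroup.eq_one_iff _
    have := hLn
    have hnil : Group.IsNilpotent (N ⧸ f.ker) :=
      Group.nilpotent_of_mulEquiv (QuotientGroup.quotientKerEquivRange f).symm
    have hfin := hp1 N ψ f.ker (fg_sub N hfg) (fun x hx y hy => by
        apply Subtype.ext
        exact hAcomm _ ((hker x).mp hx) _ ((hker y).mp hy))
      (fun x => by
        rw [hker, hker, hψ]
        exact char_mem A hAc φ x) hnil hψt
    exact vn_up N hNf hfin

end Pol

theorem t_pol (hp1 : S_p1.{u}) (hfi : S_fi.{u}) (htw : S_twfi.{u}) : S_pol.{u} := by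
  intro G _ φ hfg hs ht
  obtain ⟨d, hd⟩ := hs.solvable
  exact Pol.main hp1 hfi htw d G φ hfg hd ht

end Pool.Agent.H827.RN
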