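import Pool.Agent.H827.RN.Fin
import Pool.Agent.H827.RN.Defs5

/-!
# Virtually polycyclic groups
-/

set_option autoImplicit false

open Subgroup

universe u v

namespace Pool.Agent.H827.RN

theorem virt_pol (hpol : S_pol.{u}) {Γ : Type u} [Group Γ] [Group.FG Γ] (φ : Γ ≃* Γ)
    (hR : ∀ n : ℕ, 1 ≤ n → Finite (Quot (Tw (it φ n))))
    (Γ₁ : Subgroup Γ) (hΓ₁ : Γ₁.FiniteIndex) (hs : Group.IsSolvable Γ₁)
    (hfg : ∀ S : Subgroup Γ₁, S.FG) : Group.IsVirtuallyNilpotent Γ := by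
  obtain ⟨Γ₂, hΓ₂, hle, hchar⟩ := t_fi Γ Γ₁ hΓ₁
  have hfgΓ₂ : Group.FG Γ₂ := inferInstance
  have hmap : ∀ x : Γ, x ∈ Γ₂ → φ x ∈ Γ₂ := fun x hx =>
    Subgroup.characteristic_iff_le_comap.1 hchar φ hx
  have hmap' : ∀ x : Γ, x ∈ Γ₂ → φ.symm x ∈ Γ₂ := fun x hx =>
    Subgroup.characteristic_iff_le_comap.1 hchar φ.symm hx
  let φ₂ : Γ₂ ≃* Γ₂ :=
    { toFun := fun x => ⟨φ (x : Γ), hmap x x.2⟩
      invFun := fun x => ⟨φ.symm (x : Γ), hmap' x x.2⟩
      left_inv := fun x => Subtype.ext (φ.symm_apply_apply (x : Γ))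
      right_inv := fun x => Subtype.ext (φ.apply_symm_apply (x : Γ))
      map_mul' := fun x y => Subtype.ext (map_mul φ (x : Γ) (y : Γ)) }
  have hcoe : ∀ (n : ℕ) (x : Γ₂), ((φ₂^[n] x : Γ₂) : Γ) = (φ^[n] : Γ → Γ) (x : Γ) := by
    intro n
    induction n with
    | zero => intro x; rfl
    | succ n ih =>
      intro x
      rw [Function.iterate_succ_apply, Function.iterate_succ_apply, ih]
      rfl
  have htame : Tame φ₂ := by
    intro n hn θ hθ
    have h1 : θ = it φ₂ n := MonoidHom.ext hθ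
    rw [h1]
    exact t_twfi Γ Γ₂ (it φ n) (it φ₂ n) inferInstance hΓ₂ (fun x => hcoe n x) (hR n hn)
  have hinj : Function.Injective (Subgroup.inclusion hle) := Subgroup.inclusion_injective hle
  have hs2 : Group.IsSolvable Γ₂ := Group.isSolvable_of_isSolvable_injective hinj
  have hfg2 : ∀ S : Subgroup Γ₂, S.FG := by
    intro S
    have h1 : (S.map (Subgroup.inclusion hle)).FG := hfg _
    have h2 : Group.FG (S.map (Subgroup.inclusion hle)) := (Group.fg_iff_subgroup_fg _).2 h1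
    have e := S.equivMapOfInjective (Subgroup.inclusion hle) hinj
    have h3 : Group.FG S := Group.fg_of_surjective (f := e.symm.toMonoidHom) e.symm.surjective
    exact (Group.fg_iff_subgroup_fg _).1 h3
  exact vn_of_fi Γ₂ hΓ₂ (hpol Γ₂ φ₂ hfg2 hs2 htame)

end Pool.Agent.H827.RN
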