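import Pool.Agent.H827.RN.Fin
import Pool.Agent.H345.RInfAbstract

/-!
# Finite simple quotients of groups with automorphisms with finite Reidemeister numbers
-/

set_option autoImplicit false

open Subgroup

universe u v

namespace Pool.Agent.H827.RN

open Pool.Agent.H345.RInf

/-- finitely generated groups have finitely many homomorphisms to a finite group -/
theorem finite_hom_fg (A : Type u) [Group A] [hA : Group.FG A] (Q : Type) [Group Q] [Finite Q] :
    Finite (A →* Q) := by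
  obtain ⟨S, hS⟩ := hA.out
  refine Finite.of_injective (fun (f : A →* Q) (s : S) => f s) ?_
  intro f g h
  refine MonoidHom.eq_of_eqOn_dense hS fun s hs => ?_
  exact congrFun h ⟨s, hs⟩

theorem not_rInf {A : Type u} [Group A] (φ : A ≃* A) (h : Finite (Quot (Tw (it φ 1)))) :
    ¬ HasRInf A := by
  intro hinf
  have h1 := hinf φ
  let F : Quotient (twSetoid φ) → Quot (Tw (it φ 1)) := Quotient.lift (fun x => Quot.mk _ x⁻¹) (by
    rintro x y ⟨g, rfl⟩
    refine Quot.sound ⟨g, ?_⟩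
    rw [it_apply, Function.iterate_one]
    group)
  have hF : Function.Injective F := by
    intro q r
    induction q using Quotient.inductionOn with
    | h x =>
      induction r using Quotient.inductionOn with
      | h y =>
        intro hxy
        have h2 : Quot.mk (Tw (it φ 1)) x⁻¹ = Quot.mk (Tw (it φ 1)) y⁻¹ := hxy
        have h3 : Equivalence (Tw (it φ 1)) := by
          refine ⟨fun x => ⟨1, by simp⟩, ?_, ?_⟩
          · rintro x y ⟨g, rfl⟩
            exact ⟨g⁻¹, by rw [map_inv]; group⟩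
          · rintro x y z ⟨g, rfl⟩ ⟨h, rfl⟩
            exact ⟨h * g, by rw [map_mul]; group⟩
        have h4 := (Equivalence.eqvGen_iff h3).1 (Quot.eqvGen_exact h2)
        obtain ⟨g, hg⟩ := h4
        refine Quotient.sound ⟨g, ?_⟩
        rw [it_apply, Function.iterate_one] at hg
        have h5 := congrArg (fun z => z⁻¹) hg
        simp only [mul_inv_rev, inv_inv] at h5
        rw [h5]
        group
  exact not_finite_iff_infinite.2 h1 (Finite.of_injective F hF)

/-- the finite simple quotients of a subgroup of finite index have bounded order -/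
theorem simple_bound {Γ : Type u} [Group Γ] [Group.FG Γ] (φ : Γ ≃* Γ)
    (hR : Finite (Quot (Tw (it φ 1))))
    (Γ₁ : Subgroup Γ) (hΓ₁ : Γ₁.FiniteIndex) :
    ∃ B : ℕ, ∀ (Q : Type) [Group Q] [Finite Q] (π : Γ₁ →* Q), Function.Surjective π →
      IsSimpleGroup Q → (∃ a b : Q, a * b ≠ b * a) → (∀ ψ : Q ≃* Q, ∃ x : Q, x ≠ 1 ∧ ψ x = x) →
        Nat.card Q ≤ B := by
  obtain ⟨Γ₂, hΓ₂, hle, hchar⟩ := t_fi Γ Γ₁ hΓ₁
  have hfgΓ₂ : Group.FG Γ₂ := inferInstance
  have hmap : ∀ x : Γ, x ∈ Γ₂ → φ x ∈ Γ₂ := fun x hx =>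
    Subgroup.characteristic_iff_le_comap.1 hchar φ hx
  have hmap' : ∀ x : Γ, x ∈ Γ₂ → φ.symm x ∈ Γ₂ := fun x hx =>
    Subgroup.characteristic_iff_le_comap.1 hchar φ.symm hx
  let φ₂ : Γ₂ ≃* Γ₂ :=
    { toFun := fun x => ⟨φ (x : Γ), hmap x x.2⟩
      invFun := fun x => ⟨φ.symm (x : Γ), hmap' x x.2⟩
      left_inv := fun x => Subtype.ext (φ.symm_apply_apply (x : Γ))
      right_inv := fun x => Subtype.ext (φ.apply_symm_apply (x : Γ))
      map_mul' := fun x y => Subtype.ext (map_mul φ (x : Γ) (y : Γ)) }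
  have hfin : Finite (Quot (Tw (it φ₂ 1))) :=
    t_twfi Γ Γ₂ (it φ 1) (it φ₂ 1) inferInstance hΓ₂ (fun x => rfl) hR
  by_contra hcon
  push Not at hcon
  refine not_rInf φ₂ hfin (hasRInf_of_quotients (fun Q _ _ => finite_hom_fg Γ₂ Q) fun n => ?_)
  obtain ⟨Q, iQ, hQ, π, hπ, hs, hnc, hfp, hcard⟩ := hcon (max n (Γ₂.subgroupOf Γ₁).index)
  refine ⟨Q, iQ, hQ, (le_max_left _ _).trans_lt hcard, hs, hnc, hfp,
    π.comp (Subgroup.inclusion hle), ?_⟩
  have hn : (Γ₂.subgroupOf Γ₁).Normal := inferInstance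
  have hmapn : ((Γ₂.subgroupOf Γ₁).map π).Normal := hn.map π hπ
  have hrange : (π.comp (Subgroup.inclusion hle)).range = (Γ₂.subgroupOf Γ₁).map π := by
    ext q
    constructor
    · rintro ⟨x, rfl⟩
      exact ⟨⟨x, hle x.2⟩, Subgroup.mem_subgroupOf.2 x.2, rfl⟩
    · rintro ⟨x, hx, rfl⟩
      exact ⟨⟨x, Subgroup.mem_subgroupOf.1 hx⟩, rfl⟩
  rcases hmapn.eq_bot_or_eq_top with h1 | h1
  · exfalso
    have h2 : Γ₂.subgroupOf Γ₁ ≤ π.ker := by
      intro x hx
      rw [MonoidHom.mem_ker, ← Subgroup.mem_bot, ← h1]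
      exact ⟨x, hx, rfl⟩
    have h3 := Subgroup.index_dvd_of_le h2
    have h4 : π.ker.index = Nat.card Q := by
      rw [Subgroup.index_ker, MonoidHom.range_eq_top.2 hπ]
      exact Nat.card_congr Subgroup.topEquiv.toEquiv
    have h5 : (Γ₂.subgroupOf Γ₁).FiniteIndex := inferInstance
    have h6 := Nat.le_of_dvd (Nat.pos_of_ne_zero h5.index_ne_zero) h3
    rw [h4] at h6
    have h7 := (le_max_right n (Γ₂.subgroupOf Γ₁).index).trans_lt hcard
    omega
  · rw [← MonoidHom.range_eq_top, hrange, h1]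

end Pool.Agent.H827.RN
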