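import Pool.Agent.H827.RN.Geo
import Pool.Agent.H827.RN.Defs4
import Pool.Graph.R_pool_sql_team_seeded_620a6dc7.Results.MP_5c499f_an.ReidemeisterNumbers
import Pool.Graph.R_pool_sql_team_seeded_620a6dc7.Results.MP_5c499f_an.FundamentalGroupClassification
import Pool.Graph.R_seed8.H779R2.To.TDef

/-!
# Virtually abelian deck groups: hyperbolic automorphisms of flat manifolds
-/

set_option autoImplicit false

open scoped Manifold ContDiff Topology
open Set Filter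

universe u v w

namespace Pool.Agent.H827.RN

open Pool.Agent.H721R2 Pool.Agent.H789R2.AN Pool.Agent.H223.CE
open Pool.Agent.H223.CC (CPair coc finite_return zexp_of_bounded zpow_succ_apply zpow_nat_apply
  zpow_neg_nat_apply)
open Pool.Agent.H779R2.To (HypMat)

theorem tf_of_rtfn {G : Type u} [Group G] (h : RTFN G) : TF G := by
  intro x m hm hx
  by_contra hne
  obtain ⟨N, hN, -, htf, hxN⟩ := h x hne
  have h1 := htf (QuotientGroup.mk' N x) m hm (by rw [← map_pow, hx, map_one])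
  rw [← MonoidHom.mem_ker, QuotientGroup.ker_mk'] at h1
  exact hxN h1

/-- the group theoretic part -/
theorem exists_abelian {Γ : Type u} [Group Γ] [Group.FG Γ] (hvn : Group.IsVirtuallyNilpotent Γ)
    (Γ₁ : Subgroup Γ) (hf : Γ₁.FiniteIndex) (hR : RTFN Γ₁)
    (hab : ∀ H : Subgroup Γ₁, Group.IsNilpotent H → ∀ x ∈ H, ∀ y ∈ H, x * y = y * x) :
    ∃ Λ : Subgroup Γ, Λ.FiniteIndex ∧ Λ.Characteristic ∧ (∀ x y : Λ, x * y = y * x) ∧ TF Λ := by
  obtain ⟨N, hN, hNf⟩ := hvn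
  obtain ⟨Λ, hΛ, hle, hchar⟩ := t_fi Γ (Γ₁ ⊓ N) inferInstance
  have hle1 : Λ ≤ Γ₁ := hle.trans inf_le_left
  have hleN : Λ ≤ N := hle.trans inf_le_right
  have hnil : Group.IsNilpotent Λ := by
    have : Group.IsNilpotent (Λ.subgroupOf N) := inferInstance
    exact (Group.isNilpotent_congr (Subgroup.subgroupOfEquivOfLe hleN)).1 this
  have hnil1 : Group.IsNilpotent (Λ.subgroupOf Γ₁) :=
    (Group.isNilpotent_congr (Subgroup.subgroupOfEquivOfLe hle1)).2 hnil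
  refine ⟨Λ, hΛ, hchar, fun x y => ?_, fun x m hm hx => ?_⟩
  · have h1 := hab (Λ.subgroupOf Γ₁) hnil1 ⟨x, hle1 x.2⟩ (Subgroup.mem_subgroupOf.2 x.2)
      ⟨y, hle1 y.2⟩ (Subgroup.mem_subgroupOf.2 y.2)
    exact Subtype.ext (congrArg (fun z : Γ₁ => (z : Γ)) h1)
  · have h1 := tf_of_rtfn hR ⟨x, hle1 x.2⟩ m hm (Subtype.ext (congrArg (fun z : Λ => (z : Γ)) hx))
    exact Subtype.ext (congrArg (fun z : Γ₁ => (z : Γ)) h1)

/-- cocompactness of normal subgroups of finite index -/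
theorem coc_fi {Γ X : Type*} [Group Γ] [MetricSpace X] [MulAction Γ X] [IsIsometricSMul Γ X]
    (Λ : Subgroup Γ) (hN : Λ.Normal) (hf : Λ.FiniteIndex) (x0 : X)
    (h : ∃ a : ℝ, ∀ x : X, ∃ γ : Γ, dist x (γ • x0) ≤ a) :
    ∃ a : ℝ, ∀ x : X, ∃ l : Λ, dist x (l • x0) ≤ a := by
  obtain ⟨a, ha⟩ := h
  have hfin : Finite (Γ ⧸ Λ) := Subgroup.finite_quotient_of_finiteIndex
  obtain ⟨b, hb⟩ := (Set.finite_range (fun q : Γ ⧸ Λ => dist (q.out • x0) x0)).bddAbove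
  refine ⟨a + b, fun x => ?_⟩
  obtain ⟨γ, hγ⟩ := ha x
  have h1 : γ * ((γ : Γ ⧸ Λ).out)⁻¹ ∈ Λ := by
    have h2 : ((γ : Γ ⧸ Λ).out)⁻¹ * γ ∈ Λ := by
      rw [← QuotientGroup.eq]
      exact QuotientGroup.out_eq' _
    exact (hN.mem_comm_iff).1 h2
  refine ⟨⟨_, h1⟩, ?_⟩
  have h3 : dist (γ • x0) ((γ * ((γ : Γ ⧸ Λ).out)⁻¹) • x0) ≤ b := by
    have h4 : dist (γ • x0) ((γ * ((γ : Γ ⧸ Λ).out)⁻¹) • x0) =
        dist ((γ : Γ ⧸ Λ).out • x0) x0 := by
      rw [← dist_smul (γ * ((γ : Γ ⧸ Λ).out)⁻¹) ((γ : Γ ⧸ Λ).out • x0) x0, smul_smul,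
        inv_mul_cancel_right]
    rw [h4]
    exact hb ⟨_, rfl⟩
  exact (dist_triangle _ _ _).trans (add_le_add hγ h3)

/-- the homeomorphism given by an integer matrix -/
theorem exists_matHomeo {k : ℕ} (A : Matrix (Fin k) (Fin k) ℤ) (hA : IsUnit A.det) :
    ∃ G : (Fin k → ℝ) ≃ₜ (Fin k → ℝ), ∀ y, G y = (A.map (Int.cast : ℤ → ℝ)).mulVec y := by
  have h1 : A * A⁻¹ = 1 := Matrix.mul_nonsing_inv A hA
  have h2 : A⁻¹ * A = 1 := Matrix.nonsing_inv_mul A hA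
  have hm : ∀ B C : Matrix (Fin k) (Fin k) ℤ, B * C = 1 →
      (B.map (Int.cast : ℤ → ℝ)) * (C.map (Int.cast : ℤ → ℝ)) = 1 := by
    intro B C h
    have h3 : ((Int.castRingHom ℝ).mapMatrix B) * ((Int.castRingHom ℝ).mapMatrix C) = 1 := by
      rw [← map_mul, h, map_one]
    exact h3
  have hc : ∀ B : Matrix (Fin k) (Fin k) ℝ, Continuous fun y => B.mulVec y := fun B =>
    (Matrix.mulVecLin B).continuous_of_finiteDimensional
  refine ⟨{ toFun := fun y => (A.map (Int.cast : ℤ → ℝ)).mulVec y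
            invFun := fun y => (A⁻¹.map (Int.cast : ℤ → ℝ)).mulVec y
            left_inv := fun y => ?_
            right_inv := fun y => ?_
            continuous_toFun := hc _
            continuous_invFun := hc _ }, fun y => rfl⟩
  · show (A⁻¹.map (Int.cast : ℤ → ℝ)).mulVec ((A.map (Int.cast : ℤ → ℝ)).mulVec y) = y
    rw [Matrix.mulVec_mulVec, hm _ _ h2, Matrix.one_mulVec]
  · show (A.map (Int.cast : ℤ → ℝ)).mulVec ((A⁻¹.map (Int.cast : ℤ → ℝ)).mulVec y) = y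
    rw [Matrix.mulVec_mulVec, hm _ _ h1, Matrix.one_mulVec]

theorem vec_add {k : ℕ} (a b : Fin k → ℤ) : vec (a + b) = vec a + vec b := by
  funext i
  simp [vec]

theorem vec_zero {k : ℕ} : vec (0 : Fin k → ℤ) = 0 := by
  funext i
  simp [vec]

theorem vec_mulVec {k : ℕ} (A : Matrix (Fin k) (Fin k) ℤ) (z : Fin k → ℤ) :
    vec (A.mulVec z) = (A.map (Int.cast : ℤ → ℝ)).mulVec (vec z) := by
  funext i
  simp [vec, Matrix.mulVec, dotProduct]

/-- **Abelian groups of finite index.** -/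
theorem upstairs (hmat : S_mat.{v}) (hab : S_ab.{v}) (hpt : S_pt.{v}) (hlin : S_lin)
    (hcp : S_cp.{v}) (haff : S_aff.{v})
    {X Γ : Type v} [MetricSpace X] [ProperSpace X] [Group Γ] [MulAction Γ X]
    [IsIsometricSMul Γ X] [Group.FG Γ] (φ : Γ ≃* Γ) (F : X ≃ₜ X)
    (hφ : ∀ (γ : Γ) (x : X), F (γ • x) = φ γ • F x) (x0 : X)
    (hcoc : ∃ a : ℝ, ∀ x : X, ∃ γ : Γ, dist x (γ • x0) ≤ a)
    (hfin : ∀ a : ℝ, {γ : Γ | dist (γ • x0) x0 ≤ a}.Finite)
    (hCH : CoarselyHyperbolic F)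
    (hgps : ∀ x y, ∃ w, As F x w ∧ As F.symm y w)
    (hexp : ∀ (u v : X) (B : ℝ), (∀ n : ℤ, dist ((F ^ n) u) ((F ^ n) v) ≤ B) → u = v)
    (Λ : Subgroup Γ) (hΛ : Λ.FiniteIndex) (hchar : Λ.Characteristic)
    (hcomm : ∀ x y : Λ, x * y = y * x) (htf : TF Λ) :
    ∃ (k : ℕ) (e : Λ ≃* Multiplicative (Fin k → ℤ)) (A : Matrix (Fin k) (Fin k) ℤ)
      (H : X ≃ₜ (Fin k → ℝ)), IsUnit A.det ∧ HypMat A ∧
      (∀ (l : Λ) (x : X), H (l • x) = H x + vec (e l).toAdd) ∧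
      (∀ x, H (F x) = (A.map (Int.cast : ℤ → ℝ)).mulVec (H x)) ∧
      ∀ γ : Γ, ∃ (R : Matrix (Fin k) (Fin k) ℤ) (t : Fin k → ℝ), IsUnit R.det ∧
        (∃ m : ℕ, 1 ≤ m ∧ R ^ m = 1) ∧
        ∀ x, H (γ • x) = (R.map (Int.cast : ℤ → ℝ)).mulVec (H x) + t := by
  have hnorm : Λ.Normal := inferInstance
  have hfgΛ : Group.FG Λ := inferInstance
  obtain ⟨k, ⟨e⟩⟩ := hab Λ hcomm htf
  have hmap : ∀ x : Γ, x ∈ Λ → φ x ∈ Λ := fun x hx =>
    Subgroup.characteristic_iff_le_comap.1 hchar φ hx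
  have hmap' : ∀ x : Γ, x ∈ Λ → φ.symm x ∈ Λ := fun x hx =>
    Subgroup.characteristic_iff_le_comap.1 hchar φ.symm hx
  let φ₂ : Λ ≃* Λ :=
    { toFun := fun x => ⟨φ (x : Γ), hmap x x.2⟩
      invFun := fun x => ⟨φ.symm (x : Γ), hmap' x x.2⟩
      left_inv := fun x => Subtype.ext (φ.symm_apply_apply (x : Γ))
      right_inv := fun x => Subtype.ext (φ.apply_symm_apply (x : Γ))
      map_mul' := fun x y => Subtype.ext (map_mul φ (x : Γ) (y : Γ)) }
  obtain ⟨A, hA, hAe⟩ := hmat Λ k e φ₂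
  obtain ⟨G, hG⟩ := exists_matHomeo A hA
  have hcocΛ := coc_fi Λ hnorm hΛ x0 hcoc
  haveI hisoΛ : IsIsometricSMul Λ X := ⟨fun l => isometry_smul X (l : Γ)⟩
  have hfinΛ : ∀ a : ℝ, {l : Λ | dist (l • x0) x0 ≤ a}.Finite := by
    intro a
    exact Set.Finite.of_injOn (f := fun l : Λ => (l : Γ)) (t := {γ : Γ | dist (γ • x0) x0 ≤ a})
      (fun l hl => hl) (fun l _ l' _ h => Subtype.ext h) (hfin a)
  have hφΛ : ∀ (l : Λ) (x : X), F (l • x) = φ₂ l • F x := fun l x => hφ l x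
  have hbd := hpt Λ X k e φ₂ F A G x0 hφΛ hAe hG hcocΛ hfinΛ hCH
  obtain ⟨hHM, ⟨N, hN, hNG⟩, hgpsG⟩ := hlin k A G hA hG hbd
  obtain ⟨hc1, hc2, hc3⟩ := hcp Λ X k e x0 hfinΛ
  letI act : MulAction Λ (Fin k → ℝ) :=
    { smul := fun l y => y + vec (e l).toAdd
      one_smul := fun y => by
        show y + vec (e 1).toAdd = y
        rw [map_one, toAdd_one, vec_zero, add_zero]
      mul_smul := fun l l' y => by
        show y + vec (e (l * l')).toAdd = y + vec (e l').toAdd + vec (e l).toAdd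
        rw [map_mul, toAdd_mul, vec_add, add_assoc, add_comm (vec (e l').toAdd)] }
  have hact : ∀ (l : Λ) (y : Fin k → ℝ), l • y = y + vec (e l).toAdd := fun _ _ => rfl
  haveI : IsIsometricSMul Λ (Fin k → ℝ) := ⟨fun l => by
    refine Isometry.of_dist_eq fun y y' => ?_
    rw [hact, hact, dist_add_right]⟩
  have hGz : ∀ (n : ℤ) (u v : Fin k → ℝ), (G ^ n) u - (G ^ n) v = (G ^ n) (u - v) := by
    have hG1 : ∀ u v, G (u - v) = G u - G v := fun u v => by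
      rw [hG, hG, hG, Matrix.mulVec_sub]
    intro n
    induction n using Int.induction_on with
    | zero => intro u v; rfl
    | succ n ih =>
      intro u v
      rw [zpow_succ_apply, zpow_succ_apply, zpow_succ_apply, ← hG1, ih]
    | pred n ih =>
      intro u v
      apply G.injective
      have e1 : ∀ y, G ((G ^ (-(n : ℤ) - 1)) y) = (G ^ (-(n : ℤ))) y := fun y => by
        rw [← zpow_succ_apply, sub_add_cancel]
      rw [hG1, e1, e1, e1, ih]
  have hexpG : ∀ (u v : Fin k → ℝ) (B : ℝ), (∀ n : ℤ, dist ((G ^ n) u) ((G ^ n) v) ≤ B) →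
      u = v := by
    intro u v B hB
    have h1 : u - v = 0 := by
      refine hbd (u - v) B (fun n => ?_) (fun n => ?_)
      · rw [← zpow_nat_apply, ← hGz, ← dist_eq_norm]; exact hB n
      · rw [← zpow_neg_nat_apply, ← hGz, ← dist_eq_norm]; exact hB (-n)
    exact sub_eq_zero.1 h1
  have hpair : CPair Λ φ₂ F G x0 (0 : Fin k → ℝ) :=
    { cocX := hcocΛ
      cocY := by
        obtain ⟨a, ha⟩ := hc1
        exact ⟨a, fun y => by
          obtain ⟨l, hl⟩ := ha y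
          exact ⟨l, by rw [hact, zero_add]; exact hl⟩⟩
      cmp := by
        intro a
        obtain ⟨b, hb⟩ := hc2 a
        exact ⟨b, fun l hl => by rw [hact, zero_add, dist_zero_right]; exact hb l hl⟩
      cmp' := by
        intro a
        obtain ⟨b, hb⟩ := hc3 a
        exact ⟨b, fun l hl => by
          rw [hact, zero_add, dist_zero_right] at hl
          exact hb l hl⟩
      eqF := hφΛ
      eqG := fun l y => by
        rw [hact, hact, hG, hG, Matrix.mulVec_add, hAe, vec_mulVec] }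
  obtain ⟨N', hN', R', hCH'⟩ := hCH
  obtain ⟨H, hH1, hH2⟩ := hpair.exists_homeo (R := 0) hN (fun x y _ => hNG x y) hgpsG hexpG
    hN' hCH' hgps hexp
  refine ⟨k, e, A, H, hA, hHM, hH2, fun x => by rw [hH1, hG], ?_⟩
  exact haff Γ X Λ k e φ F A G H x0 hnorm hΛ
    (fun γ => ⟨hmap γ, fun h => by simpa using hmap' _ h⟩) hφ hA
    (fun l h => hAe l) hG hbd H.continuous hH2 hH1 hcocΛ

end Pool.Agent.H827.RN
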