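import Pool.Agent.H827.RN.Defs5

/-!
# Task W of project RN: integral fixed vectors of a subgroup of finite index
-/

set_option autoImplicit false

open Subgroup

universe u

namespace Pool.Agent.H827.RN

namespace W

/-- Integer matrices as complex matrices. -/
noncomputable def cx (r : ℕ) : Matrix (Fin r) (Fin r) ℤ →+* Matrix (Fin r) (Fin r) ℂ :=
  (Int.castRingHom ℂ).mapMatrix

lemma finite_eig {r : ℕ} (A : Matrix (Fin r) (Fin r) ℂ) :
    {c : ℂ | ∃ v : Fin r → ℂ, v ≠ 0 ∧ A.mulVec v = c • v}.Finite := by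
  refine (Module.End.finite_hasEigenvalue (Matrix.toLin' A)).subset ?_
  rintro c ⟨v, hv, h⟩
  exact Module.End.hasEigenvalue_of_hasEigenvector (x := v)
    ⟨Module.End.mem_eigenspace_iff.mpr (by simpa using h), hv⟩

lemma finite_chars {r : ℕ} {G : Type u} [Group G] [Group.FG G]
    (ρ : G →* Matrix (Fin r) (Fin r) ℂ) :
    {χ : G →* ℂ | ∃ v : Fin r → ℂ, v ≠ 0 ∧ ∀ h, (ρ h).mulVec v = χ h • v}.Finite := by
  obtain ⟨S, hS⟩ := Group.fg_iff.mp (inferInstance : Group.FG G)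
  obtain ⟨hS, hfin⟩ := hS
  have : Finite S := hfin
  have hpi : Set.Finite (Set.pi Set.univ
      fun s : S => {c : ℂ | ∃ v : Fin r → ℂ, v ≠ 0 ∧ (ρ s).mulVec v = c • v}) :=
    Set.Finite.pi fun s => finite_eig (ρ s)
  refine (hpi.preimage (f := fun (χ : G →* ℂ) (s : S) => χ s) ?_).subset ?_
  · intro χ _ χ' _ h
    refine MonoidHom.eq_of_eqOn_dense hS ?_
    intro s hs
    exact congrFun h ⟨s, hs⟩
  · rintro χ ⟨v, hv, h⟩ s _
    exact ⟨v, hv, h s⟩

lemma exists_char {r : ℕ} {G : Type u} [Group G] (ρ : G →* Matrix (Fin r) (Fin r) ℂ)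
    (v : Fin r → ℂ) (hv : v ≠ 0) (h : ∀ g, ∃ c : ℂ, (ρ g).mulVec v = c • v) :
    ∃ χ : G →* ℂ, ∀ g, (ρ g).mulVec v = χ g • v := by
  choose c hc using h
  refine ⟨{ toFun := c, map_one' := ?_, map_mul' := ?_ }, hc⟩
  · have h1 := hc 1
    rw [map_one, Matrix.one_mulVec] at h1
    have h2 : (fun t : ℂ => t • v) (c 1) = (fun t : ℂ => t • v) 1 := by
      simp only [one_smul]; exact h1.symm
    exact smul_left_injective ℂ hv h2
  · intro a b
    have h1 := hc (a * b)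
    rw [map_mul, ← Matrix.mulVec_mulVec, hc b, Matrix.mulVec_smul, hc a, smul_smul] at h1
    have h2 : (fun t : ℂ => t • v) (c (a * b)) = (fun t : ℂ => t • v) (c a * c b) := by
      simp only []; rw [← h1, mul_comm]
    exact smul_left_injective ℂ hv h2

lemma int_vector {r : ℕ} (v : Fin r → ℂ) (hv : v ≠ 0) :
    ∃ z : Fin r → ℤ, z ≠ 0 ∧ ∀ A : Matrix (Fin r) (Fin r) ℤ,
      (cx r A).mulVec v = v → A.mulVec z = z := by
  obtain ⟨i, hi⟩ := Function.ne_iff.mp hv
  have hL : ∃ L : ℂ →ₗ[ℚ] ℚ, L (v i) ≠ 0 := by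
    by_contra h
    push Not at h
    exact hi ((Module.forall_dual_apply_eq_zero_iff ℚ (v i)).mp h)
  obtain ⟨L, hL⟩ := hL
  obtain ⟨b, hb⟩ := IsLocalization.exist_integer_multiples_of_finite (nonZeroDivisors ℤ)
    (fun j => L (v j))
  choose z hz using hb
  have hz' : ∀ j, ((z j : ℤ) : ℚ) = ((b : ℤ) : ℚ) * L (v j) := by
    intro j
    have := hz j
    simpa using this
  have hb0 : ((b : ℤ) : ℚ) ≠ 0 := by
    have := nonZeroDivisors.coe_ne_zero b
    exact_mod_cast this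
  refine ⟨z, ?_, ?_⟩
  · intro h0
    have h1 := hz' i
    rw [h0] at h1
    simp only [Pi.zero_apply, Int.cast_zero] at h1
    rcases mul_eq_zero.mp h1.symm with h | h
    · exact hb0 h
    · exact hL h
  · intro A hA
    ext j
    have h1 : ∑ k, ((A j k : ℤ) : ℂ) * v k = v j := by
      have := congrFun hA j
      simpa [cx, Matrix.mulVec, dotProduct] using this
    have h2 : ∑ k, ((A j k : ℤ) : ℚ) * L (v k) = L (v j) := by
      rw [← h1, map_sum]
      refine Finset.sum_congr rfl fun k _ => ?_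
      have : ((A j k : ℤ) : ℂ) * v k = ((A j k : ℤ) : ℚ) • v k := by
        rw [Algebra.smul_def]; simp
      rw [this, map_smul, smul_eq_mul]
    have h3 : ((∑ k, A j k * z k : ℤ) : ℚ) = ((z j : ℤ) : ℚ) := by
      push_cast
      rw [hz' j, ← h2, Finset.mul_sum]
      refine Finset.sum_congr rfl fun k _ => ?_
      rw [hz' k]; ring
    have h4 : ∑ k, A j k * z k = z j := by exact_mod_cast h3
    simpa [Matrix.mulVec, dotProduct] using h4

lemma iter_pow {G : Type u} [Group G] (φ : MulAut G) (n : ℕ) (x : G) :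
    (φ ^ n) x = (fun y => φ y)^[n] x := by
  induction n with
  | zero => simp
  | succ n ih =>
    rw [pow_succ', MulAut.mul_apply, ih, Function.iterate_succ_apply']

end W

open W in
theorem t_w (heig : S_eig.{u}) (hfi : S_fi.{u}) (htw : S_twfi.{u}) : S_w.{u} := by
  intro H _ _ K _ r ρ φ Φ Φ' hr hnil hK hΦ hcomm htame
  let ρC : H →* Matrix (Fin r) (Fin r) ℂ := (cx r).toMonoidHom.comp ρ
  have hρC : ∀ h, ρC h = cx r (ρ h) := fun h => rfl
  obtain ⟨H₁, v, hH₁, hv, hev⟩ := heig H K r ρC hr hnil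
    (fun k hk => by rw [hρC, hK k hk, map_one])
  obtain ⟨H₂, hH₂, hle, hchar⟩ := hfi H H₁ hH₁
  have := hH₂
  have := hchar
  have : Group.FG H₂ := inferInstance
  -- the restriction of φ
  have hmem : ∀ x, x ∈ H₂ ↔ φ x ∈ H₂ := by
    intro x
    have h1 := hchar.fixed φ
    have h2 : x ∈ H₂.comap φ.toMonoidHom ↔ x ∈ H₂ := by rw [h1]
    exact h2.symm
  let φ₂ : MulAut H₂ :=
    { toFun := fun x => ⟨φ x, (hmem x).mp x.2⟩
      invFun := fun x => ⟨φ.symm x, (hmem _).mpr (by simp)⟩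
      left_inv := fun x => by ext; simp
      right_inv := fun x => by ext; simp
      map_mul' := fun x y => by ext; simp }
  have hφ₂ : ∀ x : H₂, ((φ₂ x : H₂) : H) = φ x := fun x => rfl
  let ρ₂ : H₂ →* Matrix (Fin r) (Fin r) ℂ := ρC.comp H₂.subtype
  have hρ₂ : ∀ x : H₂, ρ₂ x = cx r (ρ x) := fun x => rfl
  obtain ⟨χ, hχ⟩ := exists_char ρ₂ v hv (fun g => hev g (hle g.2))
  -- the vectors v_n
  have hΦ2 : cx r Φ' * cx r Φ = 1 := by
    rw [← map_mul, mul_eq_one_comm.mp hΦ, map_one]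
  let vn : ℕ → (Fin r → ℂ) := fun n => (fun w => (cx r Φ).mulVec w)^[n] v
  have hvn0 : vn 0 = v := rfl
  have hvns : ∀ n, vn (n + 1) = (cx r Φ).mulVec (vn n) := by
    intro n
    exact Function.iterate_succ_apply' _ _ _
  have hvn : ∀ n, vn n ≠ 0 := by
    intro n
    induction n with
    | zero => exact hv
    | succ n ih =>
      intro h0
      apply ih
      rw [hvns] at h0
      have := congrArg (fun w => (cx r Φ').mulVec w) h0
      simpa [Matrix.mulVec_mulVec, hΦ2] using this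
  have hvχ : ∀ n (g : H₂), (ρ₂ ((φ₂ ^ n) g)).mulVec (vn n) = χ g • vn n := by
    intro n
    induction n with
    | zero => intro g; simpa [hvn0] using hχ g
    | succ n ih =>
      intro g
      rw [hvns, pow_succ', MulAut.mul_apply, Matrix.mulVec_mulVec, hρ₂, hφ₂, ← map_mul, hcomm,
        map_mul, ← Matrix.mulVec_mulVec, ← hρ₂, ih g, Matrix.mulVec_smul]
  let χn : ℕ → (H₂ →* ℂ) := fun n => χ.comp ((φ₂ ^ n)⁻¹ : MulAut H₂).toMonoidHom
  have hχn : ∀ n (g : H₂), χn n g = χ ((φ₂ ^ n)⁻¹ g) := fun n g => rfl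
  have hχX : ∀ n, χn n ∈ {χ : H₂ →* ℂ | ∃ v : Fin r → ℂ, v ≠ 0 ∧
      ∀ h, (ρ₂ h).mulVec v = χ h • v} := by
    intro n
    refine ⟨vn n, hvn n, fun g => ?_⟩
    have := hvχ n ((φ₂ ^ n)⁻¹ g)
    rw [hχn]
    rwa [MulAut.apply_inv_self] at this
  have hXfin : Finite {χ : H₂ →* ℂ | ∃ v : Fin r → ℂ, v ≠ 0 ∧
      ∀ h, (ρ₂ h).mulVec v = χ h • v} := finite_chars ρ₂
  obtain ⟨m, n, hmn, heq⟩ := Finite.exists_ne_map_eq_of_infinite
    (fun n : ℕ => (⟨χn n, hχX n⟩ : {χ : H₂ →* ℂ | ∃ v : Fin r → ℂ, v ≠ 0 ∧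
      ∀ h, (ρ₂ h).mulVec v = χ h • v}))
  have heq' : χn m = χn n := congrArg Subtype.val heq
  -- a power of φ fixes χ
  have hk : ∃ k : ℕ, 1 ≤ k ∧ ∀ g : H₂, χ ((φ₂ ^ k) g) = χ g := by
    have key : ∀ a b : ℕ, a < b → χn a = χn b → ∃ k : ℕ, 1 ≤ k ∧ ∀ g : H₂,
        χ ((φ₂ ^ k) g) = χ g := by
      intro a b hab h
      refine ⟨b - a, by omega, fun g => ?_⟩
      have h1 : χn a ((φ₂ ^ b) g) = χn b ((φ₂ ^ b) g) := by rw [h]
      rw [hχn, hχn, MulAut.inv_apply_self] at h1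
      rw [← h1]
      congr 1
      have h2 : φ₂ ^ b = φ₂ ^ a * φ₂ ^ (b - a) := by rw [← pow_add]; congr 1; omega
      rw [h2, MulAut.mul_apply, MulAut.inv_apply_self]
    rcases lt_or_gt_of_ne hmn with h | h
    · exact key m n h heq'
    · exact key n m h heq'.symm
  obtain ⟨k, hk1, hkχ⟩ := hk
  -- finitely many twisted classes
  have hθ : ∀ x, ((φ : MulAut H) ^ k).toMonoidHom x = φ^[k] x := by
    intro x
    exact iter_pow φ k x
  have hcoe : ∀ (j : ℕ) (x : H₂), (((φ₂ ^ j) x : H₂) : H) = (φ ^ j : MulAut H) (x : H) := by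
    intro j
    induction j with
    | zero => intro x; simp
    | succ j ih => intro x; rw [pow_succ', MulAut.mul_apply, hφ₂, ih, pow_succ', MulAut.mul_apply]
  have hfin := htame k hk1 ((φ : MulAut H) ^ k).toMonoidHom hθ
  have hfin2 : Finite (Quot (Tw ((φ₂ ^ k : MulAut H₂).toMonoidHom))) :=
    htw H H₂ ((φ : MulAut H) ^ k).toMonoidHom (φ₂ ^ k : MulAut H₂).toMonoidHom inferInstance hH₂
      (fun x => hcoe k x) hfin
  have hconst : ∀ x y : H₂, Tw ((φ₂ ^ k : MulAut H₂).toMonoidHom) x y → χ x = χ y := by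
    rintro x y ⟨g, rfl⟩
    have h1 : χ ((φ₂ ^ k : MulAut H₂).toMonoidHom g) = χ g := hkχ g
    rw [map_mul, map_mul, h1]
    have h2 : χ g * χ g⁻¹ = 1 := by rw [← map_mul]; simp
    calc χ x = χ x * (χ g * χ g⁻¹) := by rw [h2, mul_one]
      _ = χ g * χ x * χ g⁻¹ := by ring
  have hrange : (Set.range χ).Finite := by
    have : Set.range χ ⊆ Set.range (Quot.lift χ hconst) := by
      rintro _ ⟨x, rfl⟩
      exact ⟨Quot.mk _ x, rfl⟩
    exact (Set.finite_range _).subset this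
  let χu : H₂ →* ℂˣ := χ.toHomUnits
  have hχu : ∀ x, ((χu x : ℂˣ) : ℂ) = χ x := fun x => MonoidHom.coe_toHomUnits χ x
  have : Finite χu.range := by
    have h1 : (Set.range χu).Finite := by
      refine Set.Finite.of_finite_image (f := Units.val) (hrange.subset ?_)
        (Units.val_injective.injOn)
      rintro _ ⟨_, ⟨x, rfl⟩, rfl⟩
      exact ⟨x, (hχu x).symm⟩
    exact h1
  have hker : χu.ker.FiniteIndex := inferInstance
  obtain ⟨z, hz0, hz⟩ := int_vector v hv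
  refine ⟨χu.ker.map H₂.subtype, z, ?_, hz0, ?_⟩
  · constructor
    rw [Subgroup.index_map_subtype]
    exact mul_ne_zero hker.index_ne_zero hH₂.index_ne_zero
  · rintro h ⟨x, hx, rfl⟩
    apply hz
    have h1 := hχ x
    have h2 : χ x = 1 := by
      rw [← hχu x]
      have : χu x = 1 := hx
      rw [this]; rfl
    rw [h2, one_smul, hρ₂] at h1
    exact h1

end Pool.Agent.H827.RN
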