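import Pool.Agent.H827.RN.Fin

/-!
# Finite Reidemeister numbers and the width of the lower `p`-central series
-/

set_option autoImplicit false

open Subgroup
open scoped commutatorElement

universe u v

namespace Pool.Agent.H827.RN

/-- The lower `p`-central series of `G`: `LP G p 0 = G`, and `LP G p (k + 1)` is generated by the
`p`-th powers of the elements of `LP G p k` and the commutators of elements of `LP G p k` with
elements of `G`. -/
def LP (G : Type*) [Group G] (p : ℕ) : ℕ → Subgroup G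
  | 0 => ⊤
  | k + 1 => Subgroup.closure ((fun w : G => w ^ p) '' (LP G p k : Set G)) ⊔
      ⁅LP G p k, (⊤ : Subgroup G)⁆

namespace Wid

variable {G : Type u} [Group G] (p : ℕ)

theorem pow_mem {k : ℕ} {x : G} (hx : x ∈ LP G p k) : x ^ p ∈ LP G p (k + 1) :=
  (le_sup_left : Subgroup.closure ((fun w : G => w ^ p) '' (LP G p k : Set G)) ≤ LP G p (k + 1))
    (Subgroup.subset_closure ⟨x, hx, rfl⟩)

theorem comm_mem {k : ℕ} {x : G} (hx : x ∈ LP G p k) (g : G) : ⁅x, g⁆ ∈ LP G p (k + 1) :=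
  (le_sup_right : ⁅LP G p k, (⊤ : Subgroup G)⁆ ≤ LP G p (k + 1))
    (Subgroup.commutator_mem_commutator hx (Subgroup.mem_top g))

theorem succ_le_of {k : ℕ} {K : Subgroup G} (h1 : ∀ x ∈ LP G p k, x ^ p ∈ K)
    (h2 : ∀ x ∈ LP G p k, ∀ g : G, ⁅x, g⁆ ∈ K) : LP G p (k + 1) ≤ K := by
  refine sup_le ?_ ?_
  · rw [Subgroup.closure_le]
    rintro _ ⟨x, hx, rfl⟩
    exact h1 x hx
  · rw [Subgroup.commutator_le]
    intro x hx g _
    exact h2 x hx g

theorem aux (k : ℕ) : (LP G p k).Normal ∧ LP G p (k + 1) ≤ LP G p k := by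
  induction k with
  | zero => exact ⟨(inferInstance : (⊤ : Subgroup G).Normal), le_top⟩
  | succ k ih =>
    obtain ⟨h1, h2⟩ := ih
    have hn : (LP G p (k + 1)).Normal := by
      refine ⟨fun n hn g => ?_⟩
      have h3 : g * n * g⁻¹ = ⁅n, g⁆⁻¹ * n := by
        rw [commutatorElement_def]
        group
      rw [h3]
      exact mul_mem (inv_mem (comm_mem p (h2 hn) g)) hn
    refine ⟨hn, succ_le_of p (fun x hx => _root_.pow_mem hx p) fun x hx g => ?_⟩
    have h3 : ⁅x, g⁆ = x * (g * x⁻¹ * g⁻¹) := by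
      rw [commutatorElement_def]
      group
    rw [h3]
    exact mul_mem hx (hn.conj_mem _ (inv_mem hx) g)

theorem normal (k : ℕ) : (LP G p k).Normal := (aux p k).1

theorem anti (k : ℕ) : LP G p (k + 1) ≤ LP G p k := (aux p k).2

theorem one_eq : LP G p 1 = PC G p := by
  change Subgroup.closure ((fun w : G => w ^ p) '' ((⊤ : Subgroup G) : Set G)) ⊔
      ⁅(⊤ : Subgroup G), (⊤ : Subgroup G)⁆ = _
  rw [Subgroup.coe_top, Set.image_univ, PC, _root_.commutator_def]

/-- central elements do not change commutators -/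
theorem comm_central {Q : Type u} [Group Q] {c d : Q} (hc : ∀ g, c * g = g * c)
    (hd : ∀ g, d * g = g * d) (y z : Q) : ⁅c * y, d * z⁆ = ⁅y, z⁆ := by
  rw [commutatorElement_def, commutatorElement_def]
  have h1 : c * y * (d * z) * (c * y)⁻¹ * (d * z)⁻¹ = c * (y * (d * z)) * y⁻¹ * c⁻¹ * z⁻¹ * d⁻¹ := by
    group
  rw [h1, hc]
  have h2 : y * (d * z) * c * y⁻¹ * c⁻¹ * z⁻¹ * d⁻¹ = y * (d * z) * (c * y⁻¹) * c⁻¹ * z⁻¹ * d⁻¹ := by
    group
  rw [h2, hc y⁻¹]
  have h3 : y * (d * z) * (y⁻¹ * c) * c⁻¹ * z⁻¹ * d⁻¹ = y * (d * (z * y⁻¹ * z⁻¹)) * d⁻¹ := by group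
  rw [h3, hd (z * y⁻¹ * z⁻¹)]
  group

theorem comm_aux {Q : Type u} [Group Q] {X U Y Z : Q} (hU : ∀ y, U * y = y * U)
    (hXZ : X * Z = Z * X) : ⁅X * U, Y * Z⁆ = ⁅X, Y⁆ := by
  rw [commutatorElement_def, commutatorElement_def]
  have h1 : X * U * (Y * Z) * (X * U)⁻¹ * (Y * Z)⁻¹ =
      X * (U * (Y * Z)) * U⁻¹ * X⁻¹ * Z⁻¹ * Y⁻¹ := by group
  rw [h1, hU]
  have h2 : X⁻¹ * Z⁻¹ = Z⁻¹ * X⁻¹ := by
    rw [← mul_inv_rev, ← mul_inv_rev, hXZ]
  have h3 : X * (Y * Z * U) * U⁻¹ * X⁻¹ * Z⁻¹ * Y⁻¹ = X * Y * Z * (X⁻¹ * Z⁻¹) * Y⁻¹ := by group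
  rw [h3, h2]
  group

theorem act (θ : G →* G) (h0 : ∀ x : G, x⁻¹ * θ x ∈ LP G p 1) (k : ℕ) :
    ∀ b ∈ LP G p k, b⁻¹ * θ b ∈ LP G p (k + 1) := by
  induction k with
  | zero => intro b _; exact h0 b
  | succ k ih =>
    have hN : (LP G p (k + 2)).Normal := normal p (k + 2)
    let π : G →* G ⧸ LP G p (k + 2) := QuotientGroup.mk' _
    have hπ : ∀ x : G, π x = 1 ↔ x ∈ LP G p (k + 2) := fun x => QuotientGroup.eq_one_iff x
    have hcomm : ∀ x y : G, ⁅x, y⁆ ∈ LP G p (k + 2) → π x * π y = π y * π x := by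
      intro x y h
      have h1 : π ⁅x, y⁆ = 1 := (hπ _).2 h
      rw [map_commutatorElement, commutatorElement_eq_one_iff_mul_comm] at h1
      exact h1
    have hz : ∀ c ∈ LP G p (k + 1), ∀ g : G ⧸ LP G p (k + 2), π c * g = g * π c := by
      intro c hc g
      obtain ⟨g, rfl⟩ := QuotientGroup.mk'_surjective _ g
      exact hcomm c g (comm_mem p hc g)
    have ht : ∀ c ∈ LP G p (k + 1), (π c) ^ p = 1 := by
      intro c hc
      rw [← map_pow, hπ]
      exact pow_mem p hc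
    -- conjugation by `x ∈ LP k` changes `w` by a central element
    have hcw : ∀ x ∈ LP G p k, ∀ w : G, π x * π w = (π ⁅x, w⁆ * π w) * π x := by
      intro x _ w
      rw [← map_mul, ← map_mul, ← map_mul, commutatorElement_def]
      congr 1
      group
    have hxq : ∀ x ∈ LP G p k, ∀ q ∈ LP G p 1, π x * π q = π q * π x := by
      intro x hx q hq
      have h1 : LP G p 1 ≤ (Subgroup.centralizer {π x}).comap π := by
        refine succ_le_of p ?_ ?_
        · intro w _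
          rw [Subgroup.mem_comap, Subgroup.mem_centralizer_singleton_iff, map_pow]
          have h2 : SemiconjBy (π x) (π w) (π ⁅x, w⁆ * π w) := hcw x hx w
          have h3 := h2.pow_right p
          have h4 : (π ⁅x, w⁆ * π w) ^ p = (π w) ^ p := by
            have h5 : Commute (π ⁅x, w⁆) (π w) := hz _ (comm_mem p hx w) _
            rw [h5.mul_pow, ht _ (comm_mem p hx w), one_mul]
          rw [h4] at h3
          exact h3.eq.symm
        · intro y _ z
          rw [Subgroup.mem_comap, Subgroup.mem_centralizer_singleton_iff, map_commutatorElement]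
          have h2 : π x * ⁅π y, π z⁆ * (π x)⁻¹ = ⁅π y, π z⁆ := by
            have h3 : π x * ⁅π y, π z⁆ * (π x)⁻¹ =
                ⁅π x * π y * (π x)⁻¹, π x * π z * (π x)⁻¹⁆ := by
              rw [commutatorElement_def, commutatorElement_def]
              group
            rw [h3, hcw x hx y, hcw x hx z, mul_inv_cancel_right, mul_inv_cancel_right]
            exact comm_central (hz _ (comm_mem p hx y)) (hz _ (comm_mem p hx z)) _ _
          rw [mul_inv_eq_iff_eq_mul] at h2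
          exact h2.symm
      have h2 := h1 hq
      rw [Subgroup.mem_comap, Subgroup.mem_centralizer_singleton_iff] at h2
      exact h2.symm
    have hdec : ∀ x : G, π (θ x) = π x * π (x⁻¹ * θ x) := by
      intro x
      rw [← map_mul]
      congr 1
      group
    have key : LP G p (k + 1) ≤ (π.comp θ).eqLocus π := by
      refine succ_le_of p ?_ ?_
      · intro x hx
        change π (θ (x ^ p)) = π (x ^ p)
        have hu := ih x hx
        rw [map_pow, map_pow, map_pow, hdec]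
        have h5 : Commute (π x) (π (x⁻¹ * θ x)) := (hz _ hu _).symm
        rw [h5.mul_pow, ht _ hu, mul_one]
      · intro x hx g
        change π (θ ⁅x, g⁆) = π ⁅x, g⁆
        rw [map_commutatorElement, map_commutatorElement, map_commutatorElement, hdec x, hdec g]
        exact comm_aux (hz _ (ih x hx)) (hxq x hx _ (h0 g))
    intro b hb
    have h7 : π (θ b) = π b := key hb
    exact QuotientGroup.eq.1 h7.symm

theorem card_le {Q : Type u} [Group Q] [Finite Q] (θ : Q →* Q) (V : Subgroup Q)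
    (hV : ∀ v ∈ V, θ v = v ∧ ∀ g, v * g = g * v) :
    Nat.card V ≤ Nat.card (Quot (Tw θ)) := by
  let F : Quot (Tw θ) × (Q ⧸ V) → Q := fun c => θ c.2.out * c.1.out * (c.2.out)⁻¹
  have hF : Function.Surjective F := by
    intro y
    obtain ⟨g, hg⟩ := Twfi.tw_of_mk θ (Quot.out_eq (Quot.mk (Tw θ) y))
    refine ⟨(Quot.mk (Tw θ) y, (g : Q ⧸ V)), ?_⟩
    obtain ⟨v, hv⟩ := QuotientGroup.mk_out_eq_mul V g
    change θ (g : Q ⧸ V).out * (Quot.mk (Tw θ) y).out * ((g : Q ⧸ V).out)⁻¹ = y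
    rw [hv]
    obtain ⟨h1, h2⟩ := hV v v.2
    generalize (Quot.mk (Tw θ) y).out = r at *
    have h3 : θ (g * v) * r * (g * v)⁻¹ = θ g * ((v : Q) * r) * (v : Q)⁻¹ * g⁻¹ := by
      rw [map_mul, h1]
      group
    rw [h3, h2, hg]
    group
  have h4 := Nat.card_le_card_of_surjective F hF
  rw [Nat.card_prod, V.card_eq_card_quotient_mul_card_subgroup,
    mul_comm (Nat.card (Quot (Tw θ)))] at h4
  exact Nat.le_of_mul_le_mul_left h4 Nat.card_pos

theorem pc_fi {G : Type u} [Group G] [Group.FG G] (hp : 0 < p) : (PC G p).FiniteIndex := by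
  have hN : (PC G p).Normal := Pow.pc_normal p
  have hcomm : ∀ a b : G ⧸ PC G p, a * b = b * a := by
    intro a b
    obtain ⟨x, rfl⟩ := QuotientGroup.mk_surjective a
    obtain ⟨y, rfl⟩ := QuotientGroup.mk_surjective b
    rw [← QuotientGroup.mk_mul, ← QuotientGroup.mk_mul, QuotientGroup.eq]
    refine Pow.comm_le p ?_
    have h1 : (x * y)⁻¹ * (y * x) = ⁅y⁻¹, x⁻¹⁆ := by
      rw [commutatorElement_def]
      group
    rw [h1, _root_.commutator_def]
    exact Subgroup.commutator_mem_commutator (Subgroup.mem_top _) (Subgroup.mem_top _)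
  have hfg : Group.FG (G ⧸ PC G p) := QuotientGroup.fg _
  have hpow : ∀ a : G ⧸ PC G p, a ^ p = 1 := by
    intro a
    obtain ⟨x, rfl⟩ := QuotientGroup.mk_surjective a
    rw [← QuotientGroup.mk_pow, QuotientGroup.eq_one_iff]
    exact Pow.pow_mem p x
  have hfin : Finite (G ⧸ PC G p) := by
    let _ : CommGroup (G ⧸ PC G p) := { (inferInstance : Group (G ⧸ PC G p)) with mul_comm := hcomm }
    refine CommGroup.finite_of_fg_isMulTorsion _ fun a => ?_
    rw [isOfFinOrder_iff_pow_eq_one]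
    exact ⟨p, hp, hpow a⟩
  exact Subgroup.finiteIndex_of_finite_quotient

theorem fi [Group.FG G] (hp : 0 < p) (k : ℕ) : (LP G p k).FiniteIndex := by
  induction k with
  | zero => exact (inferInstance : (⊤ : Subgroup G).FiniteIndex)
  | succ k ih =>
    have hfg : Group.FG (LP G p k) := inferInstance
    have h1 := pc_fi (G := LP G p k) p hp
    have h2 : (PC (LP G p k) p).map (LP G p k).subtype ≤ LP G p (k + 1) := by
      rw [Subgroup.map_le_iff_le_comap]
      refine sup_le ?_ ?_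
      · rw [Subgroup.closure_le]
        rintro _ ⟨w, rfl⟩
        exact pow_mem p w.2
      · rw [_root_.commutator_def, Subgroup.commutator_le]
        intro x _ y _
        exact comm_mem p x.2 (y : G)
    have h3 : ((PC (LP G p k) p).map (LP G p k).subtype).FiniteIndex := by
      refine ⟨?_⟩
      rw [Subgroup.index_map_subtype]
      exact mul_ne_zero h1.index_ne_zero ih.index_ne_zero
    exact Subgroup.finiteIndex_of_le h2

theorem width [Group.FG G] (hp : 0 < p) (θ : G →* G) (h0 : ∀ x : G, x⁻¹ * θ x ∈ PC G p)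
    [Finite (Quot (Tw θ))] (k : ℕ) :
    (LP G p (k + 1)).relIndex (LP G p k) ≤ Nat.card (Quot (Tw θ)) := by
  have h0' : ∀ x : G, x⁻¹ * θ x ∈ LP G p 1 := by
    intro x
    rw [one_eq]
    exact h0 x
  have hn := normal (G := G) p (k + 1)
  have hfi := fi (G := G) p hp (k + 1)
  have hfinQ : Finite (G ⧸ LP G p (k + 1)) := inferInstance
  let π : G →* G ⧸ LP G p (k + 1) := QuotientGroup.mk' (LP G p (k + 1))
  have hθ : LP G p (k + 1) ≤ (LP G p (k + 1)).comap θ := by
    intro b hb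
    rw [Subgroup.mem_comap]
    have h1 : θ b = b * (b⁻¹ * θ b) := by group
    rw [h1]
    exact mul_mem hb (anti p (k + 1) (act p θ h0' (k + 1) b hb))
  let θ' : G ⧸ LP G p (k + 1) →* G ⧸ LP G p (k + 1) := QuotientGroup.map _ _ θ hθ
  have hc : ∀ x, π (θ x) = θ' (π x) := fun x => rfl
  have h1 := (cls_quot π (QuotientGroup.mk'_surjective _) θ θ' hc).2
  refine le_trans ?_ h1
  have h2 := Subgroup.relIndex_ker (K := LP G p k) π
  rw [QuotientGroup.ker_mk'] at h2
  rw [h2]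
  refine card_le θ' _ ?_
  rintro _ ⟨b, hb, rfl⟩
  refine ⟨?_, ?_⟩
  · rw [← hc]
    exact (QuotientGroup.eq.2 (act p θ h0' k b hb)).symm
  · intro g
    obtain ⟨g, rfl⟩ := QuotientGroup.mk'_surjective _ g
    have h3 : π ⁅b, g⁆ = 1 := (QuotientGroup.eq_one_iff _).2 (comm_mem p hb g)
    rw [map_commutatorElement, commutatorElement_eq_one_iff_mul_comm] at h3
    exact h3

/-- twisted classes in a subgroup of finite index -/
theorem twfi (Γ : Type u) [Group Γ] (N : Subgroup Γ) (θ : Γ →* Γ) (θ' : N →* N)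
    (hfi : N.FiniteIndex) (hθ : ∀ x : N, ((θ' x : N) : Γ) = θ x) (hfin : Finite (Quot (Tw θ))) :
    Finite (Quot (Tw θ')) := by
  have h1 : ∀ y : N, ∃ g : Γ, (y : Γ) = θ g * (Quot.mk (Tw θ) (y : Γ)).out * g⁻¹ := fun y =>
    Twfi.tw_of_mk θ (Quot.out_eq (Quot.mk (Tw θ) (y : Γ)))
  choose g hg using h1
  have h2 : ∀ y y' : N, Quot.mk (Tw θ) (y : Γ) = Quot.mk (Tw θ) (y' : Γ) →
      (((g y)⁻¹ : Γ) : Γ ⧸ N) = (((g y')⁻¹ : Γ) : Γ ⧸ N) →
        Quot.mk (Tw θ') y = Quot.mk (Tw θ') y' := by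
    intro y y' hc hq
    apply Quot.sound
    have h3 : ((g y)⁻¹)⁻¹ * (g y')⁻¹ ∈ N := QuotientGroup.eq.1 hq
    have h4 : g y' * (g y)⁻¹ ∈ N := by
      have h5 := N.inv_mem h3
      have h6 : (((g y)⁻¹)⁻¹ * (g y')⁻¹)⁻¹ = g y' * (g y)⁻¹ := by group
      rwa [h6] at h5
    refine ⟨⟨g y' * (g y)⁻¹, h4⟩, ?_⟩
    apply Subtype.ext
    have h7 := hg y'
    rw [← hc] at h7
    have h8 : ((θ' ⟨g y' * (g y)⁻¹, h4⟩ * y * (⟨g y' * (g y)⁻¹, h4⟩ : N)⁻¹ : N) : Γ) =
        θ (g y' * (g y)⁻¹) * y * (g y' * (g y)⁻¹)⁻¹ := by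
      rw [Subgroup.coe_mul, Subgroup.coe_mul, hθ, Subgroup.coe_inv]
    have key : ∀ a b r : Γ, θ (b * a⁻¹) * (θ a * r * a⁻¹) * (b * a⁻¹)⁻¹ = θ b * r * b⁻¹ := by
      intro a b r
      rw [map_mul, map_inv]
      group
    have h9 := key (g y) (g y') (Quot.mk (Tw θ) (y : Γ)).out
    rw [← hg y] at h9
    rw [h8, h9]
    exact h7
  have : Finite (Quot (Tw θ) × (Γ ⧸ N)) := inferInstance
  refine Finite.of_injective (fun q : Quot (Tw θ') =>
    ((Quot.mk (Tw θ) (q.out : Γ), (((g q.out)⁻¹ : Γ) : Γ ⧸ N)) : Quot (Tw θ) × (Γ ⧸ N))) ?_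
  intro q q' hqq
  have h3 := congrArg Prod.fst hqq
  have h4 := congrArg Prod.snd hqq
  have h5 := h2 q.out q'.out h3 h4
  rwa [Quot.out_eq, Quot.out_eq] at h5

/-- an automorphism acts with finite order on a finite invariant quotient -/
theorem exists_iter (φ : G ≃* G) (N : Subgroup G) [N.Normal] [N.FiniteIndex]
    (hN : N ≤ N.comap φ.toMonoidHom) : ∃ n : ℕ, 1 ≤ n ∧ ∀ x : G, x⁻¹ * φ^[n] x ∈ N := by
  have hfin : Finite (G ⧸ N) := inferInstance
  let f : G ⧸ N →* G ⧸ N := QuotientGroup.map _ _ φ.toMonoidHom hN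
  have hf : ∀ x : G, f (QuotientGroup.mk x) = QuotientGroup.mk (φ x) := fun x => rfl
  have hsurj : Function.Surjective f := by
    intro a
    obtain ⟨x, rfl⟩ := QuotientGroup.mk_surjective a
    exact ⟨QuotientGroup.mk (φ.symm x), by rw [hf, MulEquiv.apply_symm_apply]⟩
  have hbij : Function.Bijective f := Function.Surjective.bijective_of_finite hsurj
  let e : Equiv.Perm (G ⧸ N) := Equiv.ofBijective f hbij
  refine ⟨orderOf e, orderOf_pos e, fun x => ?_⟩
  have h1 : ∀ (n : ℕ) (x : G), f^[n] (QuotientGroup.mk x) = QuotientGroup.mk (φ^[n] x) := by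
    intro n
    induction n with
    | zero => intro x; rfl
    | succ n ih => intro x; rw [Function.iterate_succ_apply, Function.iterate_succ_apply, hf, ih]
  have h2 : f^[orderOf e] (QuotientGroup.mk x) = QuotientGroup.mk x := by
    have h3 : (⇑e)^[orderOf e] = ⇑(e ^ orderOf e) := Equiv.Perm.iterate_eq_pow e _
    have h4 : (⇑e)^[orderOf e] (QuotientGroup.mk x) = QuotientGroup.mk x := by
      rw [h3, pow_orderOf_eq_one]
      rfl
    exact h4
  rw [← QuotientGroup.eq, ← h1, h2]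

end Wid

open Wid in
/-- the lower `p`-central series of a subgroup of finite index has factors of bounded order -/
theorem width_fi {Γ : Type u} [Group Γ] [Group.FG Γ] (φ : Γ ≃* Γ)
    (hR : ∀ n : ℕ, 1 ≤ n → Finite (Quot (Tw (it φ n))))
    (H : Subgroup Γ) (hH : H.FiniteIndex) (p : ℕ) (hp : 0 < p) :
    ∃ B : ℕ, ∀ k : ℕ, (LP H p (k + 1)).relIndex (LP H p k) ≠ 0 ∧
      (LP H p (k + 1)).relIndex (LP H p k) ≤ B := by
  obtain ⟨Γ₂, hΓ₂, hle, hchar⟩ := t_fi Γ H hH
  have hnorm : Γ₂.Normal := inferInstance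
  obtain ⟨m, hm, hmx⟩ := exists_iter φ Γ₂ (fun x hx =>
    Subgroup.characteristic_iff_le_comap.1 hchar φ hx)
  have hfgH : Group.FG H := inferInstance
  have hmap : ∀ x : Γ, x ∈ H → φ^[m] x ∈ H := by
    intro x hx
    have h1 : φ^[m] x = x * (x⁻¹ * φ^[m] x) := by group
    rw [h1]
    exact mul_mem hx (hle (hmx x))
  have hli : Function.LeftInverse (φ.symm^[m]) (φ^[m]) :=
    Function.LeftInverse.iterate φ.symm_apply_apply m
  have hri : Function.LeftInverse (φ^[m]) (φ.symm^[m]) :=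
    Function.LeftInverse.iterate φ.apply_symm_apply m
  have hmap' : ∀ x : Γ, x ∈ H → φ.symm^[m] x ∈ H := by
    intro x hx
    have h1 := hle (hmx (φ.symm^[m] x))
    rw [hri x] at h1
    have h2 := H.mul_mem hx (H.inv_mem h1)
    have h3 : x * ((φ.symm^[m] x)⁻¹ * x)⁻¹ = φ.symm^[m] x := by group
    rwa [h3] at h2
  let φ₂ : H ≃* H :=
    { toFun := fun x => ⟨φ^[m] (x : Γ), hmap x x.2⟩
      invFun := fun x => ⟨φ.symm^[m] (x : Γ), hmap' x x.2⟩
      left_inv := fun x => Subtype.ext (hli (x : Γ))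
      right_inv := fun x => Subtype.ext (hri (x : Γ))
      map_mul' := fun x y => Subtype.ext (iterate_map_mul φ m (x : Γ) (y : Γ)) }
  have hcoe : ∀ (n : ℕ) (x : H), ((φ₂^[n] x : H) : Γ) = (φ^[m * n] : Γ → Γ) (x : Γ) := by
    intro n
    rw [Function.iterate_mul]
    induction n with
    | zero => intro x; rfl
    | succ n ih =>
      intro x
      rw [Function.iterate_succ_apply, Function.iterate_succ_apply, ih]
      rfl
  obtain ⟨n, hn, hpc⟩ := t_pow H φ₂ p hp
  have hfin : Finite (Quot (Tw (it φ₂ n))) :=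
    twfi Γ H (it φ (m * n)) (it φ₂ n) hH (fun x => hcoe n x) (hR (m * n) (Nat.mul_pos hm hn))
  refine ⟨Nat.card (Quot (Tw (it φ₂ n))), fun k => ⟨?_, width p hp (it φ₂ n) hpc k⟩⟩
  have h1 := fi (G := H) p hp (k + 1)
  have hnn := normal (G := H) p (k + 1)
  have h2 := Subgroup.relIndex_dvd_index_of_normal (LP H p (k + 1)) (LP H p k)
  intro h0
  rw [h0, zero_dvd_iff] at h2
  exact h1.index_ne_zero h2

end Pool.Agent.H827.RN
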