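import Pool.Agent.H827.RN.Wid

/-!
# The lower `p`-central series and the number of fixed points
-/

set_option autoImplicit false

open Subgroup

universe u

namespace Pool.Agent.H827.RN

/-- if `θ` is trivial modulo commutators and `p`-th powers, the factors of the lower `p`-central
series are not larger than the number of twisted conjugacy classes -/
theorem width_le {G : Type u} [Group G] [Group.FG G] (p : ℕ) (hp : 0 < p) (θ : G →* G)
    (h0 : ∀ x : G, x⁻¹ * θ x ∈ PC G p) [Finite (Quot (Tw θ))] (k : ℕ) :
    (LP G p (k + 1)).relIndex (LP G p k) ≠ 0 ∧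
      (LP G p (k + 1)).relIndex (LP G p k) ≤ Nat.card (Quot (Tw θ)) := by
  refine ⟨?_, Wid.width p hp θ h0 k⟩
  have h1 := Wid.fi (G := G) p hp (k + 1)
  have hnn := Wid.normal (G := G) p (k + 1)
  have h2 := Subgroup.relIndex_dvd_index_of_normal (LP G p (k + 1)) (LP G p k)
  intro h0
  rw [h0, zero_dvd_iff] at h2
  exact h1.index_ne_zero h2

end Pool.Agent.H827.RN
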